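import Mathlib

/-!
Definitions for the Jacobians of `y ^ ℓ = x ^ (ℓ - 1) (x + 1) (x + h ^ d)` over `k(u)`.
-/

set_option autoImplicit false
set_option linter.all false

open Polynomial

namespace Pool.Agent.TH958.SJ

/-- The polynomial `x ^ (ℓ - 1) (x + 1) (x + t)` over a field `K`. -/
noncomputable def fp {K : Type} [Field K] (ℓ : ℕ) (t : K) : K[X] :=
  X ^ (ℓ - 1) * (X + 1) * (X + C t)

/-- The polynomial `Y ^ ℓ - x ^ (ℓ - 1) (x + 1) (x + t)` in `Y` over `K(x)`. -/
noncomputable def kummerPoly (K : Type) [Field K] (ℓ : ℕ) (t : K) : (RatFunc K)[X] :=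
  X ^ ℓ - C (algebraMap K[X] (RatFunc K) (fp ℓ t))

/-- The function field `K(x, y)` of the curve `y ^ ℓ = x ^ (ℓ - 1) (x + 1) (x + t)`: the splitting
field of `Y ^ ℓ - x ^ (ℓ - 1) (x + 1) (x + t)` over `K(x)`. (It is only used for fields `K` which
contain the `ℓ`-th roots of unity.) -/
abbrev FunField (K : Type) [Field K] (ℓ : ℕ) (t : K) : Type := (kummerPoly K ℓ t).SplittingField

/-- The coordinate ring of the smooth projective curve minus its point at infinity: the integral
closure of `K[x]` in the function field. -/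
noncomputable def coordRing (K : Type) [Field K] (ℓ : ℕ) (t : K) : Subalgebra K[X] (FunField K ℓ t) :=
  integralClosure K[X] (FunField K ℓ t)

/-- The class group of the ring `R` contains `r` linearly independent elements. -/
def ClassRankGE (R : Type) [CommRing R] [IsDomain R] (r : ℕ) : Prop :=
  ∃ Q : Fin r → Additive (ClassGroup R), LinearIndependent ℤ Q

/-- The group `J(K)` of rational points of the Jacobian of `y ^ ℓ = x ^ (ℓ - 1) (x + 1) (x + t)`
contains `r` linearly independent elements. The curve has exactly one point at infinity, and this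
point is `K`-rational, so `J(K)` is the class group of the coordinate ring. -/
def JacRankGE (K : Type) [Field K] (ℓ : ℕ) (t : K) (r : ℕ) : Prop :=
  ClassRankGE (coordRing K ℓ t) r

/-- The element `h ^ d` of `k(u)`. -/
noncomputable def tOf (k : Type) [Field k] (d : ℕ) (h : k[X]) : RatFunc k :=
  algebraMap k[X] (RatFunc k) (h ^ d)

/-- The subfield with `|k| ^ n` elements of the algebraic closure of the finite field `k`. -/
def ext (k : Type) [Field k] (n : ℕ) : Set (AlgebraicClosure k) :=
  {x | x ^ (Nat.card k ^ n) = x}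

/-- The solutions `(u, x, y)` of `y ^ ℓ = x ^ (ℓ - 1) (x + 1) (x + h(u) ^ d)` with coordinates in
the extension of degree `n` of `k`. -/
def sols (k : Type) [Field k] (ℓ d : ℕ) (h : k[X]) (n : ℕ) :
    Set (AlgebraicClosure k × AlgebraicClosure k × AlgebraicClosure k) :=
  {v | v.1 ∈ ext k n ∧ v.2.1 ∈ ext k n ∧ v.2.2 ∈ ext k n ∧
    v.2.2 ^ ℓ = v.2.1 ^ (ℓ - 1) * (v.2.1 + 1) * (v.2.1 + (aeval v.1 h) ^ d)}

/-- The sum over the `u` in `ℙ¹(k_n)`, where `k_n` is the extension of degree `n` of `k`, of the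
traces of Frobenius on the inertia invariants of the first cohomology of the curve: the trace at
`u` in `k_n` is `|k_n|` minus the number of solutions `(x, y)`, and the trace at infinity is
`ℓ - 1`. -/
noncomputable def trace (k : Type) [Field k] (ℓ d : ℕ) (h : k[X]) (n : ℕ) : ℤ :=
  (Nat.card k : ℤ) ^ (2 * n) - (sols k ℓ d h n).ncard + (ℓ - 1)

/-- `P` is the `L`-function, as a polynomial in `T`: `P(0) = 1` and the logarithmic derivative
`T P' / P` is `∑ trace(n) T ^ n`. -/
def IsL (k : Type) [Field k] (ℓ d : ℕ) (h : k[X]) (P : ℤ[X]) : Prop :=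
  P.coeff 0 = 1 ∧ ((X * derivative P : ℤ[X]) : PowerSeries ℤ) =
    (P : PowerSeries ℤ) * PowerSeries.mk fun n => if n = 0 then 0 else trace k ℓ d h n

/-- The `L`-function vanishes at `T = 1 / |k|` to order at most `r`: if it is
`(1 - |k| T) ^ m G(T)` with `G` in `ℤ[T]` then `m ≤ r`. -/
def OrderLE (k : Type) [Field k] (ℓ d : ℕ) (h : k[X]) (r : ℕ) : Prop :=
  ∀ (m : ℕ) (G : ℤ[X]), IsL k ℓ d h ((1 - C (Nat.card k : ℤ) * X) ^ m * G) → m ≤ r

/-- The Jacobian of `y ^ ℓ = x ^ (ℓ - 1) (x + 1) (x + h ^ d)` over `k(u)` has `r` linearly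
independent rational points, and its `L`-function vanishes at `T = 1 / |k|` to order at most
`r`. -/
def RankAndOrder (k : Type) [Field k] (ℓ d : ℕ) (h : k[X]) (r : ℕ) : Prop :=
  JacRankGE (RatFunc k) ℓ (tOf k d h) r ∧ OrderLE k ℓ d h r

/-- `h` is an irreducible polynomial whose degree is not divisible by `ℓ` and `h - z` is irreducible
for all `d`-th roots of unity `z` in `k`. -/
def Good {k : Type} [Field k] (ℓ d : ℕ) (h : k[X]) : Prop :=
  Irreducible h ∧ ¬ ℓ ∣ h.natDegree ∧ ∀ z : k, z ^ d = 1 → Irreducible (h - C z)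

end Pool.Agent.TH958.SJ
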