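import Pool.Agent.TH958.SJ.Stab
import Pool.Agent.TH958.SJ.Defs

set_option autoImplicit false
set_option linter.all false
set_option maxHeartbeats 1000000

open Polynomial
open scoped nonZeroDivisors

namespace Pool.Agent.TH958.SJ

lemma exists_add_mul {ℓ a b : ℕ} (h : (a : ZMod ℓ) = b) : ∃ x y : ℕ, a + ℓ * x = b + ℓ * y := by
  rcases le_total a b with hab | hab
  · have h1 := (Nat.modEq_iff_dvd' hab).1 ((ZMod.natCast_eq_natCast_iff _ _ _).1 h)
    obtain ⟨k, hk⟩ := h1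
    exact ⟨k, 0, by omega⟩
  · have h1 := (Nat.modEq_iff_dvd' hab).1 ((ZMod.natCast_eq_natCast_iff _ _ _).1 h.symm)
    obtain ⟨k, hk⟩ := h1
    exact ⟨0, k, by omega⟩

variable {K : Type} [Field K] {L F B : Type} [Field L] [Field F] [CommRing B]
    [Algebra K[X] L] [Algebra L F] [Algebra K[X] F] [Algebra K[X] B] [Algebra B F]
    {ℓ : ℕ} {t : K} [IsFractionRing K[X] L] [IsScalarTower K[X] L F]
    [IsScalarTower K[X] B F] [IsIntegralClosure B K[X] F] [FiniteDimensional L F]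
    [IsDedekindDomain B]

namespace Cov

variable (D : Cov K L F B ℓ (fp ℓ t))

/-- the automorphism as a ring isomorphism -/
noncomputable def sr : B ≃+* B := (D.s : B ≃+* B)

include D in
lemma same_class {I J : (Ideal B)⁰} {a a' : K[X]} (ha : I.1 ^ ℓ = Ideal.span {algebraMap K[X] B a})
    (ha' : J.1 ^ ℓ = Ideal.span {algebraMap K[X] B a'}) {u u' : K} {g g' : K[X]}
    {e₀ e₁ e₂ e₀' e₁' e₂' : ℕ} (hu : u ≠ 0) (hu' : u' ≠ 0) (hg : g ≠ 0) (hg' : g' ≠ 0)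
    (e : a = C u * g ^ ℓ * X ^ e₀ * (X + 1) ^ e₁ * (X + C t) ^ e₂)
    (e' : a' = C u' * g' ^ ℓ * X ^ e₀' * (X + 1) ^ e₁' * (X + C t) ^ e₂')
    (h1 : ((e₀ + e₁ : ℕ) : ZMod ℓ) = (e₀' + e₁' : ℕ))
    (h2 : ((e₂ + e₁' : ℕ) : ZMod ℓ) = (e₂' + e₁ : ℕ)) :
    ClassGroup.mk0 I = ClassGroup.mk0 J := by
  have hpos := D.hp.pos
  have h3 : (((ℓ - 1) * e₁' + e₀ : ℕ) : ZMod ℓ) = ((ℓ - 1) * e₁ + e₀' : ℕ) := by
    push_cast [Nat.cast_sub hpos]
    push_cast at h1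
    rw [CharP.cast_eq_zero (ZMod ℓ) ℓ]
    linear_combination h1
  obtain ⟨α₁, α₂, hα⟩ := exists_add_mul h3
  obtain ⟨β₁, β₂, hβ⟩ := exists_add_mul h2
  have hXt : (X + C t : K[X]) ≠ 0 := (monic_X_add_C t).ne_zero
  rw [ClassGroup.mk0_eq_mk0_iff]
  set p₁ : K[X] := g' * X ^ α₁ * (X + C t) ^ β₁ with hp₁
  set p₂ : K[X] := g * X ^ α₂ * (X + C t) ^ β₂ with hp₂
  have hp₁0 : p₁ ≠ 0 := mul_ne_zero (mul_ne_zero hg' (pow_ne_zero _ X_ne_zero)) (pow_ne_zero _ hXt)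
  have hp₂0 : p₂ ≠ 0 := mul_ne_zero (mul_ne_zero hg (pow_ne_zero _ X_ne_zero)) (pow_ne_zero _ hXt)
  have hA0 : ∀ p : K[X], p ≠ 0 → algebraMap K[X] B p ≠ 0 := by
    intro p hp h0
    exact hp (D.inj_AB (by rw [h0, map_zero]))
  refine ⟨D.y ^ e₁' * algebraMap K[X] B p₁, D.y ^ e₁ * algebraMap K[X] B p₂,
    mul_ne_zero (pow_ne_zero _ D.y_ne) (hA0 _ hp₁0),
    mul_ne_zero (pow_ne_zero _ D.y_ne) (hA0 _ hp₂0), ?_⟩
  apply ideal_pow_inj D.hp.ne_zero
  rw [mul_pow, mul_pow, ha, ha', Ideal.span_singleton_pow, Ideal.span_singleton_pow,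
    Ideal.span_singleton_mul_span_singleton, Ideal.span_singleton_mul_span_singleton]
  have hy1 : ∀ (n : ℕ) (p q : K[X]), (D.y ^ n * algebraMap K[X] B p) ^ ℓ * algebraMap K[X] B q =
      algebraMap K[X] B ((fp ℓ t) ^ n * p ^ ℓ * q) := by
    intro n p q
    rw [mul_pow, ← pow_mul, mul_comm n ℓ, pow_mul, D.hy]
    simp only [map_mul, map_pow]
  rw [hy1, hy1]
  have key : C u' * ((fp ℓ t) ^ e₁' * p₁ ^ ℓ * a) = C u * ((fp ℓ t) ^ e₁ * p₂ ^ ℓ * a') := by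
    rw [e, e', hp₁, hp₂, fp]
    have x1 : (X : K[X]) ^ ((ℓ - 1) * e₁' + e₀ + ℓ * α₁) = X ^ ((ℓ - 1) * e₁ + e₀' + ℓ * α₂) := by
      rw [hα]
    have x2 : (X + C t : K[X]) ^ (e₂ + e₁' + ℓ * β₁) = (X + C t) ^ (e₂' + e₁ + ℓ * β₂) := by
      rw [hβ]
    have l1 : C u' * ((X ^ (ℓ - 1) * (X + 1) * (X + C t)) ^ e₁' *
        (g' * X ^ α₁ * (X + C t) ^ β₁) ^ ℓ *
        (C u * g ^ ℓ * X ^ e₀ * (X + 1) ^ e₁ * (X + C t) ^ e₂)) =
        C u * C u' * g ^ ℓ * g' ^ ℓ * (X + 1) ^ (e₁ + e₁') *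
          (X ^ ((ℓ - 1) * e₁' + e₀ + ℓ * α₁) * (X + C t) ^ (e₂ + e₁' + ℓ * β₁)) := by
      simp only [mul_pow, ← pow_mul, pow_add]
      rw [mul_comm α₁ ℓ, mul_comm β₁ ℓ]
      ring
    have l2 : C u * ((X ^ (ℓ - 1) * (X + 1) * (X + C t)) ^ e₁ *
        (g * X ^ α₂ * (X + C t) ^ β₂) ^ ℓ *
        (C u' * g' ^ ℓ * X ^ e₀' * (X + 1) ^ e₁' * (X + C t) ^ e₂')) =
        C u * C u' * g ^ ℓ * g' ^ ℓ * (X + 1) ^ (e₁ + e₁') *
          (X ^ ((ℓ - 1) * e₁ + e₀' + ℓ * α₂) * (X + C t) ^ (e₂' + e₁ + ℓ * β₂)) := by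
      simp only [mul_pow, ← pow_mul, pow_add]
      rw [mul_comm α₂ ℓ, mul_comm β₂ ℓ]
      ring
    rw [l1, l2, x1, x2]
  have hun : ∀ w : K, w ≠ 0 → IsUnit (algebraMap K[X] B (C w)) := fun w hw =>
    (isUnit_C.2 (isUnit_iff_ne_zero.2 hw)).map _
  have s1 : ∀ (w : K) (p : K[X]), w ≠ 0 → Ideal.span {algebraMap K[X] B p} =
      Ideal.span {algebraMap K[X] B (C w * p)} := by
    intro w p hw
    rw [map_mul, Ideal.span_singleton_mul_left_unit (hun w hw)]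
  rw [s1 u' _ hu', key, ← s1 u _ hu]

section
variable [IsGalois L F] [Module.Finite K[X] B] [Module.IsTorsionFree K[X] B]

/-- a class fixed by the automorphism contains a stable ideal -/
lemma exists_stable (ht : t ≠ 1) {c : ClassGroup B} (hc : clMap D.sr c = c) :
    ∃ J : (Ideal B)⁰, ClassGroup.mk0 J = c ∧ J.1.map (D.sr : B →+* B) = J.1 := by
  obtain ⟨I, rfl⟩ := ClassGroup.mk0_surjective c
  rw [clMap_mk0, ClassGroup.mk0_eq_mk0_iff] at hc
  obtain ⟨x, z, hx, hz, h⟩ := hc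
  have h' : Ideal.span {x} * I.1.map (D.sr : B →+* B) = Ideal.span {z} * I.1 := h
  -- norms
  have hI0 : I.1 ≠ ⊥ := by
    have := nonZeroDivisors.ne_zero I.2
    rwa [Ideal.zero_eq_bot] at this
  have hN := congrArg (Ideal.relNorm K[X]) h'
  have hNs : Ideal.relNorm K[X] (I.1.map (D.sr : B →+* B)) = Ideal.relNorm K[X] I.1 :=
    Ideal.relNorm_map_algEquiv D.s I.1
  rw [map_mul, map_mul, hNs, Ideal.relNorm_singleton, Ideal.relNorm_singleton] at hN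
  have hN0 : Ideal.relNorm K[X] I.1 ≠ 0 := by
    rw [Ne, Ideal.zero_eq_bot, Ideal.relNorm_eq_bot_iff]; exact hI0
  have hN1 := mul_right_cancel₀ hN0 hN
  rw [Ideal.span_singleton_eq_span_singleton] at hN1
  obtain ⟨v, hv⟩ := hN1
  obtain ⟨w, hw0, hw⟩ := Polynomial.isUnit_iff.1 v.isUnit
  have hw0' := hw0.ne_zero
  have hfg : fp ℓ t = (X - C (-1)) * (X ^ (ℓ - 1) * (X + C t)) := by
    unfold fp; rw [C_neg, C_1]; ring
  have hg : (X ^ (ℓ - 1) * (X + C t)).eval (-1) ≠ 0 := by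
    rw [eval_mul, eval_pow, eval_X, eval_add, eval_X, eval_C]
    refine mul_ne_zero (pow_ne_zero _ (neg_ne_zero.2 one_ne_zero)) ?_
    intro h0
    exact ht (by linear_combination h0)
  obtain ⟨κ, hκ, hκ2⟩ := D.norm_quot hfg hg hx hz (c₁ := C w) (c₂ := 1) (by simpa using hw0')
    (by simp) (by rw [hw, hv, mul_one])
  rw [eval_C, eval_one] at hκ2
  -- N(x) = N(κ z)
  set z' : B := algebraMap K[X] B (C κ) * z with hz'
  have hκB : IsUnit (algebraMap K[X] B (C κ)) := (isUnit_C.2 (isUnit_iff_ne_zero.2 hκ)).map _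
  have hz'0 : z' ≠ 0 := mul_ne_zero hκB.ne_zero hz
  have hNeq : Algebra.intNorm K[X] B x = Algebra.intNorm K[X] B z' := by
    rw [hz', map_mul, D.norm_algebraMap, ← hv, ← hw, ← C_pow]
    have : C (κ ^ ℓ) * C w = (1 : K[X]) := by rw [← C_mul, mul_comm, hκ2, C_1]
    linear_combination (-(Algebra.intNorm K[X] B x)) * this
  have hxF : algebraMap B F x ≠ 0 := fun h0 => hx (D.inj_BF (by rw [h0, map_zero]))
  have hzF : algebraMap B F z' ≠ 0 := fun h0 => hz'0 (D.inj_BF (by rw [h0, map_zero]))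
  have hnorm : ∀ b : B, Algebra.norm L (algebraMap B F b) =
      algebraMap K[X] L (Algebra.intNorm K[X] B b) := by
    have : IsLocalization (Algebra.algebraMapSubmonoid B (nonZeroDivisors K[X])) F :=
      IsIntegralClosure.isLocalization K[X] L F B
    intro b
    exact (Algebra.algebraMap_intNorm (A := K[X]) (K := L) (L := F) (B := B) b).symm
  have hφ : Algebra.norm L (algebraMap B F z' / algebraMap B F x) = 1 := by
    rw [div_eq_mul_inv, map_mul, Algebra.norm_inv, hnorm, hnorm, hNeq, mul_inv_cancel₀]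
    rw [← hNeq, ← hnorm]
    exact (Algebra.norm_ne_zero_iff).2 hxF
  have hcyc : IsCyclic (F ≃ₐ[L] F) := ⟨⟨D.σ, D.hgen⟩⟩
  obtain ⟨ε, hε⟩ := groupCohomology.exists_div_of_norm_eq_one D.hgen hφ
  -- ε = p / q
  have hloc : IsLocalization (Algebra.algebraMapSubmonoid B (nonZeroDivisors K[X])) F :=
    IsIntegralClosure.isLocalization K[X] L F B
  obtain ⟨p, ⟨q, hq⟩, hpq⟩ := IsLocalization.exists_mk'_eq
    (Algebra.algebraMapSubmonoid B (nonZeroDivisors K[X])) (ε : F)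
  obtain ⟨q₀, hq₀, rfl⟩ := hq
  have hq₀' : q₀ ≠ 0 := nonZeroDivisors.ne_zero hq₀
  have hqF : algebraMap B F (algebraMap K[X] B q₀) ≠ 0 := fun h0 =>
    hq₀' (D.inj_AB (D.inj_BF (by rw [h0, map_zero, map_zero])))
  have hpq2 : (ε : F) * algebraMap B F (algebraMap K[X] B q₀) = algebraMap B F p := by
    rw [← hpq]
    exact IsLocalization.mk'_spec F p _
  have hσq : D.σ (algebraMap B F (algebraMap K[X] B q₀)) =
      algebraMap B F (algebraMap K[X] B q₀) := by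
    rw [← D.hs, AlgEquiv.commutes]
  have hσε : D.σ (ε : F) ≠ 0 := (_root_.map_ne_zero _).2 ε.ne_zero
  have hspz : Ideal.span {z'} = Ideal.span {z} := by
    rw [hz', Ideal.span_singleton_mul_left_unit hκB]
  clear_value z'
  have hrel : z' * D.s p = x * p := by
    apply D.inj_BF
    rw [map_mul, map_mul, D.hs, ← hpq2, map_mul D.σ, hσq]
    have h1 : (ε : F) / D.σ (ε : F) = algebraMap B F z' / algebraMap B F x := hε
    rw [div_eq_div_iff hσε hxF] at h1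
    linear_combination (-(algebraMap B F (algebraMap K[X] B q₀))) * h1
  have hp0 : p ≠ 0 := by
    intro h0
    rw [h0, map_zero] at hpq2
    rcases mul_eq_zero.1 hpq2 with h1 | h1
    · exact ε.ne_zero h1
    · exact hqF h1
  have hJ0 : Ideal.span {p} * I.1 ∈ (Ideal B)⁰ := by
    rw [mem_nonZeroDivisors_iff_ne_zero]
    refine mul_ne_zero ?_ ?_
    · rw [Ne, Ideal.zero_eq_bot, Ideal.span_singleton_eq_bot]; exact hp0
    · rw [Ne, Ideal.zero_eq_bot]; exact hI0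
  refine ⟨⟨Ideal.span {p} * I.1, hJ0⟩, ?_, ?_⟩
  · rw [ClassGroup.mk0_eq_mk0_iff]
    exact ⟨1, p, one_ne_zero, hp0, by rw [Ideal.span_singleton_one, Ideal.top_mul]⟩
  · show (Ideal.span {p} * I.1).map (D.sr : B →+* B) = Ideal.span {p} * I.1
    have hx0 : Ideal.span {x} ≠ 0 := by
      rw [Ne, Ideal.zero_eq_bot, Ideal.span_singleton_eq_bot]; exact hx
    apply mul_left_cancel₀ hx0
    rw [Ideal.map_mul, Ideal.map_span, Set.image_singleton]
    have e1 : (D.sr : B →+* B) p = D.s p := rfl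
    rw [e1, mul_left_comm, h', ← mul_assoc, ← mul_assoc, ← hspz,
      Ideal.span_singleton_mul_span_singleton, Ideal.span_singleton_mul_span_singleton,
      mul_comm (D.s p), hrel]

/-- at most `ℓ ^ 2` classes are fixed -/
theorem card_fixed (ht : t ≠ 1) : Finite {c : ClassGroup B // clMap D.sr c = c} ∧
    Nat.card {c : ClassGroup B // clMap D.sr c = c} ≤ ℓ ^ 2 := by
  classical
  have hpos := D.hp.pos
  haveI : NeZero ℓ := ⟨D.hp.ne_zero⟩
  have key : ∀ c : {c : ClassGroup B // clMap D.sr c = c},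
      ∃ (J : (Ideal B)⁰) (a : K[X]) (u : K) (g : K[X]) (e₀ e₁ e₂ : ℕ), ClassGroup.mk0 J = c.1 ∧
        J.1 ^ ℓ = Ideal.span {algebraMap K[X] B a} ∧ u ≠ 0 ∧ g ≠ 0 ∧
        a = C u * g ^ ℓ * X ^ e₀ * (X + 1) ^ e₁ * (X + C t) ^ e₂ := by
    intro c
    obtain ⟨J, hJ, hJs⟩ := D.exists_stable ht c.2
    have hJ0 : J.1 ≠ ⊥ := by
      have := nonZeroDivisors.ne_zero J.2
      rwa [Ideal.zero_eq_bot] at this
    obtain ⟨a, ha0, ha, hdiv⟩ := D.stable_gen hJ0 hJs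
    have h2 := D.hp.two_le
    obtain ⟨u, g, e₀, e₁, e₂, hu, hg, e⟩ := Div.factor hpos ha0 hdiv (by omega : 0 < ℓ - 1)
    exact ⟨J, a, u, g, e₀, e₁, e₂, hJ, ha, hu, hg, e⟩
  choose J a u g e₀ e₁ e₂ hJ ha hu hg he using key
  set φ : {c : ClassGroup B // clMap D.sr c = c} → ZMod ℓ × ZMod ℓ := fun c =>
    (((e₀ c + e₁ c : ℕ) : ZMod ℓ), ((e₂ c : ℕ) : ZMod ℓ) - (e₁ c : ℕ)) with hφ
  have hinj : Function.Injective φ := by
    intro c c' h
    simp only [hφ, Prod.mk.injEq] at h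
    obtain ⟨h1, h2⟩ := h
    apply Subtype.ext
    rw [← hJ c, ← hJ c']
    refine D.same_class (ha c) (ha c') (hu c) (hu c') (hg c) (hg c') (he c) (he c') h1 ?_
    push_cast
    linear_combination h2
  have hfin : Finite {c : ClassGroup B // clMap D.sr c = c} := Finite.of_injective φ hinj
  refine ⟨hfin, ?_⟩
  have h1 := Nat.card_le_card_of_injective φ hinj
  rw [Nat.card_prod, Nat.card_zmod] at h1
  rwa [pow_two]

end

end Cov

end Pool.Agent.TH958.SJ
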