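import Mathlib

set_option autoImplicit false
set_option linter.all false
set_option maxHeartbeats 1000000

/-!
The action of automorphisms on the class group of a Dedekind domain.
-/

open scoped nonZeroDivisors

namespace Pool.Agent.TH958.SJ

variable {B : Type} [CommRing B] [IsDedekindDomain B]

section two
variable {B' : Type} [CommRing B'] [IsDedekindDomain B']

lemma map_ne_zero' (s : B ≃+* B') (I : (Ideal B)⁰) : I.1.map (s : B →+* B') ∈ (Ideal B')⁰ := by
  rw [mem_nonZeroDivisors_iff_ne_zero]
  intro h
  have h1 := (Ideal.map_eq_bot_iff_of_injective (f := (s : B →+* B')) s.injective).1 h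
  exact nonZeroDivisors.ne_zero I.2 h1

/-- the action of an isomorphism on the nonzero ideals -/
noncomputable def mapI (s : B ≃+* B') (I : (Ideal B)⁰) : (Ideal B')⁰ :=
  ⟨I.1.map (s : B →+* B'), map_ne_zero' s I⟩

/-- the action of an isomorphism on the class group -/
noncomputable def clMap (s : B ≃+* B') : ClassGroup B →* ClassGroup B' :=
  letI := (s : B →+* B').toAlgebra
  haveI : Module.IsTorsionFree B B' := by
    rw [Module.isTorsionFree_iff_algebraMap_injective]
    exact s.injective
  ClassGroup.extendedHom B B'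

lemma clMap_mk0 (s : B ≃+* B') (I : (Ideal B)⁰) :
    clMap s (ClassGroup.mk0 I) = ClassGroup.mk0 (mapI s I) := by
  letI := (s : B →+* B').toAlgebra
  haveI : Module.IsTorsionFree B B' := by
    rw [Module.isTorsionFree_iff_algebraMap_injective]
    exact s.injective
  exact ClassGroup.extendedHom_mk0 B B' I

end two

/-- In a Dedekind domain the `n`-th powers of generators generate the `n`-th power. -/
lemma span_pow_eq (S : Set B) {n : ℕ} (hn : 0 < n) :
    Ideal.span ((fun s : B => s ^ n) '' S) = (Ideal.span S) ^ n := by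
  classical
  by_cases hI : Ideal.span S = ⊥
  · rw [hI, ← Ideal.zero_eq_bot, zero_pow hn.ne', Ideal.zero_eq_bot, Ideal.span_eq_bot]
    rintro _ ⟨s, hs, rfl⟩
    have := (Ideal.span_eq_bot.1 hI) s hs
    simp only [this, zero_pow hn.ne']
  · have h1 : ∀ s : S, ∃ T : Ideal B, Ideal.span {(s : B)} = Ideal.span S * T := by
      intro s
      have : Ideal.span {(s : B)} ≤ Ideal.span S := by
        rw [Ideal.span_singleton_le_iff_mem]
        exact Ideal.subset_span s.2
      exact Ideal.dvd_iff_le.2 this
    choose T hT using h1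
    have h2 : Ideal.span S = Ideal.span S * ⨆ s, T s := by
      rw [Ideal.mul_iSup]
      conv_lhs => rw [Ideal.span, Submodule.span_eq_iSup_of_singleton_spans]
      rw [iSup_subtype']
      exact iSup_congr fun s => hT s
    have h3 : ⨆ s, T s = ⊤ := by
      have : Ideal.span S * (⨆ s, T s) = Ideal.span S * ⊤ := by
        rw [← h2, Ideal.mul_top]
      exact mul_left_cancel₀ (by rwa [Ne, Submodule.zero_eq_bot]) this
    have h4 : ⨆ s, (T s) ^ n = ⊤ := by
      by_contra hne
      obtain ⟨m, hm, hle⟩ := Ideal.exists_le_maximal _ hne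
      have : ⨆ s, T s ≤ m := iSup_le fun s =>
        Ideal.IsPrime.le_of_pow_le ((le_iSup (fun s => (T s) ^ n) s).trans hle)
      rw [h3] at this
      exact hm.ne_top (top_le_iff.1 this)
    have h5 : Ideal.span ((fun s : B => s ^ n) '' S) = ⨆ s : S, Ideal.span {(s : B)} ^ n := by
      rw [Ideal.span, Submodule.span_eq_iSup_of_singleton_spans, iSup_image, iSup_subtype']
      exact iSup_congr fun s => (Ideal.span_singleton_pow _ _).symm
    rw [h5]
    have h6 : ∀ s : S, Ideal.span {(s : B)} ^ n = Ideal.span S ^ n * T s ^ n := by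
      intro s; rw [hT s, mul_pow]
    rw [iSup_congr h6, ← Ideal.mul_iSup, h4, Ideal.mul_top]

lemma ideal_pow_inj {I J : Ideal B} {n : ℕ} (hn : n ≠ 0) (h : I ^ n = J ^ n) : I = J := by
  apply dvd_antisymm
  · exact (UniqueFactorizationMonoid.pow_dvd_pow_iff_dvd hn).1 h.dvd
  · exact (UniqueFactorizationMonoid.pow_dvd_pow_iff_dvd hn).1 h.symm.dvd

end Pool.Agent.TH958.SJ
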