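import Mathlib

set_option autoImplicit false
set_option linter.all false
set_option maxHeartbeats 1000000

/-!
Counting points on the fibres of a superelliptic surface over finite fields, modulo powers of `ℓ`.
-/

open Polynomial

namespace Pool.Agent.TH958.SJ.Cnt

variable {k : Type} [Field k] [Finite k] {L : Type} [Field L] [Fintype L] [DecidableEq L]
  [Algebra k L]

/-- roots of an irreducible polynomial -/
lemma card_roots {g : k[X]} (hg : Irreducible g) :
    (Finset.univ.filter (fun u : L => aeval u g = 0)).card =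
      if g.natDegree ∣ Module.finrank k L then g.natDegree else 0 := by
  haveI : Finite L := inferInstance
  have hcard : Nat.card L = Nat.card k ^ Module.finrank k L := Module.natCard_eq_pow_finrank
  have hL : ∀ u : L, aeval u (X ^ (Nat.card k) ^ Module.finrank k L - X : k[X]) = 0 := by
    intro u
    rw [map_sub, map_pow, aeval_X, ← hcard, Nat.card_eq_fintype_card, FiniteField.pow_card, sub_self]
  split_ifs with hd
  · have hdvd := (hg.natDegree_dvd_iff_dvd_X_pow_card_pow_sub_X).1 hd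
    have hsplit : (g.map (algebraMap k L)).Splits := by
      refine Splits.of_dvd (g := (X ^ (Nat.card k) ^ Module.finrank k L - X : k[X]).map
        (algebraMap k L)) ?_ ?_ (map_dvd (mapRingHom (algebraMap k L)) hdvd)
      · have h := (FiniteField.isSplittingField_sub L k).splits'
        rw [← Nat.card_eq_fintype_card, hcard] at h
        exact h
      · rw [Polynomial.map_sub, Polynomial.map_pow, map_X, ← hcard, Nat.card_eq_fintype_card]
        exact FiniteField.X_pow_card_sub_X_ne_zero L Fintype.one_lt_card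
    have hsep : g.Separable := PerfectField.separable_of_irreducible hg
    have h1 := card_rootSet_eq_natDegree hsep hsplit
    rw [← h1, ← Set.toFinset_card]
    congr 1
    ext u
    rw [Finset.mem_filter, Set.mem_toFinset, mem_rootSet]
    exact ⟨fun h => ⟨hg.ne_zero, h.2⟩, fun h => ⟨Finset.mem_univ _, h.2⟩⟩
  · rw [Finset.card_eq_zero, Finset.filter_eq_empty_iff]
    intro u _ hu
    apply hd
    rw [hg.natDegree_dvd_iff_dvd_X_pow_card_pow_sub_X]
    exact (hg.dvd_iff_aeval_eq_zero hu).1 (hL u)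

/-- the `ℓ`-th powers in a cyclic group -/
lemma exists_root_of_pow {ℓ : ℕ} (hℓ : ℓ.Prime) (hd : ℓ ∣ Nat.card L - 1) {F : L} (hF : F ≠ 0)
    (h : F ^ ((Nat.card L - 1) / ℓ) = 1) : ∃ b : L, b ^ ℓ = F := by
  obtain ⟨r, hr⟩ := hd
  have hr' : (Nat.card L - 1) / ℓ = r := by rw [hr, Nat.mul_div_cancel_left _ hℓ.pos]
  rw [hr'] at h
  have hcu : Nat.card Lˣ = Nat.card L - 1 := Nat.card_units L
  have hpos : 0 < Nat.card L - 1 := by
    rw [← hcu]; exact Nat.card_pos
  have hr0 : 0 < r := by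
    rcases Nat.eq_zero_or_pos r with h0 | h0
    · rw [h0, mul_zero] at hr; omega
    · exact h0
  obtain ⟨g, hg⟩ := IsCyclic.exists_generator (α := Lˣ)
  have hord : orderOf g = Nat.card L - 1 := by
    rw [orderOf_eq_card_of_forall_mem_zpowers hg, hcu]
  obtain ⟨j, hj⟩ := mem_powers_iff_mem_zpowers.2 (hg (Units.mk0 F hF))
  have hj' : g ^ j = Units.mk0 F hF := hj
  have h1 : g ^ (j * r) = 1 := by
    rw [pow_mul, hj']
    apply Units.ext
    rw [Units.val_pow_eq_pow_val, Units.val_mk0, h, Units.val_one]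
  have h2 := orderOf_dvd_of_pow_eq_one h1
  rw [hord, hr] at h2
  have h3 : ℓ ∣ j := Nat.dvd_of_mul_dvd_mul_right hr0 h2
  obtain ⟨i, hi⟩ := h3
  refine ⟨((g ^ i : Lˣ) : L), ?_⟩
  rw [← Units.val_pow_eq_pow_val, ← pow_mul, mul_comm i ℓ, ← hi, hj', Units.val_mk0]

/-- elements fixed by an automorphism of order divisible by `ℓ` are `ℓ`-th powers -/
lemma exists_root_of_fixed {ℓ : ℕ} (hℓ : ℓ.Prime) (hq : (Nat.card k : ZMod ℓ) = 1)
    (τ : L ≃ₐ[k] L) (hord : ℓ ∣ orderOf τ) {F : L} (hF : F ≠ 0) (h : τ F = F) :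
    ∃ b : L, b ^ ℓ = F := by
  haveI : Fact ℓ.Prime := ⟨hℓ⟩
  set E := IntermediateField.fixedField (Subgroup.zpowers τ) with hE
  have h1 : Module.finrank E L = orderOf τ := by
    rw [IntermediateField.finrank_fixedField_eq_card, Nat.card_zpowers]
  have h2 : Nat.card L = Nat.card E ^ orderOf τ := by
    rw [← h1]; exact Module.natCard_eq_pow_finrank
  have h3 : (Nat.card E : ZMod ℓ) = 1 := by
    have : Nat.card E = Nat.card k ^ Module.finrank k E := Module.natCard_eq_pow_finrank
    rw [this, Nat.cast_pow, hq, one_pow]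
  have hmem : F ∈ E := by
    rw [hE, IntermediateField.mem_fixedField_iff]
    intro g hg
    have h4 : τ ∈ MulAction.stabilizer (L ≃ₐ[k] L) F := h
    exact (Subgroup.zpowers_le.2 h4) hg
  have h5 : F ^ (Nat.card E - 1) = 1 := by
    haveI : Fintype E := Fintype.ofFinite E
    have h6 : (⟨F, hmem⟩ : E) ≠ 0 := fun h0 => hF (congrArg Subtype.val h0)
    have h7 := FiniteField.pow_card_sub_one_eq_one (⟨F, hmem⟩ : E) h6
    rw [← Nat.card_eq_fintype_card] at h7
    exact congrArg Subtype.val h7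
  set Q := Nat.card E with hQ
  have hQpos : 1 ≤ Q := Nat.card_pos
  have h8 : Q ^ orderOf τ - 1 = (Q - 1) * ∑ i ∈ Finset.range (orderOf τ), Q ^ i := by
    have h10 := mul_geom_sum (Q : ℤ) (orderOf τ)
    have h11 : 1 ≤ Q ^ orderOf τ := Nat.one_le_pow _ _ hQpos
    zify [hQpos, h11]
    rw [h10]
  have h12 : ℓ ∣ ∑ i ∈ Finset.range (orderOf τ), Q ^ i := by
    rw [← ZMod.natCast_eq_zero_iff, Nat.cast_sum]
    simp only [Nat.cast_pow, h3, one_pow, Finset.sum_const, Finset.card_range, nsmul_eq_mul, mul_one]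
    rwa [ZMod.natCast_eq_zero_iff]
  obtain ⟨c, hc⟩ := h12
  apply exists_root_of_pow hℓ _ hF
  · rw [h2, h8, hc]
    have : (Q - 1) * (ℓ * c) = ℓ * ((Q - 1) * c) := by ring
    rw [this, Nat.mul_div_cancel_left _ hℓ.pos, pow_mul, h5, one_pow]
  · rw [h2, h8, hc]
    exact (dvd_mul_right ℓ c).mul_left _

/-- the number of points where a function commuting with the Galois action is not an `ℓ`-th power -/
lemma dvd_card_nonpowers {ℓ : ℕ} (hℓ : ℓ.Prime) (hq : (Nat.card k : ZMod ℓ) = 1) {v : ℕ}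
    (hv : ℓ ^ v ∣ Module.finrank k L) (f : L → L → L)
    (hf : ∀ (τ : L ≃ₐ[k] L) (u x : L), f (τ u) (τ x) = τ (f u x)) :
    ℓ ^ v ∣ Nat.card {w : L × L // f w.1 w.2 ≠ 0 ∧ ¬ ∃ b, b ^ ℓ = f w.1 w.2} := by
  haveI : Fact ℓ.Prime := ⟨hℓ⟩
  have hG : Nat.card (L ≃ₐ[k] L) = Module.finrank k L := IsGalois.card_aut_eq_finrank k L
  obtain ⟨H, hH⟩ := Sylow.exists_subgroup_card_pow_prime ℓ (G := L ≃ₐ[k] L) (n := v) (by rwa [hG])
  let S : SubMulAction H (L × L) :=
    { carrier := {w | f w.1 w.2 ≠ 0 ∧ ¬ ∃ b, b ^ ℓ = f w.1 w.2}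
      smul_mem' := by
        rintro ⟨τ, hτ⟩ w ⟨h1, h2⟩
        have e : f ((⟨τ, hτ⟩ : H) • w).1 ((⟨τ, hτ⟩ : H) • w).2 = τ (f w.1 w.2) := hf τ w.1 w.2
        refine ⟨?_, ?_⟩
        · rw [e]
          exact (_root_.map_ne_zero τ).2 h1
        · rw [e]
          rintro ⟨b, hb⟩
          apply h2
          refine ⟨τ.symm b, ?_⟩
          rw [← map_pow, hb, AlgEquiv.symm_apply_apply] }
  have hstab : ∀ w : S, MulAction.stabilizer H w = ⊥ := by
    rintro ⟨w, h1, h2⟩
    rw [Subgroup.eq_bot_iff_forall]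
    rintro ⟨τ, hτ⟩ hfix
    by_contra hne
    have hne' : τ ≠ 1 := fun h0 => hne (Subtype.ext h0)
    have hw : (⟨τ, hτ⟩ : H) • w = w := congrArg Subtype.val (MulAction.mem_stabilizer_iff.1 hfix)
    have hw1 : τ w.1 = w.1 := congrArg Prod.fst hw
    have hw2 : τ w.2 = w.2 := congrArg Prod.snd hw
    have ho : orderOf τ ∣ ℓ ^ v := by
      have h3 : orderOf (⟨τ, hτ⟩ : H) ∣ Nat.card H := orderOf_dvd_natCard _
      rw [hH, Subgroup.orderOf_mk] at h3
      exact h3
    have ho2 : ℓ ∣ orderOf τ := by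
      obtain ⟨j, _, hj⟩ := (Nat.dvd_prime_pow hℓ).1 ho
      rcases Nat.eq_zero_or_pos j with h0 | h0
      · rw [h0, pow_zero, orderOf_eq_one_iff] at hj
        exact absurd hj hne'
      · rw [hj]; exact dvd_pow_self _ h0.ne'
    refine h2 (exists_root_of_fixed hℓ hq τ ho2 h1 ?_)
    rw [← hf, hw1, hw2]
  have e := MulAction.selfEquivOrbitsQuotientProd (G := H) (X := S) hstab
  have h5 : Nat.card S = Nat.card (Quotient (MulAction.orbitRel H S)) * ℓ ^ v := by
    rw [Nat.card_congr e, Nat.card_prod, hH]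
  have h6 : Nat.card S = Nat.card {w : L × L // f w.1 w.2 ≠ 0 ∧ ¬ ∃ b, b ^ ℓ = f w.1 w.2} := rfl
  rw [← h6, h5]
  exact dvd_mul_left _ _

/-- the cardinality of the field modulo powers of `ℓ` -/
lemma card_cong {ℓ : ℕ} (hq : (ℓ : ℤ) ∣ Nat.card k - 1) {v : ℕ}
    (hv : ℓ ^ v ∣ Module.finrank k L) : (ℓ : ℤ) ^ (v + 1) ∣ Nat.card L - 1 := by
  have hcard : Nat.card L = Nat.card k ^ Module.finrank k L := Module.natCard_eq_pow_finrank
  obtain ⟨N, hN⟩ := hv
  rw [hcard, hN, mul_comm, pow_mul]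
  push_cast
  have h1 : (ℓ : ℤ) ∣ (Nat.card k : ℤ) ^ N - 1 := by
    have := sub_dvd_pow_sub_pow (Nat.card k : ℤ) 1 N
    rw [one_pow] at this
    exact hq.trans this
  have h2 := dvd_sub_pow_of_dvd_sub h1 v
  rwa [one_pow] at h2

/-- the number of `ℓ`-th roots -/
lemma card_roots_pow {ℓ : ℕ} (hℓ : 0 < ℓ) {ζ : L} (hζ : IsPrimitiveRoot ζ ℓ) (F : L)
    [Decidable (∃ b, b ^ ℓ = F)] :
    (Finset.univ.filter (fun y : L => y ^ ℓ = F)).card =
      if F = 0 then 1 else if ∃ b, b ^ ℓ = F then ℓ else 0 := by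
  classical
  split_ifs with h0 h1
  · rw [Finset.card_eq_one]
    refine ⟨0, ?_⟩
    ext y
    rw [Finset.mem_filter, Finset.mem_singleton, h0, pow_eq_zero_iff hℓ.ne']
    simp
  · have h2 := hζ.card_nthRoots F
    rw [if_pos h1] at h2
    have h3 : Finset.univ.filter (fun y : L => y ^ ℓ = F) = (nthRoots ℓ F).toFinset := by
      ext y
      rw [Finset.mem_filter, Multiset.mem_toFinset, mem_nthRoots hℓ]
      simp
    rw [h3, Multiset.toFinset_card_of_nodup (hζ.nthRoots_nodup h0), h2]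
  · rw [Finset.card_eq_zero, Finset.filter_eq_empty_iff]
    intro y _ hy
    exact h1 ⟨y, hy⟩

/-- the equation of the fibres -/
noncomputable def fL (ℓ d : ℕ) (h : k[X]) (u x : L) : L :=
  x ^ (ℓ - 1) * (x + 1) * (x + (aeval u h) ^ d)

omit [Finite k] [Fintype L] [DecidableEq L] in
lemma fL_eq (ℓ d : ℕ) (h : k[X]) (τ : L ≃ₐ[k] L) (u x : L) :
    fL ℓ d h (τ u) (τ x) = τ (fL ℓ d h u x) := by
  unfold fL
  have : aeval (τ u) h = τ (aeval u h) := aeval_algHom_apply (τ : L →ₐ[k] L) u h
  rw [this]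
  simp only [map_mul, map_pow, map_add, map_one]

/-- the points with nonzero value -/
lemma card_ne {ℓ d : ℕ} (hℓ : 2 ≤ ℓ) (h : k[X]) :
    (((Finset.univ : Finset (L × L)).filter (fun w => fL ℓ d h w.1 w.2 ≠ 0)).card : ℤ) =
      (Fintype.card L : ℤ) ^ 2 - 3 * Fintype.card L +
        (Finset.univ.filter (fun u : L => (aeval u h) ^ d = 0)).card +
        (Finset.univ.filter (fun u : L => (aeval u h) ^ d = 1)).card := by
  have h1 : ∀ u : L, (((Finset.univ : Finset L).filter (fun x => fL ℓ d h u x ≠ 0)).card : ℤ) =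
      (Fintype.card L : ℤ) - 3 + (if (aeval u h) ^ d = 0 then 1 else 0) +
        (if (aeval u h) ^ d = 1 then 1 else 0) := by
    intro u
    set t := (aeval u h) ^ d with ht
    have hfl : ∀ x, fL ℓ d h u x = 0 ↔ x ∈ ({0, -1, -t} : Finset L) := by
      intro x
      unfold fL
      rw [mul_eq_zero, mul_eq_zero, pow_eq_zero_iff (by omega), ← ht, or_assoc]
      simp only [Finset.mem_insert, Finset.mem_singleton, add_eq_zero_iff_eq_neg]
    have h2 : (Finset.univ : Finset L).filter (fun x => fL ℓ d h u x ≠ 0) =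
        Finset.univ \ {0, -1, -t} := by
      ext x
      rw [Finset.mem_filter, Finset.mem_sdiff, Ne, hfl]
    rw [h2, Finset.card_sdiff_of_subset (Finset.subset_univ _), Finset.card_univ,
      Nat.cast_sub (Finset.card_le_univ _)]
    have h3 : (({0, -1, -t} : Finset L).card : ℤ) =
        3 - (if t = 0 then 1 else 0) - (if t = 1 then 1 else 0) := by
      have hne : (0 : L) ≠ -1 := (neg_ne_zero.2 one_ne_zero).symm
      by_cases t0 : t = 0
      · rw [if_pos t0, if_neg (by rw [t0]; exact zero_ne_one), t0, neg_zero]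
        have : ({0, -1, 0} : Finset L) = {0, -1} := by
          ext x; simp only [Finset.mem_insert, Finset.mem_singleton]; tauto
        rw [this, Finset.card_pair hne]; norm_num
      · by_cases t1 : t = 1
        · rw [if_neg t0, if_pos t1, t1]
          have : ({0, -1, -1} : Finset L) = {0, -1} := by
            ext x; simp only [Finset.mem_insert, Finset.mem_singleton]; tauto
          rw [this, Finset.card_pair hne]; norm_num
        · rw [if_neg t0, if_neg t1, Finset.card_insert_of_notMem, Finset.card_pair]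
          · norm_num
          · intro h0; exact t1 (neg_injective h0).symm
          · simp only [Finset.mem_insert, Finset.mem_singleton, not_or]
            exact ⟨hne, fun h0 => t0 (neg_eq_zero.1 h0.symm)⟩
    rw [h3]; ring
  have h4 : (((Finset.univ : Finset (L × L)).filter (fun w => fL ℓ d h w.1 w.2 ≠ 0)).card : ℤ) =
      ∑ u : L, (((Finset.univ : Finset L).filter (fun x => fL ℓ d h u x ≠ 0)).card : ℤ) := by
    simp only [Finset.card_filter]
    push_cast
    rw [← Finset.univ_product_univ, Finset.sum_product]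
  rw [h4, Finset.sum_congr rfl fun u _ => h1 u]
  rw [Finset.sum_add_distrib, Finset.sum_add_distrib, Finset.sum_const, Finset.card_univ,
    Finset.card_filter, Finset.card_filter]
  push_cast
  rw [nsmul_eq_mul]
  ring

/-- the number of `u` with `h(u) ^ d = 1` -/
lemma card_one {d : ℕ} (hd : 0 < d) {ω : k} (hω : IsPrimitiveRoot ω d) {h : k[X]}
    (hirr : ∀ z : k, z ^ d = 1 → Irreducible (h - C z)) :
    (Finset.univ.filter (fun u : L => (aeval u h) ^ d = 1)).card =
      d * (if h.natDegree ∣ Module.finrank k L then h.natDegree else 0) := by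
  classical
  have h1 : Finset.univ.filter (fun u : L => (aeval u h) ^ d = 1) =
      (nthRootsFinset d (1 : k)).biUnion (fun z => Finset.univ.filter
        (fun u : L => aeval u (h - C z) = 0)) := by
    ext u
    simp only [Finset.mem_filter, Finset.mem_univ, true_and, Finset.mem_biUnion]
    have e : ∀ z : k, aeval u (h - C z) = 0 ↔ aeval u h = algebraMap k L z := by
      intro z; rw [map_sub, aeval_C, sub_eq_zero]
    constructor
    · intro h2
      have hω' : IsPrimitiveRoot (algebraMap k L ω) d :=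
        hω.map_of_injective (algebraMap k L).injective
      haveI : NeZero d := ⟨hd.ne'⟩
      obtain ⟨i, -, hi⟩ := hω'.eq_pow_of_pow_eq_one h2
      refine ⟨ω ^ i, ?_, ?_⟩
      · rw [mem_nthRootsFinset hd, ← pow_mul, mul_comm, pow_mul, hω.pow_eq_one, one_pow]
      · rw [e, map_pow, hi]
    · rintro ⟨z, hz, hu⟩
      rw [e] at hu
      rw [hu, ← map_pow, (mem_nthRootsFinset hd 1).1 hz, map_one]
  rw [h1, Finset.card_biUnion]
  · rw [Finset.sum_congr rfl fun z hz => (card_roots (L := L)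
      (hirr z ((mem_nthRootsFinset hd 1).1 hz))).trans (by rw [natDegree_sub_C])]
    rw [Finset.sum_const, hω.card_nthRootsFinset, smul_eq_mul]
  · intro z _ w _ hzw
    rw [Function.onFun, Finset.disjoint_left]
    intro u h2 h3
    rw [Finset.mem_filter, map_sub, aeval_C, sub_eq_zero] at h2 h3
    exact hzw ((algebraMap k L).injective (h2.2.symm.trans h3.2))

/-- the main congruence -/
theorem main {ℓ : ℕ} (hℓ : ℓ.Prime) (hq : (ℓ : ℤ) ∣ Nat.card k - 1) {ζ : k}
    (hζ : IsPrimitiveRoot ζ ℓ) {d : ℕ} (hd : 0 < d) {ω : k} (hω : IsPrimitiveRoot ω d) {h : k[X]}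
    (h0 : Irreducible h) (hirr : ∀ z : k, z ^ d = 1 → Irreducible (h - C z)) {v : ℕ}
    (hv : ℓ ^ v ∣ Module.finrank k L) :
    (ℓ : ℤ) ^ (v + 1) ∣ ((Fintype.card L : ℤ) ^ 2 -
      ((Finset.univ : Finset (L × L × L)).filter
        (fun w => w.2.2 ^ ℓ = fL ℓ d h w.1 w.2.1)).card + (ℓ - 1)) -
      (ℓ - 1) * (3 - (d + 1) * (if h.natDegree ∣ Module.finrank k L then h.natDegree else 0 : ℕ)) := by
  classical
  haveI : Fact ℓ.Prime := ⟨hℓ⟩
  have hℓ2 := hℓ.two_le
  set f : L → L → L := fL ℓ d h with hf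
  have hζ' : IsPrimitiveRoot (algebraMap k L ζ) ℓ := hζ.map_of_injective (algebraMap k L).injective
  set Zs := (Finset.univ : Finset (L × L)).filter (fun w => f w.1 w.2 = 0) with hZs
  set As := (Finset.univ : Finset (L × L)).filter (fun w => f w.1 w.2 ≠ 0 ∧ ∃ b, b ^ ℓ = f w.1 w.2)
    with hAs
  set Ws := (Finset.univ : Finset (L × L)).filter (fun w => f w.1 w.2 ≠ 0 ∧ ¬ ∃ b, b ^ ℓ = f w.1 w.2)
    with hWs
  set Us := (Finset.univ : Finset (L × L)).filter (fun w => f w.1 w.2 ≠ 0) with hUs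
  have c1 : ((Finset.univ : Finset (L × L × L)).filter
        (fun w => w.2.2 ^ ℓ = f w.1 w.2.1)).card = Zs.card + ℓ * As.card := by
    have e1 : ((Finset.univ : Finset (L × L × L)).filter
        (fun w => w.2.2 ^ ℓ = f w.1 w.2.1)).card =
        ∑ w : L × L, (Finset.univ.filter (fun y : L => y ^ ℓ = f w.1 w.2)).card := by
      simp only [Finset.card_filter]
      rw [← Finset.univ_product_univ, Finset.sum_product, ← Finset.univ_product_univ,
        Finset.sum_product]
      refine Finset.sum_congr rfl fun u _ => ?_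
      rw [Finset.sum_product]
    rw [e1, Finset.sum_congr rfl fun w _ => card_roots_pow hℓ.pos hζ' (f w.1 w.2)]
    rw [hZs, hAs, Finset.card_filter, Finset.card_filter, Finset.mul_sum, ← Finset.sum_add_distrib]
    refine Finset.sum_congr rfl fun w _ => ?_
    by_cases h1 : f w.1 w.2 = 0
    · simp [h1]
    · by_cases h2 : ∃ b, b ^ ℓ = f w.1 w.2
      · simp [h1, h2]
      · simp [h1, h2]
  have c2 : Fintype.card L ^ 2 = Zs.card + Us.card := by
    have : Fintype.card L ^ 2 = (Finset.univ : Finset (L × L)).card := by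
      rw [Finset.card_univ, Fintype.card_prod, pow_two]
    rw [this, hZs, hUs]
    exact (Finset.card_filter_add_card_filter_not _).symm
  have c3 : Us.card = As.card + Ws.card := by
    have e1 : As = Us.filter (fun w => ∃ b, b ^ ℓ = f w.1 w.2) := by
      rw [hAs, hUs, Finset.filter_filter]
    have e2 : Ws = Us.filter (fun w => ¬ ∃ b, b ^ ℓ = f w.1 w.2) := by
      rw [hWs, hUs, Finset.filter_filter]
    rw [e1, e2]
    exact (Finset.card_filter_add_card_filter_not _).symm
  have c4 : ℓ ^ v ∣ Ws.card := by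
    have h1 := dvd_card_nonpowers hℓ (k := k) (L := L) (by
      have h2 : ((Nat.card k - 1 : ℤ) : ZMod ℓ) = 0 := (ZMod.intCast_zmod_eq_zero_iff_dvd _ _).2 hq
      push_cast at h2
      exact sub_eq_zero.1 h2) hv f (fL_eq ℓ d h)
    rw [Nat.card_eq_fintype_card, Fintype.card_subtype] at h1
    exact h1
  have c5 := card_ne (L := L) (d := d) hℓ2 h
  have c6 : (Finset.univ.filter (fun u : L => (aeval u h) ^ d = 0)).card =
      if h.natDegree ∣ Module.finrank k L then h.natDegree else 0 := by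
    rw [← card_roots (L := L) h0]
    congr 1
    ext u
    rw [Finset.mem_filter, Finset.mem_filter, pow_eq_zero_iff hd.ne']
  have c7 := card_one (L := L) hd hω hirr
  set r : ℕ := if h.natDegree ∣ Module.finrank k L then h.natDegree else 0 with hr
  rw [c6, c7] at c5
  have c8 := card_cong (L := L) hq hv
  rw [Nat.card_eq_fintype_card] at c8
  obtain ⟨e, he⟩ := c4
  obtain ⟨e', he'⟩ := c8
  have c5' : (Us.card : ℤ) = (Fintype.card L : ℤ) ^ 2 - 3 * Fintype.card L + r + d * r := by
    rw [hUs, c5]; push_cast; ring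
  have c2' : (Fintype.card L : ℤ) ^ 2 = Zs.card + Us.card := by exact_mod_cast c2
  have c3' : (Us.card : ℤ) = As.card + Ws.card := by exact_mod_cast c3
  have he2 : (Ws.card : ℤ) = ℓ ^ v * e := by exact_mod_cast he
  rw [c1]
  push_cast
  set Q : ℤ := (Fintype.card L : ℤ) with hQ
  have hQe : Q = 1 + ℓ ^ (v + 1) * e' := by rw [← he']; ring
  -- the value is `ℓ W - (ℓ - 1) (U - 1)`
  have key : Q ^ 2 - (Zs.card + ℓ * As.card) + (ℓ - 1) - (ℓ - 1) * (3 - (d + 1) * (r : ℤ)) =
      ℓ * Ws.card - (ℓ - 1) * (Q ^ 2 - 3 * Q + 2) := by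
    linear_combination c2' + (ℓ : ℤ) * c3' - ((ℓ : ℤ) - 1) * c5'
  rw [key, he2]
  refine ⟨e - (ℓ - 1) * e' * (Q - 2), ?_⟩
  have h9 : Q ^ 2 - 3 * Q + 2 = (Q - 1) * (Q - 2) := by ring
  rw [h9, he']
  ring

end Pool.Agent.TH958.SJ.Cnt
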