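import Pool.Agent.TH958.SJ.Rank

set_option autoImplicit false
set_option linter.all false
set_option maxHeartbeats 1000000

open Polynomial
open scoped nonZeroDivisors

namespace Pool.Agent.TH958.SJ

section

variable {K : Type} [Field K] {L F : Type} [Field L] [Field F]
    [Algebra K[X] L] [Algebra L F] [Algebra K[X] F]
    [IsFractionRing K[X] L] [IsScalarTower K[X] L F]

lemma fp_ne (ℓ : ℕ) (t : K) : fp ℓ t ≠ 0 := by
  unfold fp
  refine mul_ne_zero (mul_ne_zero (pow_ne_zero _ X_ne_zero) ?_) (monic_X_add_C t).ne_zero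
  rw [← C_1]; exact (monic_X_add_C 1).ne_zero

lemma fp_rm (ℓ : ℕ) {t : K} (ht : t ≠ 1) : (fp ℓ t).rootMultiplicity (-1) = 1 := by
  have hfg : fp ℓ t = (X - C (-1)) * (X ^ (ℓ - 1) * (X + C t)) := by
    unfold fp; rw [C_neg, C_1]; ring
  have hg : (X ^ (ℓ - 1) * (X + C t)).eval (-1) ≠ 0 := by
    rw [eval_mul, eval_pow, eval_X, eval_add, eval_X, eval_C]
    refine mul_ne_zero (pow_ne_zero _ (neg_ne_zero.2 one_ne_zero)) ?_
    intro h0
    exact ht (by linear_combination h0)
  have hg0 : (X ^ (ℓ - 1) * (X + C t)) ≠ 0 := by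
    rintro h0
    rw [h0, eval_zero] at hg
    exact hg rfl
  rw [hfg, rootMultiplicity_mul (mul_ne_zero (X_sub_C_ne_zero _) hg0),
    rootMultiplicity_X_sub_C_self, rootMultiplicity_eq_zero hg]

lemma irr {ℓ : ℕ} (hp : ℓ.Prime) {t : K} (ht : t ≠ 1) :
    Irreducible (X ^ ℓ - C (algebraMap K[X] L (fp ℓ t))) := by
  apply X_pow_sub_C_irreducible_of_prime hp
  intro b hb
  have h1 : IsIntegral K[X] b := IsIntegral.of_pow hp.pos (hb ▸ isIntegral_algebraMap)
  obtain ⟨a, rfl⟩ := (IsIntegrallyClosed.isIntegral_iff (R := K[X]) (K := L)).1 h1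
  rw [← map_pow] at hb
  have h2 := IsFractionRing.injective K[X] L hb
  have h3 := congrArg (rootMultiplicity (-1)) h2
  rw [rm_pow, fp_rm ℓ ht] at h3
  have h4 : ℓ ∣ 1 := ⟨_, h3.symm⟩
  exact hp.one_lt.ne' (Nat.dvd_one.1 h4)

theorem exists_cov {ℓ : ℕ} (hp : ℓ.Prime) (hodd : ℓ ≠ 2) (hK : (ℓ : K) ≠ 0) {ζ : K}
    (hζ : IsPrimitiveRoot ζ ℓ) {t : K} (ht : t ≠ 1)
    [IsSplittingField L F (X ^ ℓ - C (algebraMap K[X] L (fp ℓ t)))] :
    FiniteDimensional L F ∧ IsGalois L F ∧
      Nonempty (Cov K L F (integralClosure K[X] F) ℓ (fp ℓ t)) := by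
  classical
  haveI : NeZero ℓ := ⟨hp.ne_zero⟩
  set a : L := algebraMap K[X] L (fp ℓ t) with ha
  have hirr : Irreducible (X ^ ℓ - C a) := irr hp ht
  have hinjKL : Function.Injective ((algebraMap K[X] L).comp (C : K →+* K[X])) :=
    (IsFractionRing.injective K[X] L).comp C_injective
  set ζL : L := algebraMap K[X] L (C ζ) with hζL
  have hζ' : IsPrimitiveRoot ζL ℓ := hζ.map_of_injective hinjKL
  have hne : (primitiveRoots ℓ L).Nonempty := ⟨ζL, (mem_primitiveRoots hp.pos).2 hζ'⟩
  have hfd : FiniteDimensional L F := IsSplittingField.finiteDimensional F (X ^ ℓ - C a)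
  have hgal : IsGalois L F := isGalois_of_isSplittingField_X_pow_sub_C hne hirr F
  refine ⟨hfd, hgal, ?_⟩
  have hfr : Module.finrank L F = ℓ := finrank_of_isSplittingField_X_pow_sub_C hne hirr F
  set α : F := rootOfSplitsXPowSubC (NeZero.pos ℓ) a F with hα
  have hαp : α ^ ℓ = algebraMap L F a := rootOfSplitsXPowSubC_pow a F
  set σ : F ≃ₐ[L] F := (autEquivZmod hirr F hζ').symm (Multiplicative.ofAdd ((1 : ℕ) : ZMod ℓ))
    with hσdef
  have hσα : σ α = ζL • α := by
    have := autEquivZmod_symm_apply_natCast hirr F hαp hζ' 1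
    rw [pow_one] at this
    exact this
  have hcard : Nat.card (F ≃ₐ[L] F) = ℓ := by
    rw [IsGalois.card_aut_eq_finrank, hfr]
  have hα0 : α ≠ 0 := by
    intro h0
    rw [h0, zero_pow hp.ne_zero] at hαp
    have h1 : a ≠ 0 := by
      rw [ha, Ne, map_eq_zero_iff _ (IsFractionRing.injective K[X] L)]
      exact fp_ne ℓ t
    exact h1 ((map_eq_zero_iff _ (algebraMap L F).injective).1 hαp.symm)
  have hσ1 : σ ≠ 1 := by
    intro h1
    rw [h1, AlgEquiv.one_apply, Algebra.smul_def] at hσα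
    have h2 : algebraMap L F ζL = 1 := by
      apply mul_right_cancel₀ hα0
      rw [← hσα, one_mul]
    rw [← map_one (algebraMap L F)] at h2
    exact hζ'.ne_one hp.one_lt ((algebraMap L F).injective h2)
  haveI : Fact ℓ.Prime := ⟨hp⟩
  have hgen : ∀ τ : F ≃ₐ[L] F, τ ∈ Subgroup.zpowers σ := fun τ =>
    mem_zpowers_of_prime_card hcard hσ1
  have hord : σ ^ ℓ = 1 := by
    have := pow_card_eq_one' (x := σ)
    rwa [hcard] at this
  have hsplit : ∀ x, algebraMap K[X] F x = algebraMap L F (algebraMap K[X] L x) := fun x =>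
    IsScalarTower.algebraMap_apply K[X] L F x
  have hαint : IsIntegral K[X] α := by
    apply IsIntegral.of_pow hp.pos
    rw [hαp, ha, ← hsplit]
    exact isIntegral_algebraMap
  set B := integralClosure K[X] F with hB
  set y : B := ⟨α, hαint⟩ with hy
  have hs : ∀ b, algebraMap B F (galRestrict K[X] L F B σ b) = σ (algebraMap B F b) := fun b =>
    algebraMap_galRestrict_apply K[X] σ b
  have hinjBF : Function.Injective (algebraMap B F) := Subtype.val_injective
  refine ⟨⟨ζ, y, σ, galRestrict K[X] L F B σ, hp, hodd, hK, hζ, fp_ne ℓ t, ?_, hs, ?_, ?_, ?_,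
    hgen, hcard⟩⟩
  · apply hinjBF
    rw [map_pow, ← IsScalarTower.algebraMap_apply K[X] B F]
    show α ^ ℓ = _
    rw [hαp, hsplit]
  · apply hinjBF
    rw [hs, Algebra.smul_def, map_mul, ← IsScalarTower.algebraMap_apply K[X] B F]
    show σ α = algebraMap K[X] F (C ζ) * α
    rw [hσα, Algebra.smul_def, hsplit]
  · intro z hz
    have h1 : z ∈ Set.range (algebraMap L F) := by
      rw [IsGalois.mem_range_algebraMap_iff_fixed]
      intro τ
      obtain ⟨n, rfl⟩ := Subgroup.mem_zpowers_iff.1 (hgen τ)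
      have h2 : σ ∈ MulAction.stabilizer (F ≃ₐ[L] F) z := hz
      exact (MulAction.stabilizer (F ≃ₐ[L] F) z).zpow_mem h2 n
    exact h1
  · intro b
    apply hinjBF
    have h1 : ∀ i, algebraMap B F ((galRestrict K[X] L F B σ)^[i] b) =
        (σ ^ i) (algebraMap B F b) := by
      intro i
      induction i with
      | zero => rfl
      | succ n ih =>
        rw [Function.iterate_succ_apply', hs, ih, pow_succ']; rfl
    rw [h1, hord]; rfl

end

end Pool.Agent.TH958.SJ
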