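import Mathlib

set_option autoImplicit false
set_option linter.all false
set_option maxHeartbeats 1000000

/-!
A power series over the integers whose logarithmic derivative satisfies Gauss congruences is
congruent to one.
-/

open PowerSeries

namespace Pool.Agent.TH958.SJ.Dwk

/-- logarithmic derivative -/
def LD (H D : PowerSeries ℤ) : Prop := X * d⁄dX ℤ H = H * D

lemma LD.mul {A B D E : PowerSeries ℤ} (h1 : LD A D) (h2 : LD B E) : LD (A * B) (D + E) := by
  unfold LD at *
  rw [Derivation.leibniz, smul_eq_mul, smul_eq_mul]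
  linear_combination A * h2 + B * h1

lemma LD.one : LD 1 0 := by
  unfold LD
  rw [Derivation.map_one_eq_zero, mul_zero, mul_zero]

lemma LD.pow {A D : PowerSeries ℤ} (h : LD A D) (n : ℕ) : LD (A ^ n) (n * D) := by
  induction n with
  | zero => rw [pow_zero, Nat.cast_zero, zero_mul]; exact LD.one
  | succ n ih =>
    rw [pow_succ]
    have := ih.mul h
    have e : (n : PowerSeries ℤ) * D + D = ((n + 1 : ℕ) : PowerSeries ℤ) * D := by
      push_cast; ring
    rwa [e] at this

lemma LD.inv {A B D : PowerSeries ℤ} (h : LD A D) (hAB : A * B = 1) : LD B (-D) := by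
  unfold LD at *
  have h1 : d⁄dX ℤ (A * B) = 0 := by rw [hAB, Derivation.map_one_eq_zero]
  rw [Derivation.leibniz, smul_eq_mul, smul_eq_mul] at h1
  -- X A B' = - X B A' = - B A D, multiply by B
  linear_combination (B * X) * h1 - (B * B) * h - (X * d⁄dX ℤ B - B * (-D)) * (hAB)

/-- the geometric series `∑ b ^ j X ^ (N j)`, `j ≥ 1` -/
def geo (b : ℤ) (N : ℕ) : PowerSeries ℤ :=
  PowerSeries.mk fun n => if n ≠ 0 ∧ N ∣ n then b ^ (n / N) else 0

lemma geo_spec (b : ℤ) {N : ℕ} (hN : 0 < N) :
    (1 - (C b : PowerSeries ℤ) * X ^ N) * geo b N = C b * X ^ N := by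
  ext n
  rw [sub_mul, one_mul, map_sub, mul_assoc, coeff_C_mul, coeff_C_mul, coeff_X_pow_mul', coeff_X_pow,
    geo, coeff_mk, coeff_mk]
  by_cases h : N ≤ n
  · obtain ⟨m, rfl⟩ := Nat.exists_eq_add_of_le h
    rw [if_pos h, Nat.add_sub_cancel_left]
    have h1 : N ∣ N + m ↔ N ∣ m := by rw [Nat.dvd_add_right (dvd_refl N)]
    have h2 : (N + m) / N = m / N + 1 := by rw [Nat.add_div_left _ hN]
    by_cases h3 : m = 0
    · subst h3
      simp [hN.ne', Nat.div_self hN]
    · by_cases h4 : N ∣ m
      · rw [if_pos ⟨by omega, h1.2 h4⟩, if_pos ⟨h3, h4⟩, h2, if_neg (by omega), pow_succ]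
        ring
      · rw [if_neg (fun h => h4 (h1.1 h.2)), if_neg (fun h => h4 h.2), if_neg (by omega)]
        ring
  · rw [if_neg h, if_neg (by omega : ¬ n = N), if_neg (fun h' => h (Nat.le_of_dvd (by omega) h'.2))]
    ring

lemma LD_geo (b : ℤ) {N : ℕ} (hN : 0 < N) :
    LD (1 - (C b : PowerSeries ℤ) * X ^ N) (-(N * geo b N)) := by
  unfold LD
  have h := geo_spec b hN
  obtain ⟨m, rfl⟩ : ∃ m, N = m + 1 := ⟨N - 1, by omega⟩
  have h1 : d⁄dX ℤ (1 - (C b : PowerSeries ℤ) * X ^ (m + 1)) =
      -(C b * (((m + 1 : ℕ) : PowerSeries ℤ) * X ^ m)) := by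
    rw [map_sub, Derivation.map_one_eq_zero, zero_sub, Derivation.leibniz, derivative_C,
      Derivation.leibniz_pow, derivative_X]
    simp
  rw [h1]
  have h2 : (X : PowerSeries ℤ) * X ^ m = X ^ (m + 1) := by rw [pow_succ']
  linear_combination ((m + 1 : ℕ) : PowerSeries ℤ) * h - (C b * ((m + 1 : ℕ) : PowerSeries ℤ)) * h2

/-- the inverse of `1 - b X ^ N` -/
lemma one_sub_mul (b : ℤ) {N : ℕ} (hN : 0 < N) :
    (1 - (C b : PowerSeries ℤ) * X ^ N) * (1 + geo b N) = 1 := by
  rw [mul_add, geo_spec b hN]; ring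

lemma lt_of_val {ℓ : ℕ} (hℓ : ℓ.Prime) {j : ℕ} (hj : j ≠ 0) : padicValNat ℓ j + 1 ≤ j := by
  have h1 : ℓ ^ padicValNat ℓ j ∣ j := pow_padicValNat_dvd
  have h2 := Nat.le_of_dvd (Nat.pos_of_ne_zero hj) h1
  have h3 : padicValNat ℓ j < ℓ ^ padicValNat ℓ j := Nat.lt_pow_self hℓ.one_lt
  omega

theorem aux {ℓ : ℕ} (hℓ : ℓ.Prime) (K : ℕ) : ∀ (N : ℕ), 1 ≤ N → ∀ H D : PowerSeries ℤ,
    constantCoeff H = 1 → LD H D →
    (∀ n, n ≠ 0 → (ℓ : ℤ) ^ (padicValNat ℓ n + 1) ∣ coeff n D) →
    (∀ n, n ≠ 0 → n < N → coeff n H = 0) → ∀ n, n ≠ 0 → n < N + K → (ℓ : ℤ) ∣ coeff n H := by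
  haveI : Fact ℓ.Prime := ⟨hℓ⟩
  induction K with
  | zero =>
    intro N _ H D _ _ _ hz n hn hlt
    rw [hz n hn (by omega)]; exact dvd_zero _
  | succ K ih =>
    intro N hN H D h0 hLD hD hz n hn hlt
    have hNpos : 0 < N := hN
    -- the coefficient `D_N = N H_N`
    have hc : ∀ m : ℕ, (m : ℤ) * coeff m H = coeff m (H * D) := by
      intro m
      have h1 := congrArg (coeff m) hLD
      rw [← h1]
      cases m with
      | zero => rw [coeff_zero_X_mul]; simp
      | succ m => rw [coeff_succ_X_mul, coeff_derivative]; push_cast; ring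
    have hD0 : coeff 0 D = 0 := by
      have := hc 0
      rw [coeff_mul, Finset.Nat.antidiagonal_zero, Finset.sum_singleton] at this
      simp only [coeff_zero_eq_constantCoeff, h0, one_mul] at this
      rw [coeff_zero_eq_constantCoeff, ← this]; simp
    have hDN : coeff N D = N * coeff N H := by
      rw [hc N, coeff_mul, Finset.sum_eq_single (0, N)]
      · rw [coeff_zero_eq_constantCoeff, h0, one_mul]
      · rintro ⟨i, j⟩ hij hne
        rw [Finset.HasAntidiagonal.mem_antidiagonal] at hij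
        simp only at hij
        by_cases hi : i = 0
        · subst hi
          exact absurd (by rw [zero_add] at hij; rw [hij]) hne
        · by_cases hi2 : i < N
          · rw [hz i hi hi2, zero_mul]
          · have : j = 0 := by omega
            rw [this, hD0, mul_zero]
      · intro h
        exact absurd (Finset.HasAntidiagonal.mem_antidiagonal.2 (zero_add N)) h
    have hdvdN : (ℓ : ℤ) ∣ coeff N H := by
      have h1 := hD N (by omega)
      rw [hDN] at h1
      obtain ⟨N', hN'⟩ : ℓ ^ padicValNat ℓ N ∣ N := pow_padicValNat_dvd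
      have h2 : ¬ ℓ ∣ N' := by
        rintro ⟨c, hc⟩
        have h3 : ℓ ^ (padicValNat ℓ N + 1) ∣ N := ⟨c, by
          rw [pow_succ, mul_assoc, ← hc]; exact hN'⟩
        exact pow_succ_padicValNat_not_dvd (by omega) h3
      set v := padicValNat ℓ N with hv
      have h4 : (N : ℤ) = ℓ ^ v * N' := by exact_mod_cast hN'
      rw [h4, mul_assoc, pow_succ] at h1
      have h5 : (ℓ : ℤ) ∣ N' * coeff N H := by
        have hne : ((ℓ : ℤ) ^ v) ≠ 0 := pow_ne_zero _ (by exact_mod_cast hℓ.ne_zero)
        exact (mul_dvd_mul_iff_left hne).1 h1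
      have hp : Prime (ℓ : ℤ) := Nat.prime_iff_prime_int.1 hℓ
      rcases hp.dvd_or_dvd h5 with h6 | h6
      · exact absurd (by exact_mod_cast h6) h2
      · exact h6
    obtain ⟨b', hb'⟩ := hdvdN
    set b : ℤ := -coeff N H with hb
    have hbb : b = ℓ * (-b') := by rw [hb, hb']; ring
    set E : PowerSeries ℤ := 1 - C b * X ^ N with hE
    set H' : PowerSeries ℤ := H * (1 + geo b N) with hH'
    have hHE : H = E * H' := by
      rw [hH', mul_left_comm, hE, one_sub_mul b hNpos, mul_one]
    have hg0 : constantCoeff (geo b N) = 0 := by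
      rw [← coeff_zero_eq_constantCoeff_apply, geo, coeff_mk]; simp
    have hLE : LD E (-(N * geo b N)) := LD_geo b hNpos
    have hLE' : LD (1 + geo b N) (N * geo b N) := by
      have := hLE.inv (one_sub_mul b hNpos)
      rwa [neg_neg] at this
    have hLD' : LD H' (D + N * geo b N) := hLD.mul hLE'
    have h0' : constantCoeff H' = 1 := by
      rw [hH', map_mul, h0, map_add, map_one, hg0]; ring
    have hD' : ∀ n, n ≠ 0 → (ℓ : ℤ) ^ (padicValNat ℓ n + 1) ∣ coeff n (D + N * geo b N) := by
      intro n hn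
      rw [map_add]
      refine dvd_add (hD n hn) ?_
      have e : (N : PowerSeries ℤ) = C (N : ℤ) := by simp
      rw [e, coeff_C_mul, geo, coeff_mk]
      by_cases h1 : N ∣ n
      · rw [if_pos ⟨hn, h1⟩]
        obtain ⟨j, rfl⟩ := h1
        have hj : j ≠ 0 := by rintro rfl; exact hn (mul_zero N)
        rw [Nat.mul_div_cancel_left _ hNpos, padicValNat.mul (by omega) hj, add_assoc, pow_add]
        refine mul_dvd_mul ?_ ?_
        · have : ℓ ^ padicValNat ℓ N ∣ N := pow_padicValNat_dvd
          exact_mod_cast this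
        · rw [hbb, mul_pow]
          exact (pow_dvd_pow _ (lt_of_val hℓ hj)).mul_right _
      · rw [if_neg (fun h => h1 h.2), mul_zero]; exact dvd_zero _
    have hz' : ∀ n, n ≠ 0 → n < N + 1 → coeff n H' = 0 := by
      intro n hn hlt
      rw [hH', mul_add, mul_one, map_add, coeff_mul]
      have h1 : ∀ p ∈ Finset.HasAntidiagonal.antidiagonal n, coeff p.1 H * coeff p.2 (geo b N) =
          if p = (0, N) then b else 0 := by
        rintro ⟨i, j⟩ hij
        rw [Finset.HasAntidiagonal.mem_antidiagonal] at hij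
        simp only at hij
        have hgeo : coeff j (geo b N) = if j = N then b else 0 := by
          rw [geo, coeff_mk]
          by_cases h2 : j = N
          · subst h2; simp [hn, hNpos.ne', Nat.div_self hNpos]
          · rw [if_neg h2, if_neg]
            rintro ⟨h3, h4⟩
            have := Nat.le_of_dvd (Nat.pos_of_ne_zero h3) h4
            omega
        simp only [hgeo]
        by_cases h2 : j = N
        · have hi : i = 0 := by omega
          subst hi
          rw [if_pos h2, h2, coeff_zero_eq_constantCoeff_apply, h0]; simp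
        · rw [if_neg h2, mul_zero, if_neg]
          intro h3
          exact h2 (congrArg Prod.snd h3)
      rw [Finset.sum_congr rfl h1, Finset.sum_ite_eq']
      by_cases h2 : n = N
      · subst h2
        rw [if_pos (Finset.HasAntidiagonal.mem_antidiagonal.2 (zero_add n)), hb]; ring
      · rw [if_neg, add_zero]
        · exact hz n hn (by omega)
        · rw [Finset.HasAntidiagonal.mem_antidiagonal]
          simp only [zero_add]
          exact fun h => h2 h.symm
    have hrec := ih (N + 1) (by omega) H' _ h0' hLD' hD' hz'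
    rw [hHE, hE, sub_mul, one_mul, map_sub, mul_assoc, coeff_C_mul]
    refine dvd_sub (hrec n hn (by omega)) ?_
    rw [hbb, mul_assoc]
    exact dvd_mul_right _ _

theorem main {ℓ : ℕ} (hℓ : ℓ.Prime) (H D : PowerSeries ℤ) (h0 : constantCoeff H = 1)
    (hLD : LD H D) (hD : ∀ n, n ≠ 0 → (ℓ : ℤ) ^ (padicValNat ℓ n + 1) ∣ coeff n D) :
    ∀ n, n ≠ 0 → (ℓ : ℤ) ∣ coeff n H := by
  intro n hn
  exact aux hℓ n 1 le_rfl H D h0 hLD hD (fun m hm hlt => absurd hlt (by omega)) n hn (by omega)

end Pool.Agent.TH958.SJ.Dwk
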