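import Mathlib

set_option autoImplicit false
set_option linter.all false
set_option maxHeartbeats 1000000

/-!
Cyclic covers `y ^ ℓ = f` of the line: eigenvectors of the covering automorphism.
-/

open Polynomial

namespace Pool.Agent.TH958.SJ

/-- The data of a cyclic cover: `A = K[x]`, `L = K(x)`, `F = L(y)`, `y ^ ℓ = f`, `B` the integral
closure of `A` in `F`, `σ y = ζ y`. -/
structure Cov (K : Type) [Field K] (L F B : Type) [Field L] [Field F] [CommRing B]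
    [Algebra K[X] L] [Algebra L F] [Algebra K[X] F] [Algebra K[X] B] [Algebra B F]
    (ℓ : ℕ) (f : K[X]) where
  /-- the root of unity -/
  ζ : K
  /-- the generator -/
  y : B
  /-- the automorphism of the field -/
  σ : F ≃ₐ[L] F
  /-- the automorphism of the ring -/
  s : B ≃ₐ[K[X]] B
  hp : ℓ.Prime
  hodd : ℓ ≠ 2
  hK : (ℓ : K) ≠ 0
  hζ : IsPrimitiveRoot ζ ℓ
  hf : f ≠ 0
  hy : y ^ ℓ = algebraMap K[X] B f
  hs : ∀ b, algebraMap B F (s b) = σ (algebraMap B F b)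
  hsy : s y = C ζ • y
  hσ : ∀ z : F, σ z = z → ∃ l : L, algebraMap L F l = z
  hord : ∀ b : B, s^[ℓ] b = b
  hgen : ∀ τ : F ≃ₐ[L] F, τ ∈ Subgroup.zpowers σ
  hcard : Nat.card (F ≃ₐ[L] F) = ℓ

variable {K : Type} [Field K] {L F B : Type} [Field L] [Field F] [CommRing B]
    [Algebra K[X] L] [Algebra L F] [Algebra K[X] F] [Algebra K[X] B] [Algebra B F]
    {ℓ : ℕ} {f : K[X]}

namespace Cov

variable (D : Cov K L F B ℓ f)

lemma zpow_ne : D.ζ ≠ 0 := D.hζ.ne_zero D.hp.ne_zero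

/-- the projection onto the `j`-th eigenspace -/
noncomputable def pr (j : ℕ) (b : B) : B :=
  ∑ i ∈ Finset.range ℓ, (C ((ℓ : K)⁻¹ * (D.ζ⁻¹) ^ (i * j)) : K[X]) • (D.s^[i] b)

lemma iter_smul (i : ℕ) (c : K[X]) (b : B) : D.s^[i] (c • b) = c • D.s^[i] b := by
  induction i with
  | zero => rfl
  | succ n ih => rw [Function.iterate_succ_apply', Function.iterate_succ_apply', ih, map_smul]

lemma iter_add (i : ℕ) (b c : B) : D.s^[i] (b + c) = D.s^[i] b + D.s^[i] c := by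
  induction i with
  | zero => rfl
  | succ n ih => rw [Function.iterate_succ_apply', Function.iterate_succ_apply',
      Function.iterate_succ_apply', ih, map_add]

lemma iter_mul (i : ℕ) (b c : B) : D.s^[i] (b * c) = D.s^[i] b * D.s^[i] c := by
  induction i with
  | zero => rfl
  | succ n ih => rw [Function.iterate_succ_apply', Function.iterate_succ_apply',
      Function.iterate_succ_apply', ih, map_mul]

lemma s_pr (j : ℕ) (b : B) : D.s (D.pr j b) = (C (D.ζ ^ j) : K[X]) • D.pr j b := by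
  have hz := D.zpow_ne
  unfold pr
  rw [map_sum, Finset.smul_sum]
  have h1 : ∀ i, D.s ((C ((ℓ : K)⁻¹ * (D.ζ⁻¹) ^ (i * j)) : K[X]) • (D.s^[i] b)) =
      (C (D.ζ ^ j) : K[X]) • (C ((ℓ : K)⁻¹ * (D.ζ⁻¹) ^ ((i + 1) * j)) : K[X]) •
        (D.s^[i + 1] b) := by
    intro i
    rw [map_smul, ← Function.iterate_succ_apply' (D.s) i b, smul_smul, ← C_mul]
    congr 2
    have : D.ζ ^ j * (D.ζ⁻¹) ^ ((i + 1) * j) = (D.ζ⁻¹) ^ (i * j) := by
      rw [add_mul, one_mul, pow_add, inv_pow _ j]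
      field_simp
    rw [mul_left_comm, this]
  rw [Finset.sum_congr rfl fun i _ => h1 i]
  rw [← Finset.smul_sum, ← Finset.smul_sum]
  congr 1
  have h2 := Finset.sum_range_succ' (fun i => (C ((ℓ : K)⁻¹ * (D.ζ⁻¹) ^ (i * j)) : K[X]) •
    (D.s^[i] b)) ℓ
  rw [Finset.sum_range_succ] at h2
  have h3 : (C ((ℓ : K)⁻¹ * (D.ζ⁻¹) ^ (ℓ * j)) : K[X]) • (D.s^[ℓ] b) =
      (C ((ℓ : K)⁻¹ * (D.ζ⁻¹) ^ (0 * j)) : K[X]) • (D.s^[0] b) := by
    rw [D.hord, zero_mul, pow_zero, pow_mul, inv_pow, D.hζ.pow_eq_one]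
    simp
  rw [h3] at h2
  exact (add_right_cancel h2).symm

lemma sum_pr (b : B) : ∑ j ∈ Finset.range ℓ, D.pr j b = b := by
  unfold pr
  rw [Finset.sum_comm]
  have hpos := D.hp.pos
  have h1 : ∀ i ∈ Finset.range ℓ, ∑ j ∈ Finset.range ℓ,
      (C ((ℓ : K)⁻¹ * (D.ζ⁻¹) ^ (i * j)) : K[X]) • (D.s^[i] b) =
      if i = 0 then b else 0 := by
    intro i hi
    rw [← Finset.sum_smul, ← map_sum, ← Finset.mul_sum]
    have h2 : ∑ j ∈ Finset.range ℓ, (D.ζ⁻¹) ^ (i * j) = ∑ j ∈ Finset.range ℓ,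
        ((D.ζ⁻¹) ^ i) ^ j := Finset.sum_congr rfl fun j _ => pow_mul _ _ _
    rw [h2]
    split_ifs with h
    · subst h
      simp only [pow_zero, one_pow, Finset.sum_const, Finset.card_range, nsmul_eq_mul, mul_one]
      rw [inv_mul_cancel₀ D.hK, C_1, one_smul]
      rfl
    · have h3 : IsPrimitiveRoot (D.ζ⁻¹) ℓ := D.hζ.inv
      have h4 : (D.ζ⁻¹) ^ i ≠ 1 := h3.pow_ne_one_of_pos_of_lt h (Finset.mem_range.1 hi)
      have h5 : ∑ j ∈ Finset.range ℓ, ((D.ζ⁻¹) ^ i) ^ j = 0 := by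
        have h6 := mul_neg_geom_sum ((D.ζ⁻¹) ^ i) ℓ
        rw [← pow_mul, mul_comm i ℓ, pow_mul, h3.pow_eq_one, one_pow, sub_self] at h6
        rcases mul_eq_zero.1 h6 with h7 | h7
        · exact absurd (sub_eq_zero.1 h7).symm h4
        · exact h7
      rw [h5, mul_zero, C_0, zero_smul]
  rw [Finset.sum_congr rfl h1, Finset.sum_ite_eq' (Finset.range ℓ) 0]
  rw [if_pos (Finset.mem_range.2 hpos)]

/-- `b` is an eigenvector with eigenvalue `ζ ^ j` -/
def Eig (j : ℕ) (b : B) : Prop := D.s b = (C (D.ζ ^ j) : K[X]) • b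

lemma eig_pr (j : ℕ) (b : B) : D.Eig j (D.pr j b) := D.s_pr j b

lemma Eig.mul {D : Cov K L F B ℓ f} {i j : ℕ} {a b : B} (ha : D.Eig i a) (hb : D.Eig j b) :
    D.Eig (i + j) (a * b) := by
  unfold Eig at *
  rw [map_mul, ha, hb, smul_mul_smul_comm, ← C_mul, ← pow_add]

lemma Eig.pow {D : Cov K L F B ℓ f} {i : ℕ} {a : B} (ha : D.Eig i a) (n : ℕ) :
    D.Eig (n * i) (a ^ n) := by
  unfold Eig at *
  rw [map_pow, ha, _root_.smul_pow, ← C_pow, ← pow_mul, mul_comm i n]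

lemma eig_y : D.Eig 1 D.y := by
  unfold Eig; rw [D.hsy, pow_one]

lemma eig_y_pow (j : ℕ) : D.Eig j (D.y ^ j) := by
  have := (D.eig_y).pow j
  rwa [mul_one] at this

end Cov

end Pool.Agent.TH958.SJ
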