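import Pool.Agent.TH958.SJ.Nrm

set_option autoImplicit false
set_option linter.all false
set_option maxHeartbeats 1000000

open Polynomial

namespace Pool.Agent.TH958.SJ

variable {K : Type} [Field K] {L F B : Type} [Field L] [Field F] [CommRing B]
    [Algebra K[X] L] [Algebra L F] [Algebra K[X] F] [Algebra K[X] B] [Algebra B F]
    {ℓ : ℕ} {f : K[X]} [IsFractionRing K[X] L] [IsScalarTower K[X] L F]
    [IsScalarTower K[X] B F] [IsIntegralClosure B K[X] F] [FiniteDimensional L F] [IsDomain B]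

lemma sum_range_id_dvd {ℓ : ℕ} (hp : ℓ.Prime) (hodd : ℓ ≠ 2) :
    ℓ ∣ ∑ i ∈ Finset.range ℓ, i := by
  rw [Finset.sum_range_id]
  obtain ⟨k, hk⟩ := hp.odd_of_ne_two hodd
  rw [hk, Nat.add_sub_cancel, Nat.mul_div_assoc _ (dvd_mul_right 2 k)]
  exact dvd_mul_right _ _

namespace Cov

variable (D : Cov K L F B ℓ f)

lemma iter_y (i : ℕ) : D.s^[i] D.y = (C (D.ζ ^ i) : K[X]) • D.y := by
  induction i with
  | zero => simp
  | succ n ih =>
    rw [Function.iterate_succ_apply', ih, map_smul, D.hsy, smul_smul, ← C_mul, ← pow_succ]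

lemma iter_eig (i : ℕ) {j : ℕ} {b : B} (h : D.Eig j b) :
    D.s^[i] b = (C (D.ζ ^ (i * j)) : K[X]) • b := by
  induction i with
  | zero => simp
  | succ n ih =>
    unfold Eig at h
    rw [Function.iterate_succ_apply', ih, map_smul, h, smul_smul, ← C_mul, ← pow_add, add_mul,
      one_mul]

lemma iter_sum (i : ℕ) {ι : Type} (s : Finset ι) (g : ι → B) :
    D.s^[i] (∑ k ∈ s, g k) = ∑ k ∈ s, D.s^[i] (g k) := by
  induction i with
  | zero => rfl
  | succ n ih =>
    rw [Function.iterate_succ_apply', ih, map_sum]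
    exact Finset.sum_congr rfl fun k _ => (Function.iterate_succ_apply' _ _ _).symm

section
variable [IsGalois L F] [Module.Finite K[X] B] [Module.IsTorsionFree K[X] B]
    [IsIntegrallyClosed B]

lemma norm_y : Algebra.intNorm K[X] B D.y = f := by
  apply D.inj_AB
  rw [D.norm_prod, ← D.hy]
  rw [Finset.prod_congr rfl fun i _ => D.iter_y i]
  simp only [Algebra.smul_def]
  rw [Finset.prod_mul_distrib, Finset.prod_const, Finset.card_range, ← map_prod, ← map_prod,
    Finset.prod_pow_eq_pow_sum]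
  obtain ⟨k, hk⟩ := sum_range_id_dvd D.hp D.hodd
  rw [hk, pow_mul, D.hζ.pow_eq_one, one_pow, C_1, map_one, one_mul]

include D in
lemma norm_algebraMap (a : K[X]) : Algebra.intNorm K[X] B (algebraMap K[X] B a) = a ^ ℓ := by
  apply D.inj_AB
  rw [D.norm_prod, map_pow]
  have h1 : ∀ i, D.s^[i] (algebraMap K[X] B a) = algebraMap K[X] B a := by
    intro i
    induction i with
    | zero => rfl
    | succ n ih => rw [Function.iterate_succ_apply', ih, AlgEquiv.commutes]
  rw [Finset.prod_congr rfl fun i _ => h1 i, Finset.prod_const, Finset.card_range]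

lemma ev_norm {α : K} (hα : f.rootMultiplicity α = 1) (b : B) {a0 : K[X]}
    (ha0 : algebraMap K[X] B a0 = D.pr 0 b) :
    (Algebra.intNorm K[X] B b).eval α = (a0.eval α) ^ ℓ := by
  have hint : Algebra.IsIntegral K[X] B := IsIntegralClosure.isIntegral_algebra K[X] F
  have hprime : (Ideal.span {(X - C α : K[X])}).IsPrime :=
    (Ideal.span_singleton_prime (X_sub_C_ne_zero α)).2 (prime_X_sub_C α)
  have hker : RingHom.ker (algebraMap K[X] B) ≤ Ideal.span {(X - C α : K[X])} := by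
    rw [(RingHom.injective_iff_ker_eq_bot _).1 D.inj_AB]
    exact bot_le
  obtain ⟨Q, hQ, hQ2⟩ := Ideal.exists_ideal_over_prime_of_isIntegral_of_isDomain
    (Ideal.span {(X - C α : K[X])}) hker
  have hmem : ∀ a : K[X], algebraMap K[X] B a ∈ Q ↔ a.eval α = 0 := by
    intro a
    have h1 : algebraMap K[X] B a ∈ Q ↔ a ∈ Ideal.span {(X - C α : K[X])} := by
      rw [← hQ2]; rfl
    rw [h1, Ideal.mem_span_singleton, dvd_iff_isRoot, IsRoot.def]
  have hpr : ∀ j, ¬ ℓ ∣ j → D.pr j b ∈ Q := by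
    intro j hj
    obtain ⟨a, ha⟩ := D.eig_pow (D.eig_pr j b)
    have h1 := D.root_dvd hj (D.eig_pr j b) ha hα
    refine hQ.mem_of_pow_mem ℓ ?_
    rw [← ha]
    exact (hmem a).2 h1
  have hpos := D.hp.pos
  have hi : ∀ i, Ideal.Quotient.mk Q (D.s^[i] b) = Ideal.Quotient.mk Q (algebraMap K[X] B a0) := by
    intro i
    conv_lhs => rw [← D.sum_pr b]
    rw [D.iter_sum, map_sum, Finset.sum_eq_single 0]
    · rw [D.iter_eig i (D.eig_pr 0 b), mul_zero, pow_zero, C_1, one_smul, ha0]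
    · intro j hj hj0
      rw [D.iter_eig i (D.eig_pr j b), Ideal.Quotient.eq_zero_iff_mem]
      have h2 : ¬ ℓ ∣ j := fun h3 => by
        have := Nat.le_of_dvd (Nat.pos_of_ne_zero hj0) h3
        have := Finset.mem_range.1 hj
        omega
      rw [Algebra.smul_def]
      exact Q.mul_mem_left _ (hpr j h2)
    · intro h
      exact absurd (Finset.mem_range.2 hpos) h
  have h1 : algebraMap K[X] B (Algebra.intNorm K[X] B b - a0 ^ ℓ) ∈ Q := by
    rw [← Ideal.Quotient.eq_zero_iff_mem, map_sub, map_sub, D.norm_prod, map_prod,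
      Finset.prod_congr rfl fun i _ => hi i, Finset.prod_const, Finset.card_range, map_pow, map_pow,
      sub_self]
  have h2 := (hmem _).1 h1
  rw [eval_sub, eval_pow, sub_eq_zero] at h2
  exact h2

lemma descend {α : K} {g : K[X]} (hfg : f = (X - C α) * g)
    (hα : f.rootMultiplicity α = 1) (b : B) {a0 : K[X]}
    (ha0 : algebraMap K[X] B a0 = D.pr 0 b) (h0 : a0.eval α = 0) :
    ∃ b1 : B, b1 * D.y = algebraMap K[X] B g * b := by
  have hyF : algebraMap B F D.y ≠ 0 := by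
    intro h0
    exact D.y_ne (D.inj_BF (by rw [h0, map_zero]))
  have hX : (X - C α : K[X]) ≠ 0 := X_sub_C_ne_zero α
  have hpos := D.hp.pos
  have key : ∀ j, ∃ e : B, e * D.y = algebraMap K[X] B g * D.pr j b ∨ ℓ ≤ j := by
    intro j
    by_cases hjl : ℓ ≤ j
    · exact ⟨0, Or.inr hjl⟩
    by_cases hj : j = 0
    · subst hj
      obtain ⟨a1, ha1⟩ := dvd_iff_isRoot.2 h0
      refine ⟨algebraMap K[X] B a1 * D.y ^ (ℓ - 1), Or.inl ?_⟩
      rw [mul_assoc, ← pow_succ, Nat.sub_add_cancel hpos, D.hy, ← ha0, ha1, hfg]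
      simp only [map_mul]; ring
    · have hjd : ¬ ℓ ∣ j := fun h3 => by
        have := Nat.le_of_dvd (Nat.pos_of_ne_zero hj) h3
        omega
      obtain ⟨a, ha⟩ := D.eig_pow (D.eig_pr j b)
      obtain ⟨a1, ha1⟩ := dvd_iff_isRoot.2 (D.root_dvd hjd (D.eig_pr j b) ha hα)
      set z : F := algebraMap K[X] F g * algebraMap B F (D.pr j b) / algebraMap B F D.y with hz
      have hzint : IsIntegral K[X] z := by
        have h1 : z ^ ℓ = algebraMap K[X] F (g ^ (ℓ - 1) * a1) := by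
          rw [hz, div_pow, mul_pow, ← map_pow, ← map_pow, ← map_pow, ← ha, D.hy,
            ← IsScalarTower.algebraMap_apply, ← IsScalarTower.algebraMap_apply]
          have hff : algebraMap K[X] F f ≠ 0 := by
            rw [IsScalarTower.algebraMap_apply K[X] B F]
            intro h0
            exact D.hf (D.inj_AB (D.inj_BF (by rw [h0, map_zero, map_zero])))
          rw [div_eq_iff hff, ← map_mul, ← map_mul]
          congr 1
          rw [ha1, hfg]
          have : g ^ ℓ = g ^ (ℓ - 1) * g := by rw [← pow_succ, Nat.sub_add_cancel hpos]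
          rw [this]; ring
        exact IsIntegral.of_pow hpos (h1 ▸ isIntegral_algebraMap)
      obtain ⟨e, he⟩ := (IsIntegralClosure.isIntegral_iff (A := B)).1 hzint
      refine ⟨e, Or.inl (D.inj_BF ?_)⟩
      rw [map_mul, he, hz, div_mul_cancel₀ _ hyF, map_mul, ← IsScalarTower.algebraMap_apply]
  choose e he using key
  refine ⟨∑ j ∈ Finset.range ℓ, e j, ?_⟩
  conv_rhs => rw [← D.sum_pr b]
  rw [Finset.sum_mul, Finset.mul_sum]
  refine Finset.sum_congr rfl fun j hj => ?_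
  rcases he j with h | h
  · exact h
  · exact absurd (Finset.mem_range.1 hj) (by omega)

include D in
lemma norm_ne {b : B} (hb : b ≠ 0) : Algebra.intNorm K[X] B b ≠ 0 := by
  intro h
  have h1 := D.norm_prod b
  rw [h, map_zero] at h1
  obtain ⟨i, _, hi⟩ := Finset.prod_eq_zero_iff.1 h1.symm
  have : Function.Injective (D.s^[i]) := D.s.injective.iterate i
  exact hb (this (by rw [hi]; exact (Function.iterate_fixed (map_zero D.s) i).symm))

include D in
/-- the norm of a nonzero element at a root of `f` of multiplicity one -/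
lemma norm_at {α : K} {g : K[X]} (hfg : f = (X - C α) * g) (hg : g.eval α ≠ 0) {b : B}
    (hb : b ≠ 0) : ∃ (k : ℕ) (c : K[X]) (κ : K), κ ≠ 0 ∧ c.eval α = κ ^ ℓ ∧
      Algebra.intNorm K[X] B b * g ^ ((ℓ - 1) * k) = (X - C α) ^ k * c := by
  have hg0 : g ≠ 0 := by rintro rfl; simp at hg
  have hpos := D.hp.pos
  have hα : f.rootMultiplicity α = 1 := by
    rw [hfg, rootMultiplicity_mul (mul_ne_zero (X_sub_C_ne_zero α) hg0),
      rootMultiplicity_X_sub_C_self, rootMultiplicity_eq_zero hg]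
  induction hn : (Algebra.intNorm K[X] B b).rootMultiplicity α using Nat.strong_induction_on
    generalizing b with
  | _ n ih =>
    obtain ⟨a0, ha0⟩ := D.eig_zero (D.eig_pr 0 b)
    have h1 := D.ev_norm hα b ha0
    by_cases h2 : a0.eval α = 0
    · obtain ⟨b1, hb1⟩ := D.descend hfg hα b ha0 h2
      have hb10 : b1 ≠ 0 := by
        rintro rfl
        rw [zero_mul] at hb1
        rcases mul_eq_zero.1 hb1.symm with h3 | h3
        · exact hg0 (D.inj_AB (by rw [h3, map_zero]))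
        · exact hb h3
      have h3 := congrArg (Algebra.intNorm K[X] B) hb1
      rw [map_mul, map_mul, D.norm_y, D.norm_algebraMap] at h3
      have h4 : Algebra.intNorm K[X] B b1 * (X - C α) = g ^ (ℓ - 1) * Algebra.intNorm K[X] B b := by
        have h5 : g ^ ℓ = g * g ^ (ℓ - 1) := by
          rw [← pow_succ', Nat.sub_add_cancel hpos]
        rw [hfg, h5] at h3
        apply mul_left_cancel₀ hg0
        linear_combination h3
      have hn1 := D.norm_ne hb10
      have hn0 := D.norm_ne hb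
      have h6 := congrArg (rootMultiplicity α) h4
      rw [rootMultiplicity_mul (mul_ne_zero hn1 (X_sub_C_ne_zero α)),
        rootMultiplicity_mul (mul_ne_zero (pow_ne_zero _ hg0) hn0),
        rootMultiplicity_X_sub_C_self, rm_pow, rootMultiplicity_eq_zero hg, mul_zero, zero_add,
        hn] at h6
      obtain ⟨k, c, κ, hκ, hc, hk⟩ := ih _ (by omega) hb10 rfl
      refine ⟨k + 1, c, κ, hκ, hc, ?_⟩
      rw [mul_add, mul_one, pow_add, pow_succ]
      have : Algebra.intNorm K[X] B b * (g ^ ((ℓ - 1) * k) * g ^ (ℓ - 1)) =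
          (g ^ (ℓ - 1) * Algebra.intNorm K[X] B b) * g ^ ((ℓ - 1) * k) := by ring
      rw [this, ← h4]
      linear_combination (X - C α) * hk
    · refine ⟨0, Algebra.intNorm K[X] B b, a0.eval α, h2, h1, by simp⟩

include D in
/-- quotients of norms are `ℓ`-th powers at the roots of `f` of multiplicity one -/
lemma norm_quot {α : K} {g : K[X]} (hfg : f = (X - C α) * g) (hg : g.eval α ≠ 0) {b₁ b₂ : B}
    (hb₁ : b₁ ≠ 0) (hb₂ : b₂ ≠ 0) {c₁ c₂ : K[X]} (hc₁ : c₁.eval α ≠ 0) (hc₂ : c₂.eval α ≠ 0)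
    (h : Algebra.intNorm K[X] B b₁ * c₁ = Algebra.intNorm K[X] B b₂ * c₂) :
    ∃ κ : K, κ ≠ 0 ∧ c₁.eval α * κ ^ ℓ = c₂.eval α := by
  obtain ⟨k₁, d₁, κ₁, hκ₁, hd₁, h₁⟩ := D.norm_at hfg hg hb₁
  obtain ⟨k₂, d₂, κ₂, hκ₂, hd₂, h₂⟩ := D.norm_at hfg hg hb₂
  have hg0 : g ≠ 0 := by rintro rfl; simp at hg
  have hX : (X - C α : K[X]) ≠ 0 := X_sub_C_ne_zero α
  have hd10 : d₁.eval α ≠ 0 := by rw [hd₁]; exact pow_ne_zero _ hκ₁
  have hd20 : d₂.eval α ≠ 0 := by rw [hd₂]; exact pow_ne_zero _ hκ₂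
  have ne_of : ∀ p : K[X], p.eval α ≠ 0 → p ≠ 0 := by
    rintro p hp rfl; simp at hp
  have e1 : (X - C α) ^ k₁ * (d₁ * c₁ * g ^ ((ℓ - 1) * k₂)) =
      (X - C α) ^ k₂ * (d₂ * c₂ * g ^ ((ℓ - 1) * k₁)) := by
    linear_combination (-(c₁ * g ^ ((ℓ - 1) * k₂))) * h₁ + (c₂ * g ^ ((ℓ - 1) * k₁)) * h₂ +
      (g ^ ((ℓ - 1) * k₁) * g ^ ((ℓ - 1) * k₂)) * h
  have n1 : (d₁ * c₁ * g ^ ((ℓ - 1) * k₂)).eval α ≠ 0 := by
    rw [eval_mul, eval_mul, eval_pow]
    exact mul_ne_zero (mul_ne_zero hd10 hc₁) (pow_ne_zero _ hg)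
  have n2 : (d₂ * c₂ * g ^ ((ℓ - 1) * k₁)).eval α ≠ 0 := by
    rw [eval_mul, eval_mul, eval_pow]
    exact mul_ne_zero (mul_ne_zero hd20 hc₂) (pow_ne_zero _ hg)
  have e2 := congrArg (rootMultiplicity α) e1
  rw [rootMultiplicity_mul (mul_ne_zero (pow_ne_zero _ hX) (ne_of _ n1)),
    rootMultiplicity_mul (mul_ne_zero (pow_ne_zero _ hX) (ne_of _ n2)), rm_pow, rm_pow,
    rootMultiplicity_X_sub_C_self, rootMultiplicity_eq_zero n1, rootMultiplicity_eq_zero n2] at e2
  have hk : k₁ = k₂ := by omega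
  subst hk
  have e3 := mul_left_cancel₀ (pow_ne_zero _ hX) e1
  have e4 := congrArg (eval α) e3
  simp only [eval_mul, eval_pow] at e4
  have e5 := mul_right_cancel₀ (pow_ne_zero _ hg) e4
  rw [hd₁, hd₂] at e5
  refine ⟨κ₁ / κ₂, div_ne_zero hκ₁ hκ₂, ?_⟩
  rw [div_pow]
  field_simp
  linear_combination e5

end

end Cov

end Pool.Agent.TH958.SJ
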