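import Pool.Agent.TH958.SJ.Dwk

set_option autoImplicit false
set_option linter.all false
set_option maxHeartbeats 1000000

open PowerSeries

namespace Pool.Agent.TH958.SJ.Dwk

lemma rm_le {ℓ : ℕ} (hℓ : ℓ.Prime) {m : ℕ} (hm : ¬ ℓ ∣ m) :
    Polynomial.rootMultiplicity 1 ((1 - Polynomial.X ^ m : Polynomial (ZMod ℓ))) ≤ 1 := by
  haveI : Fact ℓ.Prime := ⟨hℓ⟩
  have h0 : (m : ZMod ℓ) ≠ 0 := by
    rw [Ne, ZMod.natCast_eq_zero_iff]; exact hm
  have hsep : (Polynomial.X ^ m - 1 : Polynomial (ZMod ℓ)).Separable := by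
    rw [Polynomial.X_pow_sub_one_separable_iff]; exact h0
  have hsep' : (1 - Polynomial.X ^ m : Polynomial (ZMod ℓ)).Separable := by
    refine hsep.of_dvd ⟨-1, ?_⟩
    ring
  exact Polynomial.rootMultiplicity_le_one_of_separable hsep' 1

theorem order_le {ℓ : ℕ} (hℓ : ℓ.Prime) {q : ℕ} (hq : (ℓ : ℤ) ∣ q - 1) {m d : ℕ} (hm : ¬ ℓ ∣ m)
    (c : ℕ → ℤ) (hc : ∀ n, n ≠ 0 → (ℓ : ℤ) ^ (padicValNat ℓ n + 1) ∣
      c n - (ℓ - 1) * (3 - (d + 1) * (if m ∣ n then m else 0 : ℕ)))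
    (P : Polynomial ℤ) (hP0 : P.coeff 0 = 1)
    (hP : LD (P : PowerSeries ℤ) (PowerSeries.mk fun n => if n = 0 then 0 else c n)) (r : ℕ)
    (G : Polynomial ℤ) (hG : P = (1 - Polynomial.C (q : ℤ) * Polynomial.X) ^ r * G) :
    r + 3 * (ℓ - 1) ≤ (ℓ - 1) * (d + 1) := by
  haveI : Fact ℓ.Prime := ⟨hℓ⟩
  have hm0 : 0 < m := by
    rcases Nat.eq_zero_or_pos m with h | h
    · rw [h] at hm; exact absurd (dvd_zero _) hm
    · exact h
  obtain ⟨a, ha⟩ : ∃ a, ℓ = a + 1 := ⟨ℓ - 1, by have := hℓ.pos; omega⟩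
  have ha' : ((ℓ : ℤ) - 1) = a := by rw [ha]; push_cast; ring
  have ha'' : ℓ - 1 = a := by omega
  rw [ha'']
  rw [ha'] at hc
  set b := (d + 1) * a with hb
  -- the power series
  set E1 : PowerSeries ℤ := 1 - C (1 : ℤ) * X ^ 1 with hE1
  have L1 := (LD_geo 1 one_pos).pow (3 * a)
  set E2 : PowerSeries ℤ := 1 - C (1 : ℤ) * X ^ m with hE2
  have L2' : LD (1 + geo 1 m) (m * geo 1 m) := by
    have := (LD_geo 1 hm0).inv (one_sub_mul 1 hm0)
    rwa [neg_neg] at this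
  have L2 := L2'.pow b
  have L := (hP.mul L1).mul L2
  set H : PowerSeries ℤ := (P : PowerSeries ℤ) * (1 - C (1 : ℤ) * X ^ 1) ^ (3 * a) *
    (1 + geo 1 m) ^ b with hH
  have hg0 : ∀ N, constantCoeff (geo 1 N) = 0 := by
    intro N
    rw [← coeff_zero_eq_constantCoeff_apply, geo, coeff_mk]; simp
  have hH0 : constantCoeff H = 1 := by
    rw [hH, map_mul, map_mul, map_pow, map_pow, map_add, hg0, map_sub, map_mul, map_pow]
    rw [← coeff_zero_eq_constantCoeff_apply, Polynomial.coeff_coe, hP0]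
    simp
  have hdiv : ∀ n, n ≠ 0 → (ℓ : ℤ) ∣ coeff n H := by
    apply main hℓ H _ hH0 L
    intro n hn
    have hce := hc n hn
    have e1 : coeff n (((3 * a : ℕ) : PowerSeries ℤ) * -(((1 : ℕ) : PowerSeries ℤ) * geo 1 1)) =
        -(3 * (a : ℤ)) := by
      have : ((3 * a : ℕ) : PowerSeries ℤ) * -(((1 : ℕ) : PowerSeries ℤ) * geo 1 1) =
          C (-(3 * a : ℤ)) * geo 1 1 := by
        simp
      rw [this, coeff_C_mul, geo, coeff_mk, if_pos ⟨hn, one_dvd n⟩, one_pow, mul_one]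
    have e2 : coeff n ((b : PowerSeries ℤ) * ((m : PowerSeries ℤ) * geo 1 m)) =
        b * (if m ∣ n then m else 0 : ℕ) := by
      have : ((b : PowerSeries ℤ) * ((m : PowerSeries ℤ) * geo 1 m)) =
          C ((b : ℤ) * m) * geo 1 m := by
        simp [mul_assoc]
      rw [this, coeff_C_mul, geo, coeff_mk]
      by_cases h : m ∣ n
      · rw [if_pos ⟨hn, h⟩, if_pos h, one_pow, mul_one]
      · rw [if_neg (fun h' => h h'.2), if_neg h]; simp
    rw [map_add, map_add, e1, e2, coeff_mk, if_neg hn]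
    have e3 : c n + -(3 * (a : ℤ)) + b * ((if m ∣ n then m else 0 : ℕ) : ℤ) =
        c n - a * (3 - (d + 1) * ((if m ∣ n then m else 0 : ℕ) : ℤ)) := by
      rw [hb]; push_cast; ring
    rw [e3]
    exact hce
  -- reduction
  have hred : PowerSeries.map (Int.castRingHom (ZMod ℓ)) H = 1 := by
    ext n
    rw [coeff_map, coeff_one]
    by_cases hn : n = 0
    · rw [if_pos hn, hn, coeff_zero_eq_constantCoeff_apply, hH0]; simp
    · rw [if_neg hn]
      exact (ZMod.intCast_zmod_eq_zero_iff_dvd _ _).2 (hdiv n hn)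
  have hmul : H * (1 - C (1 : ℤ) * X ^ m) ^ b = (P : PowerSeries ℤ) * (1 - C (1 : ℤ) * X ^ 1) ^ (3 * a) := by
    have : (1 + geo 1 m) ^ b * (1 - C (1 : ℤ) * X ^ m) ^ b = 1 := by
      rw [← mul_pow, mul_comm, one_sub_mul 1 hm0, one_pow]
    rw [hH, mul_assoc, this, mul_one]
  have hmul2 := congrArg (PowerSeries.map (Int.castRingHom (ZMod ℓ))) hmul
  rw [map_mul, hred, one_mul] at hmul2
  set Pb : Polynomial (ZMod ℓ) := P.map (Int.castRingHom (ZMod ℓ)) with hPb
  have hcoe : PowerSeries.map (Int.castRingHom (ZMod ℓ)) (P : PowerSeries ℤ) =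
      (Pb : PowerSeries (ZMod ℓ)) := by
    rw [hPb, Polynomial.polynomial_map_coe]
  have hpoly : (1 - Polynomial.X ^ m : Polynomial (ZMod ℓ)) ^ b =
      Pb * (1 - Polynomial.X) ^ (3 * a) := by
    apply Polynomial.coe_injective (ZMod ℓ)
    rw [Polynomial.coe_pow, Polynomial.coe_sub, Polynomial.coe_one, Polynomial.coe_pow,
      Polynomial.coe_X, Polynomial.coe_mul, Polynomial.coe_pow, Polynomial.coe_sub,
      Polynomial.coe_one, Polynomial.coe_X, ← hcoe]
    have e1 : PowerSeries.map (Int.castRingHom (ZMod ℓ)) ((1 - C (1 : ℤ) * X ^ m) ^ b) =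
        (1 - X ^ m) ^ b := by
      simp
    have e2 : PowerSeries.map (Int.castRingHom (ZMod ℓ)) ((P : PowerSeries ℤ) *
        (1 - C (1 : ℤ) * X ^ 1) ^ (3 * a)) =
        PowerSeries.map (Int.castRingHom (ZMod ℓ)) (P : PowerSeries ℤ) * (1 - X) ^ (3 * a) := by
      rw [map_mul]; simp
    rw [← e1, ← e2]
    exact hmul2
  have hPb2 : Pb = (1 - Polynomial.X) ^ r * G.map (Int.castRingHom (ZMod ℓ)) := by
    rw [hPb, hG, Polynomial.map_mul, Polynomial.map_pow, Polynomial.map_sub, Polynomial.map_one,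
      Polynomial.map_mul, Polynomial.map_C, Polynomial.map_X]
    have h1 : (Int.castRingHom (ZMod ℓ)) (q : ℤ) = 1 := by
      have h2 : (((q : ℤ) - 1 : ℤ) : ZMod ℓ) = 0 := (ZMod.intCast_zmod_eq_zero_iff_dvd _ _).2 hq
      push_cast at h2
      rw [eq_intCast, Int.cast_natCast]
      exact sub_eq_zero.1 h2
    rw [h1, Polynomial.C_1, one_mul]
  have hne : (1 - Polynomial.X ^ m : Polynomial (ZMod ℓ)) ≠ 0 := by
    intro h0
    have h1 := congrArg (Polynomial.coeff · 0) h0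
    simp [hm0.ne] at h1
  have hX : (1 - Polynomial.X : Polynomial (ZMod ℓ)) ≠ 0 := by
    intro h0
    have h1 := congrArg (Polynomial.coeff · 0) h0
    simp at h1
  have hfin : (1 - Polynomial.X ^ m : Polynomial (ZMod ℓ)) ^ b =
      (1 - Polynomial.X) ^ (r + 3 * a) * G.map (Int.castRingHom (ZMod ℓ)) := by
    rw [hpoly, hPb2, pow_add]; ring
  have hlhs := pow_ne_zero b hne
  have hdvd : (Polynomial.X - Polynomial.C 1 : Polynomial (ZMod ℓ)) ^ (r + 3 * a) ∣
      (1 - Polynomial.X ^ m : Polynomial (ZMod ℓ)) ^ b := by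
    rw [hfin]
    have : (1 - Polynomial.X : Polynomial (ZMod ℓ)) = -1 * (Polynomial.X - Polynomial.C 1) := by
      rw [Polynomial.C_1]; ring
    rw [this, mul_pow]
    exact ((dvd_mul_left _ _).mul_right _)
  have h1 := (Polynomial.le_rootMultiplicity_iff hlhs).2 hdvd
  have h2 : Polynomial.rootMultiplicity 1 ((1 - Polynomial.X ^ m : Polynomial (ZMod ℓ)) ^ b) =
      b * Polynomial.rootMultiplicity 1 (1 - Polynomial.X ^ m : Polynomial (ZMod ℓ)) := by
    classical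
    rw [← Polynomial.count_roots, ← Polynomial.count_roots, Polynomial.roots_pow,
      Multiset.count_nsmul]
  rw [h2] at h1
  have h3 : b * Polynomial.rootMultiplicity 1 (1 - Polynomial.X ^ m : Polynomial (ZMod ℓ)) ≤ b * 1 :=
    Nat.mul_le_mul_left _ (rm_le hℓ hm)
  have h4 : b = a * (d + 1) := by rw [hb, mul_comm]
  omega

end Pool.Agent.TH958.SJ.Dwk
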