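import Pool.Agent.TH958.SJ.Defs
import Pool.Agent.TH958.SJ.Constr
import Pool.Agent.TH958.SJ.Cnt
import Pool.Agent.TH958.SJ.Ord
import Pool.Agent.W309.RK.Exist

set_option autoImplicit false
set_option linter.all false
set_option maxHeartbeats 1000000

open Polynomial

namespace Pool.Agent.TH958.SJ

section prelim

theorem charP_of_card {k : Type} [Field k] [Finite k] {p m : ℕ} (hp : p.Prime)
    (h : Nat.card k = p ^ m) : CharP k p := by
  have : Fintype k := Fintype.ofFinite k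
  obtain ⟨q, hq⟩ := CharP.exists k
  obtain ⟨n, hqp, hn⟩ := FiniteField.card k q
  rw [Nat.card_eq_fintype_card, hn] at h
  have h1 : q ∣ p ^ m := by
    rw [← h]
    exact dvd_pow_self q n.ne_zero
  have h2 := (Nat.prime_dvd_prime_iff_eq hqp hp).1 (hqp.dvd_of_dvd_pow h1)
  rw [← h2]; exact hq

theorem dvd_card {p ν n : ℕ} {k : Type} (hcard : Nat.card k = p ^ (2 * ν * n)) :
    p ^ ν + 1 ∣ Nat.card k - 1 := by
  have h1 : p ^ ν + 1 ∣ p ^ (2 * ν) - 1 := by
    have h2 : p ^ (2 * ν) - 1 = (p ^ ν + 1) * (p ^ ν - 1) := by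
      rw [mul_comm 2 ν, pow_mul]
      have := Nat.sq_sub_sq (p ^ ν) 1
      rw [one_pow] at this
      exact this
    rw [h2]
    exact dvd_mul_right _ _
  have h3 : p ^ (2 * ν) - 1 ∣ (p ^ (2 * ν)) ^ n - 1 ^ n := Nat.sub_dvd_pow_sub_pow (p ^ (2 * ν)) 1 n
  rw [one_pow, ← pow_mul] at h3
  rw [hcard]
  exact h1.trans h3

theorem exists_primitive {d : ℕ} {k : Type} [Field k] [Finite k] (hd : d ∣ Nat.card k - 1) :
    ∃ ω : k, IsPrimitiveRoot ω d := by
  have hdvd : d ∣ Nat.card kˣ := by rwa [Nat.card_units]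
  obtain ⟨g, hg⟩ := IsCyclic.exists_generator (α := kˣ)
  obtain ⟨r, hr⟩ := hdvd
  have hord : orderOf g = Nat.card kˣ := orderOf_eq_card_of_forall_mem_zpowers hg
  have hrpos : r ≠ 0 := by
    rintro rfl
    rw [mul_zero] at hr
    exact Nat.card_pos.ne' hr
  refine ⟨((g ^ r : kˣ) : k), ?_⟩
  rw [IsPrimitiveRoot.coe_units_iff]
  have h5 : orderOf (g ^ r) = d := by
    rw [orderOf_pow' g hrpos, hord, hr, Nat.gcd_eq_right (dvd_mul_left _ _),
      Nat.mul_div_cancel _ (Nat.pos_of_ne_zero hrpos)]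
  rw [← h5]
  exact IsPrimitiveRoot.orderOf _

end prelim

section trace

variable {k : Type} [Field k] [Finite k] {L : Type} [Field L] [Fintype L] [DecidableEq L]
  [Algebra k L]

lemma range_ext (φ : L →ₐ[k] AlgebraicClosure k) :
    Set.range φ = ext k (Module.finrank k L) := by
  classical
  have hcard : Nat.card L = Nat.card k ^ Module.finrank k L := Module.natCard_eq_pow_finrank
  have hcard' : Fintype.card L = Nat.card k ^ Module.finrank k L := by
    rw [← hcard, Nat.card_eq_fintype_card]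
  set N := Nat.card k ^ Module.finrank k L with hN
  have hN1 : 1 < N := by rw [← hcard']; exact Fintype.one_lt_card
  set p : (AlgebraicClosure k)[X] := X ^ N - X with hp
  have hp0 : p ≠ 0 := FiniteField.X_pow_card_sub_X_ne_zero _ hN1
  have hdeg : p.natDegree = N := FiniteField.X_pow_card_sub_X_natDegree_eq _ hN1
  have hsub : (Finset.univ : Finset L).image φ ⊆ p.roots.toFinset := by
    intro x hx
    obtain ⟨z, -, rfl⟩ := Finset.mem_image.1 hx
    rw [Multiset.mem_toFinset, mem_roots hp0, IsRoot.def, hp, eval_sub, eval_pow, eval_X,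
      ← map_pow, ← hcard', FiniteField.pow_card, sub_self]
  have heq : (Finset.univ : Finset L).image φ = p.roots.toFinset := by
    apply Finset.eq_of_subset_of_card_le hsub
    rw [Finset.card_image_of_injective _ (show Function.Injective φ from φ.injective),
      Finset.card_univ, hcard', ← hdeg]
    exact (Multiset.toFinset_card_le _).trans (card_roots' p)
  ext x
  have h1 : x ∈ Set.range φ ↔ x ∈ (Finset.univ : Finset L).image φ := by simp
  rw [h1, heq, Multiset.mem_toFinset, mem_roots hp0, IsRoot.def, hp, eval_sub, eval_pow, eval_X,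
    sub_eq_zero]
  rfl

lemma trace_eq (ℓ d : ℕ) (h : k[X]) :
    trace k ℓ d h (Module.finrank k L) = (Fintype.card L : ℤ) ^ 2 -
      ((Finset.univ : Finset (L × L × L)).filter
        (fun w => w.2.2 ^ ℓ = Cnt.fL ℓ d h w.1 w.2.1)).card + (ℓ - 1) := by
  classical
  have hcard : Nat.card L = Nat.card k ^ Module.finrank k L := Module.natCard_eq_pow_finrank
  have hcard' : Fintype.card L = Nat.card k ^ Module.finrank k L := by
    rw [← hcard, Nat.card_eq_fintype_card]
  obtain ⟨φ⟩ : Nonempty (L →ₐ[k] AlgebraicClosure k) := ⟨IsAlgClosed.lift⟩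
  have hr := range_ext φ
  let Φ : L × L × L → AlgebraicClosure k × AlgebraicClosure k × AlgebraicClosure k :=
    Prod.map φ (Prod.map φ φ)
  have hΦ : Function.Injective Φ := φ.injective.prodMap (φ.injective.prodMap φ.injective)
  have hs : sols k ℓ d h (Module.finrank k L) = Φ '' ((Finset.univ : Finset (L × L × L)).filter
        (fun w => w.2.2 ^ ℓ = Cnt.fL ℓ d h w.1 w.2.1) : Set (L × L × L)) := by
    have hae : ∀ u : L, aeval (φ u) h = φ (aeval u h) := fun u => aeval_algHom_apply φ u h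
    ext ⟨u, x, y⟩
    simp only [sols, Set.mem_setOf_eq, Set.mem_image, Finset.coe_filter, Finset.mem_univ, true_and]
    rw [← hr]
    constructor
    · rintro ⟨⟨u', rfl⟩, ⟨x', rfl⟩, ⟨y', rfl⟩, he⟩
      refine ⟨(u', x', y'), ?_, rfl⟩
      apply φ.injective
      unfold Cnt.fL
      rw [hae] at he
      simp only [map_mul, map_pow, map_add, map_one]
      exact he
    · rintro ⟨⟨u', x', y'⟩, he, h2⟩
      have e1 : φ u' = u := congrArg Prod.fst h2
      have e2 : φ x' = x := congrArg (fun z => z.2.1) h2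
      have e3 : φ y' = y := congrArg (fun z => z.2.2) h2
      refine ⟨⟨u', e1⟩, ⟨x', e2⟩, ⟨y', e3⟩, ?_⟩
      rw [← e1, ← e2, ← e3, hae]
      have he' := congrArg φ he
      unfold Cnt.fL at he'
      simpa only [map_mul, map_pow, map_add, map_one] using he'
  unfold trace
  rw [hs, Set.ncard_image_of_injective _ hΦ, Set.ncard_coe_finset, mul_comm 2, pow_mul]
  congr 3
  rw [hcard']
  push_cast; rfl

end trace

section final

/-- the upper bound for the order of vanishing -/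
theorem upper {ℓ p ν : ℕ} (hℓ : ℓ.Prime) (hp : p.Prime) (hν : 1 ≤ ν) (hd : ℓ ∣ p ^ ν + 1)
    {k : Type} [Field k] [Finite k] {n : ℕ} (hcard : Nat.card k = p ^ (2 * ν * n)) {h : k[X]}
    (hg : Good ℓ (p ^ ν + 1) h) (m : ℕ) (G : ℤ[X])
    (hL : IsL k ℓ (p ^ ν + 1) h ((1 - C (Nat.card k : ℤ) * X) ^ m * G)) :
    m ≤ (ℓ - 1) * (p ^ ν - 1) := by
  classical
  haveI : Fact p.Prime := ⟨hp⟩
  haveI : CharP k p := charP_of_card hp hcard
  obtain ⟨h0, hdeg, hirr⟩ := hg
  obtain ⟨hP0, hP⟩ := hL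
  set d := p ^ ν + 1 with hdd
  have hdc : d ∣ Nat.card k - 1 := dvd_card hcard
  have hcpos : 1 ≤ Nat.card k := Nat.card_pos
  obtain ⟨ω, hω⟩ := exists_primitive hdc
  obtain ⟨ζ, hζ⟩ := exists_primitive (hd.trans hdc)
  have hq : (ℓ : ℤ) ∣ Nat.card k - 1 := by
    have h1 : ((ℓ : ℕ) : ℤ) ∣ ((Nat.card k - 1 : ℕ) : ℤ) := by exact_mod_cast hd.trans hdc
    rw [Nat.cast_sub hcpos] at h1
    exact_mod_cast h1
  have key := Dwk.order_le hℓ (q := Nat.card k) hq (m := h.natDegree) (d := d) hdeg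
    (trace k ℓ d h) ?_ ((1 - C (Nat.card k : ℤ) * X) ^ m * G) hP0 ?_ m G rfl
  · have h1 : d + 1 = (p ^ ν - 1) + 3 := by
      have : 1 ≤ p ^ ν := Nat.one_le_pow _ _ hp.pos
      omega
    rw [h1, mul_add, mul_comm (ℓ - 1) 3] at key
    omega
  · intro N hN
    haveI : NeZero N := ⟨hN⟩
    haveI : Fintype (FiniteField.Extension k p N) := Fintype.ofFinite _
    have hfr : Module.finrank k (FiniteField.Extension k p N) = N :=
      FiniteField.finrank_extension k p N
    have h1 := Cnt.main (L := FiniteField.Extension k p N) hℓ hq hζ (d := d) (by omega) hω h0 hirr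
      (v := padicValNat ℓ N) (by rw [hfr]; exact pow_padicValNat_dvd)
    have h2 := trace_eq (k := k) (L := FiniteField.Extension k p N) ℓ d h
    rw [← h2, hfr] at h1
    exact h1
  · unfold Dwk.LD
    rw [PowerSeries.derivative_coe, ← hP, Polynomial.coe_mul, Polynomial.coe_X]

/-- the lower bound for the rank -/
theorem lower {ℓ p ν : ℕ} (hℓ : ℓ.Prime) (hodd : ℓ ≠ 2) (hp : p.Prime) (hν : 1 ≤ ν)
    (hd : ℓ ∣ p ^ ν + 1) {k : Type} [Field k] [Finite k] {n : ℕ}
    (hcard : Nat.card k = p ^ (2 * ν * n)) {h : k[X]} (hg : Good ℓ (p ^ ν + 1) h) :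
    JacRankGE (RatFunc k) ℓ (tOf k (p ^ ν + 1) h) ((ℓ - 1) * (p ^ ν - 1)) := by
  classical
  haveI : Fact p.Prime := ⟨hp⟩
  haveI : CharP k p := charP_of_card hp hcard
  obtain ⟨h0, hdeg, hirr⟩ := hg
  have hdc : p ^ ν + 1 ∣ Nat.card k - 1 := dvd_card hcard
  obtain ⟨ω, hω⟩ := exists_primitive hdc
  obtain ⟨ζ, hζ⟩ := exists_primitive (hd.trans hdc)
  have hnd : 0 < h.natDegree := h0.natDegree_pos
  unfold tOf
  set t := algebraMap k[X] (RatFunc k) (h ^ (p ^ ν + 1)) with ht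
  have hinj : Function.Injective (algebraMap k[X] (RatFunc k)) := RatFunc.algebraMap_injective k
  have ht1 : t ≠ 1 := by
    intro h1
    rw [ht, ← map_one (algebraMap k[X] (RatFunc k))] at h1
    have h2 := congrArg natDegree (hinj h1)
    rw [natDegree_pow, natDegree_one] at h2
    have : 0 < (p ^ ν + 1) * h.natDegree := Nat.mul_pos (by omega) hnd
    omega
  have hinj2 : Function.Injective ((algebraMap k[X] (RatFunc k)).comp (C : k →+* k[X])) :=
    hinj.comp C_injective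
  have hK : (ℓ : RatFunc k) ≠ 0 := by
    have h1 : (ℓ : k) ≠ 0 := by
      rw [Ne, CharP.cast_eq_zero_iff k p]
      intro h2
      have h3 : p = ℓ := (Nat.prime_dvd_prime_iff_eq hp hℓ).1 h2
      have h4 : p ∣ p ^ ν + 1 := h3 ▸ hd
      have h5 : p ∣ p ^ ν := dvd_pow_self p (by omega)
      have h6 := (Nat.dvd_add_right h5).1 h4
      exact hp.one_lt.ne' (Nat.dvd_one.1 h6)
    intro h2
    apply h1
    apply hinj2
    rw [map_zero, map_natCast]
    exact h2
  have hζ' : IsPrimitiveRoot (((algebraMap k[X] (RatFunc k)).comp (C : k →+* k[X])) ζ) ℓ :=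
    hζ.map_of_injective hinj2
  haveI isp : IsSplittingField (RatFunc (RatFunc k)) (FunField (RatFunc k) ℓ t)
      (X ^ ℓ - C (algebraMap (RatFunc k)[X] (RatFunc (RatFunc k)) (fp ℓ t))) :=
    IsSplittingField.splittingField (kummerPoly (RatFunc k) ℓ t)
  obtain ⟨i1, i2, ⟨D⟩⟩ := exists_cov (K := RatFunc k) (L := RatFunc (RatFunc k))
    (F := FunField (RatFunc k) ℓ t) hℓ hodd hK hζ' ht1
  haveI := i1
  haveI := i2
  haveI : IsIntegralClosure (coordRing (RatFunc k) ℓ t) (RatFunc k)[X]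
      (FunField (RatFunc k) ℓ t) :=
    integralClosure.isIntegralClosure (RatFunc k)[X] (FunField (RatFunc k) ℓ t)
  haveI : IsDedekindDomain (coordRing (RatFunc k) ℓ t) :=
    IsIntegralClosure.isDedekindDomain (RatFunc k)[X] (RatFunc (RatFunc k))
      (FunField (RatFunc k) ℓ t) _
  haveI : Module.Finite (RatFunc k)[X] (coordRing (RatFunc k) ℓ t) :=
    IsIntegralClosure.finite (RatFunc k)[X] (RatFunc (RatFunc k))
      (FunField (RatFunc k) ℓ t) _
  haveI : Module.IsTorsionFree (RatFunc k)[X] (FunField (RatFunc k) ℓ t) := by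
    rw [Module.isTorsionFree_iff_algebraMap_injective,
      IsScalarTower.algebraMap_eq (RatFunc k)[X] (RatFunc (RatFunc k)) (FunField (RatFunc k) ℓ t)]
    exact (algebraMap (RatFunc (RatFunc k)) (FunField (RatFunc k) ℓ t)).injective.comp
      (IsFractionRing.injective (RatFunc k)[X] (RatFunc (RatFunc k)))
  haveI : Module.IsTorsionFree (RatFunc k)[X] (coordRing (RatFunc k) ℓ t) :=
    IsIntegralClosure.isTorsionFree (RatFunc k)[X] (FunField (RatFunc k) ℓ t)
  have D' : Cov (RatFunc k) (RatFunc (RatFunc k)) (FunField (RatFunc k) ℓ t)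
    (coordRing (RatFunc k) ℓ t) ℓ (fp ℓ t) := D
  exact rank_lower hd hω h h0.ne_zero hnd hirr D'

/-- existence of good polynomials -/
theorem exists_good {ℓ p ν : ℕ} (hℓ : ℓ.Prime) (hp : p.Prime) (hν : 1 ≤ ν)
    (hd : ℓ ∣ p ^ ν + 1) : ∃ (k : Type) (_ : Field k) (_ : Finite k) (n : ℕ),
      Nat.card k = p ^ (2 * ν * n) ∧ ∀ N : ℕ, ∃ h : k[X], N ≤ h.natDegree ∧
        Good ℓ (p ^ ν + 1) h := by
  classical
  haveI : Fact p.Prime := ⟨hp⟩
  obtain ⟨l, hl1, hl⟩ := Nat.exists_infinite_primes (p ^ ν + 3)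
  have hp2 := hp.two_le
  have hpf : p ≤ p ^ ν := Nat.le_self_pow (by omega) p
  have hpl : p < l := by omega
  have hn0 : 2 * ν * (l - 1) ≠ 0 := by
    have : 1 ≤ l - 1 := by omega
    positivity
  have hlℓ : ¬ ℓ ∣ l := by
    intro h1
    have h2 : ℓ = l := (Nat.prime_dvd_prime_iff_eq hℓ hl).1 h1
    have := Nat.le_of_dvd (by omega) hd
    omega
  refine ⟨GaloisField p (2 * ν * (l - 1)), inferInstance, inferInstance, l - 1,
    GaloisField.card p _ hn0, ?_⟩
  haveI : Fintype (GaloisField p (2 * ν * (l - 1))) := Fintype.ofFinite _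
  set k := GaloisField p (2 * ν * (l - 1)) with hk
  have hcard : Fintype.card k = p ^ (2 * ν * (l - 1)) := by
    rw [← Nat.card_eq_fintype_card]; exact GaloisField.card p _ hn0
  have hdvd : l ∣ Fintype.card k - 1 := by
    rw [hcard]
    haveI : Fact l.Prime := ⟨hl⟩
    have h1 : ((p ^ (2 * ν)) ^ (l - 1) : ZMod l) = 1 := by
      apply ZMod.pow_card_sub_one_eq_one
      apply pow_ne_zero
      intro h
      have h2 : ((p : ℕ) : ZMod l) = 0 := h
      rw [ZMod.natCast_eq_zero_iff] at h2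
      have := Nat.le_of_dvd hp.pos h2
      omega
    have h3 : 1 ≤ p ^ (2 * ν * (l - 1)) := Nat.one_le_pow _ _ hp.pos
    have h4 : ((p ^ (2 * ν * (l - 1)) - 1 : ℕ) : ZMod l) = 0 := by
      rw [Nat.cast_sub h3, Nat.cast_pow, pow_mul, Nat.cast_one, h1, sub_self]
    exact (ZMod.natCast_eq_zero_iff _ _).1 h4
  have hq : (l - 1) ^ 2 < Fintype.card k := by
    rw [hcard]
    have h1 : l - 1 < p ^ (l - 1) := Nat.lt_pow_self hp.one_lt
    calc (l - 1) ^ 2 < (p ^ (l - 1)) ^ 2 := Nat.pow_lt_pow_left h1 two_ne_zero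
      _ = p ^ (2 * (l - 1)) := by rw [← pow_mul]; ring_nf
      _ ≤ p ^ (2 * ν * (l - 1)) := by
        apply Nat.pow_le_pow_right hp.pos
        have : 2 * (l - 1) * 1 ≤ 2 * (l - 1) * ν := Nat.mul_le_mul_left _ hν
        calc 2 * (l - 1) = 2 * (l - 1) * 1 := by ring
          _ ≤ 2 * (l - 1) * ν := this
          _ = 2 * ν * (l - 1) := by ring
  set Z : Finset k := insert 0 (nthRootsFinset (p ^ ν + 1) (1 : k)) with hZdef
  have hZ : Z.card + 1 ≤ l := by
    have h1 : Z.card ≤ (nthRootsFinset (p ^ ν + 1) (1 : k)).card + 1 := Finset.card_insert_le _ _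
    have h2 : (nthRootsFinset (p ^ ν + 1) (1 : k)).card ≤ p ^ ν + 1 := by
      unfold nthRootsFinset
      exact (Multiset.toFinset_card_le _).trans (card_nthRoots _ _)
    omega
  obtain ⟨c, hc⟩ := Pool.Agent.W309.RK.exists_shift (k := k) hl hdvd Z hZ hq
  intro N
  have hl2 : l ≠ 2 := by omega
  refine ⟨X ^ l ^ N - C c, ?_, ?_, ?_, ?_⟩
  · rw [natDegree_X_pow_sub_C]
    exact (Nat.lt_pow_self hl.one_lt).le
  · apply X_pow_sub_C_irreducible_of_prime_pow hl hl2
    intro b hb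
    exact hc 0 (Finset.mem_insert_self _ _) b (by rw [hb, add_zero])
  · rw [natDegree_X_pow_sub_C]
    exact fun h1 => hlℓ (hℓ.dvd_of_dvd_pow h1)
  · intro z hz
    have e : (X ^ l ^ N - C c - C z : k[X]) = X ^ l ^ N - C (c + z) := by rw [C_add]; ring
    rw [e]
    apply X_pow_sub_C_irreducible_of_prime_pow hl hl2
    intro b hb
    exact hc z (Finset.mem_insert_of_mem ((mem_nthRootsFinset (by omega) 1).2 hz)) b hb

/-- the rank is unbounded for every `ℓ` -/
theorem exists_large {ℓ : ℕ} (hℓ : ℓ.Prime) (hodd : ℓ ≠ 2) (R : ℕ) :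
    ∃ p : ℕ, p.Prime ∧ ℓ ∣ p ^ 1 + 1 ∧ R ≤ (ℓ - 1) * (p ^ 1 - 1) := by
  haveI : Fact ℓ.Prime := ⟨hℓ⟩
  haveI : NeZero ℓ := ⟨hℓ.ne_zero⟩
  obtain ⟨p, hlt, hp, hmod⟩ := Nat.forall_exists_prime_gt_and_eq_mod
    (q := ℓ) (a := (-1 : ZMod ℓ)) (isUnit_one.neg) (R + 1)
  refine ⟨p, hp, ?_, ?_⟩
  · rw [pow_one, ← ZMod.natCast_eq_zero_iff, Nat.cast_add, hmod, Nat.cast_one, neg_add_cancel]
  · rw [pow_one]
    have h1 : 1 ≤ ℓ - 1 := by have := hℓ.two_le; omega
    calc R ≤ 1 * (p - 1) := by omega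
      _ ≤ (ℓ - 1) * (p - 1) := Nat.mul_le_mul_right _ h1

end final

end Pool.Agent.TH958.SJ
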