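import Pool.Agent.TH958.SJ.Pts

set_option autoImplicit false
set_option linter.all false
set_option maxHeartbeats 1000000

open Polynomial
open scoped nonZeroDivisors

namespace Pool.Agent.TH958.SJ

variable {K : Type} [Field K] {L F B : Type} [Field L] [Field F] [CommRing B]
    [Algebra K[X] L] [Algebra L F] [Algebra K[X] F] [Algebra K[X] B] [Algebra B F]
    {ℓ : ℕ} {t : K} [IsFractionRing K[X] L] [IsScalarTower K[X] L F]
    [IsScalarTower K[X] B F] [IsIntegralClosure B K[X] F] [FiniteDimensional L F]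
    [IsDedekindDomain B]
    [IsGalois L F] [Module.Finite K[X] B] [Module.IsTorsionFree K[X] B]

/-- the relation between classes and elements of the field given by the descent map -/
def Gm (ℓ : ℕ) (t : K) (c : ClassGroup B) (w : K) : Prop :=
  ∃ (I₁ I₂ : (Ideal B)⁰) (a₁ a₂ : K[X]) (κ : K), c * ClassGroup.mk0 I₂ = ClassGroup.mk0 I₁ ∧
    Ideal.relNorm K[X] I₁.1 = Ideal.span {a₁} ∧ Ideal.relNorm K[X] I₂.1 = Ideal.span {a₂} ∧
    a₁.eval (-1) ≠ 0 ∧ a₁.eval (-t) ≠ 0 ∧ a₂.eval (-1) ≠ 0 ∧ a₂.eval (-t) ≠ 0 ∧ κ ≠ 0 ∧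
    w * κ ^ ℓ * (a₁.eval (-t) * a₂.eval (-1)) = a₁.eval (-1) * a₂.eval (-t)

lemma Gm.mul {c c' : ClassGroup B} {w w' : K} (h : Gm ℓ t c w) (h' : Gm ℓ t c' w') :
    Gm ℓ t (c * c') (w * w') := by
  obtain ⟨I₁, I₂, a₁, a₂, κ, h1, h2, h3, h4, h5, h6, h7, h8, h9⟩ := h
  obtain ⟨J₁, J₂, b₁, b₂, κ', g1, g2, g3, g4, g5, g6, g7, g8, g9⟩ := h'
  refine ⟨I₁ * J₁, I₂ * J₂, a₁ * b₁, a₂ * b₂, κ * κ', ?_, ?_, ?_, ?_, ?_, ?_, ?_,
    mul_ne_zero h8 g8, ?_⟩
  · rw [map_mul, map_mul, ← h1, ← g1]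
    simp only [mul_assoc, mul_left_comm, mul_comm]
  · rw [Submonoid.coe_mul, map_mul, h2, g2, Ideal.span_singleton_mul_span_singleton]
  · rw [Submonoid.coe_mul, map_mul, h3, g3, Ideal.span_singleton_mul_span_singleton]
  · rw [eval_mul]; exact mul_ne_zero h4 g4
  · rw [eval_mul]; exact mul_ne_zero h5 g5
  · rw [eval_mul]; exact mul_ne_zero h6 g6
  · rw [eval_mul]; exact mul_ne_zero h7 g7
  · simp only [eval_mul]
    rw [mul_pow]
    linear_combination (w' * κ' ^ ℓ * (b₁.eval (-t) * b₂.eval (-1))) * h9 +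
      (a₁.eval (-1) * a₂.eval (-t)) * g9

lemma Gm.inv {c : ClassGroup B} {w : K} (h : Gm ℓ t c w) : Gm ℓ t c⁻¹ w⁻¹ := by
  obtain ⟨I₁, I₂, a₁, a₂, κ, h1, h2, h3, h4, h5, h6, h7, h8, h9⟩ := h
  have hw : w ≠ 0 := by
    rintro rfl
    rw [zero_mul, zero_mul] at h9
    exact mul_ne_zero h4 h7 h9.symm
  refine ⟨I₂, I₁, a₂, a₁, κ⁻¹, ?_, h3, h2, h6, h7, h4, h5, inv_ne_zero h8, ?_⟩
  · rw [← h1, inv_mul_cancel_left]
  · rw [inv_pow]
    have := pow_ne_zero ℓ h8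
    field_simp
    linear_combination (-1) * h9

lemma Gm.one (ℓ : ℕ) (t : K) : Gm ℓ t (1 : ClassGroup B) 1 := by
  refine ⟨1, 1, 1, 1, 1, by rw [one_mul], ?_, ?_, ?_, ?_, ?_, ?_, one_ne_zero, ?_⟩
  · rw [Submonoid.coe_one, map_one, Ideal.span_singleton_one, Ideal.one_eq_top]
  · rw [Submonoid.coe_one, map_one, Ideal.span_singleton_one, Ideal.one_eq_top]
  all_goals simp

lemma Gm.pow {c : ClassGroup B} {w : K} (h : Gm ℓ t c w) (n : ℕ) : Gm ℓ t (c ^ n) (w ^ n) := by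
  induction n with
  | zero => rw [pow_zero, pow_zero]; exact Gm.one ℓ t
  | succ n ih => rw [pow_succ, pow_succ]; exact ih.mul h

lemma Gm.zpow {c : ClassGroup B} {w : K} (h : Gm ℓ t c w) (n : ℤ) : Gm ℓ t (c ^ n) (w ^ n) := by
  cases n with
  | ofNat n =>
    rw [Int.ofNat_eq_natCast, zpow_natCast, zpow_natCast]; exact h.pow n
  | negSucc n => rw [zpow_negSucc, zpow_negSucc]; exact (h.pow _).inv

variable (D : Cov K L F B ℓ (fp ℓ t))

include D in
lemma Gm.map {c : ClassGroup B} {w : K} (h : Gm ℓ t c w) : Gm ℓ t (clMap D.sr c) w := by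
  obtain ⟨I₁, I₂, a₁, a₂, κ, h1, h2, h3, h4, h5, h6, h7, h8, h9⟩ := h
  refine ⟨mapI D.sr I₁, mapI D.sr I₂, a₁, a₂, κ, ?_, ?_, ?_, h4, h5, h6, h7, h8, h9⟩
  · rw [← clMap_mk0, ← clMap_mk0, ← h1, map_mul]
  · rw [← h2]
    exact Ideal.relNorm_map_algEquiv D.s I₁.1
  · rw [← h3]
    exact Ideal.relNorm_map_algEquiv D.s I₂.1

include D in
lemma Gm.ker (ht0 : t ≠ 0) (ht : t ≠ 1) {w : K} (h : Gm ℓ t (1 : ClassGroup B) w) :
    ∃ κ : K, κ ≠ 0 ∧ w = κ ^ ℓ := by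
  obtain ⟨I₁, I₂, a₁, a₂, κ, h1, h2, h3, h4, h5, h6, h7, h8, h9⟩ := h
  rw [one_mul, ClassGroup.mk0_eq_mk0_iff] at h1
  obtain ⟨x, z, hx, hz, h1⟩ := h1
  have hN := congrArg (Ideal.relNorm K[X]) h1
  rw [map_mul, map_mul, Ideal.relNorm_singleton, Ideal.relNorm_singleton, h2, h3,
    Ideal.span_singleton_mul_span_singleton, Ideal.span_singleton_mul_span_singleton,
    Ideal.span_singleton_eq_span_singleton] at hN
  obtain ⟨v, hv⟩ := hN
  obtain ⟨u, hu0, hu⟩ := Polynomial.isUnit_iff.1 v.isUnit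
  have hu0' := hu0.ne_zero
  rw [← hu] at hv
  -- at -1
  have hfg : fp ℓ t = (X - C (-1)) * (X ^ (ℓ - 1) * (X + C t)) := by
    unfold fp; rw [C_neg, C_1]; ring
  have hg : (X ^ (ℓ - 1) * (X + C t)).eval (-1) ≠ 0 := by
    rw [eval_mul, eval_pow, eval_X, eval_add, eval_X, eval_C]
    refine mul_ne_zero (pow_ne_zero _ (neg_ne_zero.2 one_ne_zero)) ?_
    intro h0
    exact ht (by linear_combination h0)
  have hfg' : fp ℓ t = (X - C (-t)) * (X ^ (ℓ - 1) * (X + 1)) := by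
    unfold fp; rw [C_neg]; ring
  have hg' : (X ^ (ℓ - 1) * (X + 1)).eval (-t) ≠ 0 := by
    rw [eval_mul, eval_pow, eval_X, eval_add, eval_X, eval_one]
    refine mul_ne_zero (pow_ne_zero _ (neg_ne_zero.2 ht0)) ?_
    intro h0
    exact ht (by linear_combination (-1) * h0)
  have e : Algebra.intNorm K[X] B x * (a₂ * C u) = Algebra.intNorm K[X] B z * a₁ := by
    linear_combination hv
  obtain ⟨κ₁, hκ₁, k1⟩ := D.norm_quot hfg hg hx hz (c₁ := a₂ * C u) (c₂ := a₁)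
    (by rw [eval_mul, eval_C]; exact mul_ne_zero h6 hu0') h4 e
  obtain ⟨κ₂, hκ₂, k2⟩ := D.norm_quot hfg' hg' hx hz (c₁ := a₂ * C u) (c₂ := a₁)
    (by rw [eval_mul, eval_C]; exact mul_ne_zero h7 hu0') h5 e
  rw [eval_mul, eval_C] at k1 k2
  refine ⟨κ₁ / (κ₂ * κ), div_ne_zero hκ₁ (mul_ne_zero hκ₂ h8), ?_⟩
  rw [div_pow, mul_pow, eq_div_iff (mul_ne_zero (pow_ne_zero _ hκ₂) (pow_ne_zero _ h8))]
  have hne : a₁.eval (-t) * a₂.eval (-1) * (a₂.eval (-t) * u) ≠ 0 :=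
    mul_ne_zero (mul_ne_zero h5 h6) (mul_ne_zero h7 hu0')
  apply mul_left_cancel₀ hne
  linear_combination (a₂.eval (-t) * u * κ₂ ^ ℓ) * h9 + (a₁.eval (-1) * a₂.eval (-t)) * k2 -
    (a₁.eval (-t) * a₂.eval (-t)) * k1

include D in
lemma Gm.point (ht0 : t ≠ 0) {β η : K} (hη : η ≠ 0) (he : (fp ℓ t).eval β = η ^ ℓ)
    (I : (Ideal B)⁰) (hI : I.1 = D.QI β η 0) :
    Gm ℓ t (ClassGroup.mk0 I) ((1 + β) / (t + β)) := by
  have hne : (fp ℓ t).eval β ≠ 0 := by rw [he]; exact pow_ne_zero _ hη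
  have hev : (fp ℓ t).eval β = β ^ (ℓ - 1) * (β + 1) * (β + t) := by
    unfold fp; simp
  rw [hev] at hne
  have h1 : β + 1 ≠ 0 := fun h => hne (by rw [h]; ring)
  have h2 : β + t ≠ 0 := fun h => hne (by rw [h]; ring)
  refine ⟨I, 1, X - C β, 1, 1, by rw [map_one, mul_one], ?_, ?_, ?_, ?_, ?_, ?_, one_ne_zero, ?_⟩
  · rw [hI, D.relNorm_QI hη he]
  · rw [Submonoid.coe_one, map_one, Ideal.span_singleton_one, Ideal.one_eq_top]
  · rw [eval_sub, eval_X, eval_C]; intro h; exact h1 (by linear_combination (-1) * h)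
  · rw [eval_sub, eval_X, eval_C]; intro h; exact h2 (by linear_combination (-1) * h)
  · simp
  · simp
  · rw [eval_sub, eval_sub, eval_X, eval_X, eval_C, eval_C, eval_one, eval_one]
    have h3 : t + β ≠ 0 := by rwa [add_comm]
    field_simp
    ring

/-- the automorphism of the class group, additively -/
noncomputable def sg : Additive (ClassGroup B) →ₗ[ℤ] Additive (ClassGroup B) :=
  (MonoidHom.toAdditive (clMap D.sr)).toIntLinearMap

lemma sg_apply (c : ClassGroup B) : sg D (Additive.ofMul c) = Additive.ofMul (clMap D.sr c) := rfl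

lemma Gm.poly {c : ClassGroup B} {w : K} (h : Gm ℓ t c w) (n : ℤ[X]) :
    Gm ℓ t (Additive.toMul (aeval (sg D) n (Additive.ofMul c))) (w ^ (n.eval 1)) := by
  have hw : w ≠ 0 := by
    obtain ⟨I₁, I₂, a₁, a₂, κ, h1, h2, h3, h4, h5, h6, h7, h8, h9⟩ := h
    rintro rfl
    rw [zero_mul, zero_mul] at h9
    exact mul_ne_zero h4 h7 h9.symm
  have hk : ∀ k : ℕ, Gm ℓ t (Additive.toMul (((sg D) ^ k) (Additive.ofMul c))) w := by
    intro k
    induction k with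
    | zero => exact h
    | succ k ih =>
      rw [pow_succ']
      exact Gm.map D ih
  induction n using Polynomial.induction_on' with
  | add p q hp hq =>
    rw [map_add, LinearMap.add_apply, toMul_add, eval_add, zpow_add₀ hw]
    exact hp.mul hq
  | monomial k a =>
    rw [aeval_monomial, eval_monomial, one_pow, mul_one]
    have e : ((algebraMap ℤ (Module.End ℤ (Additive (ClassGroup B)))) a * (sg D) ^ k)
        (Additive.ofMul c) = a • (((sg D) ^ k) (Additive.ofMul c)) := rfl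
    rw [e, toMul_zsmul]
    exact (hk k).zpow a

/-- the relation obtained from a relation between points -/
theorem relation {ι : Type} [Fintype ι] (ht0 : t ≠ 0) (ht : t ≠ 1) (c : ι → ClassGroup B)
    (w : ι → K) (h : ∀ i, Gm ℓ t (c i) (w i)) (n : ι → ℤ[X])
    (hn : ∑ i, aeval (sg D) (n i) (Additive.ofMul (c i)) = 0) :
    ∃ κ : K, κ ≠ 0 ∧ ∏ i, w i ^ (n i).eval 1 = κ ^ ℓ := by
  classical
  apply Gm.ker D ht0 ht (B := B)
  have key : ∀ s : Finset ι, Gm ℓ t (Additive.toMul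
      (∑ i ∈ s, aeval (sg D) (n i) (Additive.ofMul (c i)))) (∏ i ∈ s, w i ^ (n i).eval 1) := by
    intro s
    induction s using Finset.induction_on with
    | empty => exact Gm.one ℓ t
    | insert j s hj ih =>
      rw [Finset.sum_insert hj, Finset.prod_insert hj, toMul_add]
      exact (Gm.poly D (h j) (n j)).mul ih
  have := key Finset.univ
  rw [hn] at this
  exact this

/-- the norm element kills the classes of the points -/
theorem norm_kills {β η : K} (hη : η ≠ 0) (he : (fp ℓ t).eval β = η ^ ℓ)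
    (I : (Ideal B)⁰) (hI : I.1 = D.QI β η 0) :
    aeval (sg D) (cyclotomic ℓ ℤ) (Additive.ofMul (ClassGroup.mk0 I)) = 0 := by
  have : Fact ℓ.Prime := ⟨D.hp⟩
  rw [cyclotomic_prime, map_sum, LinearMap.sum_apply]
  have hQ : ∀ i, D.QI β η i ∈ (Ideal B)⁰ := fun i => by
    rw [mem_nonZeroDivisors_iff_ne_zero, Ne, Ideal.zero_eq_bot]; exact D.QI_ne β η i
  have hk : ∀ k : ℕ, ((sg D) ^ k) (Additive.ofMul (ClassGroup.mk0 I)) =
      Additive.ofMul (ClassGroup.mk0 ⟨D.QI β η k, hQ k⟩) := by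
    intro k
    induction k with
    | zero =>
      have : I = ⟨D.QI β η 0, hQ 0⟩ := Subtype.ext hI
      rw [pow_zero, ← this]; rfl
    | succ k ih =>
      rw [pow_succ', Module.End.mul_apply, ih, sg_apply, clMap_mk0]
      congr 2
      exact Subtype.ext (D.QI_succ β η k)
  rw [Finset.sum_congr rfl fun i _ => by rw [map_pow, aeval_X, hk i]]
  rw [← ofMul_prod, ← map_prod]
  have h1 : ClassGroup.mk0 (∏ i ∈ Finset.range ℓ, (⟨D.QI β η i, hQ i⟩ : (Ideal B)⁰)) = 1 := by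
    rw [ClassGroup.mk0_eq_one_iff, Submonoid.coe_finset_prod, D.prod_QI hη he]
    exact ⟨⟨_, rfl⟩⟩
  rw [h1, ofMul_one]

end Pool.Agent.TH958.SJ
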