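import Mathlib

set_option autoImplicit false
set_option linter.all false
set_option maxHeartbeats 1000000

/-!
A lower bound for the rank of an abelian group with an automorphism killed by the cyclotomic
polynomial on a given family.
-/

open Polynomial

namespace Pool.Agent.TH958.SJ.Lin

variable {ℓ : ℕ}

/-- the ring of integers of the cyclotomic field -/
abbrev R0 (ℓ : ℕ) : Type := AdjoinRoot (cyclotomic ℓ ℤ)

lemma mk_surj : Function.Surjective (AdjoinRoot.mk (cyclotomic ℓ ℤ)) := AdjoinRoot.mk_surjective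

lemma isDomain (hp : ℓ.Prime) : IsDomain (R0 ℓ) :=
  AdjoinRoot.isDomain_of_prime (cyclotomic.irreducible hp.pos).prime

lemma lam_ne (hp : ℓ.Prime) (hodd : ℓ ≠ 2) :
    AdjoinRoot.mk (cyclotomic ℓ ℤ) (X - 1) ≠ 0 := by
  intro h
  rw [AdjoinRoot.mk_eq_zero] at h
  have h1 := natDegree_le_of_dvd h (by
    rw [← C_1]; exact X_sub_C_ne_zero 1)
  rw [natDegree_cyclotomic, Nat.totient_prime hp, ← C_1, natDegree_X_sub_C] at h1
  have := hp.two_le
  omega

lemma lam_pow (hp : ℓ.Prime) : ∃ w : R0 ℓ,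
    (AdjoinRoot.mk (cyclotomic ℓ ℤ) (X - 1)) ^ (ℓ - 1) = (ℓ : R0 ℓ) * w := by
  have : Fact ℓ.Prime := ⟨hp⟩
  have h1 : cyclotomic ℓ (ZMod ℓ) = (X - 1) ^ (ℓ - 1) := by
    have := cyclotomic_mul_prime_eq_pow_of_not_dvd (ZMod ℓ) (p := ℓ) (n := 1)
      (fun h => hp.one_lt.ne' (Nat.dvd_one.1 h))
    rw [one_mul, cyclotomic_one] at this
    exact this
  have h2 : C (ℓ : ℤ) ∣ (X - 1) ^ (ℓ - 1) - cyclotomic ℓ ℤ := by
    rw [C_dvd_iff_dvd_coeff]
    intro i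
    rw [← ZMod.intCast_zmod_eq_zero_iff_dvd]
    have h3 : ((X - 1) ^ (ℓ - 1) - cyclotomic ℓ ℤ : ℤ[X]).map (Int.castRingHom (ZMod ℓ)) = 0 := by
      rw [Polynomial.map_sub, map_cyclotomic, h1, Polynomial.map_pow, Polynomial.map_sub, map_X,
        Polynomial.map_one, sub_self]
    have h4 := congrArg (fun p => coeff p i) h3
    rw [coeff_map, coeff_zero] at h4
    exact h4
  obtain ⟨W, hW⟩ := h2
  refine ⟨AdjoinRoot.mk _ W, ?_⟩
  have h5 : ((X - 1) ^ (ℓ - 1) : ℤ[X]) = cyclotomic ℓ ℤ + C (ℓ : ℤ) * W := by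
    rw [← hW]; ring
  rw [← map_pow, h5, map_add, AdjoinRoot.mk_self, zero_add, map_mul,
    show (C (ℓ : ℤ) : ℤ[X]) = ((ℓ : ℕ) : ℤ[X]) by simp, map_natCast]

/-- `ℓ` is a multiple of `X - 1` -/
lemma ell_mem (hp : ℓ.Prime) : ∃ w : R0 ℓ, (ℓ : R0 ℓ) = AdjoinRoot.mk (cyclotomic ℓ ℤ) (X - 1) * w := by
  have : Fact ℓ.Prime := ⟨hp⟩
  obtain ⟨g, hg⟩ := dvd_iff_isRoot.2 (show IsRoot (cyclotomic ℓ ℤ - C (ℓ : ℤ)) 1 by
    rw [IsRoot.def, eval_sub, eval_C, eval_one_cyclotomic_prime, sub_self])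
  refine ⟨-AdjoinRoot.mk _ g, ?_⟩
  rw [C_1] at hg
  have h5 : (C (ℓ : ℤ) : ℤ[X]) = cyclotomic ℓ ℤ - (X - 1) * g := by
    rw [← hg]; ring
  have h6 : (ℓ : R0 ℓ) = AdjoinRoot.mk (cyclotomic ℓ ℤ) (C (ℓ : ℤ)) := by
    rw [show (C (ℓ : ℤ) : ℤ[X]) = ((ℓ : ℕ) : ℤ[X]) by simp, map_natCast]
  rw [h6, h5, map_sub, AdjoinRoot.mk_self, map_mul]
  ring

lemma mem_lam (hp : ℓ.Prime) {n : ℤ[X]} (hn : (ℓ : ℤ) ∣ n.eval 1) :
    ∃ w : R0 ℓ, AdjoinRoot.mk (cyclotomic ℓ ℤ) n = AdjoinRoot.mk (cyclotomic ℓ ℤ) (X - 1) * w := by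
  obtain ⟨g, hg⟩ := dvd_iff_isRoot.2 (show IsRoot (n - C (n.eval 1)) 1 by
    rw [IsRoot.def, eval_sub, eval_C, sub_self])
  rw [C_1] at hg
  obtain ⟨k, hk⟩ := hn
  obtain ⟨w, hw⟩ := ell_mem hp
  refine ⟨AdjoinRoot.mk _ g + w * AdjoinRoot.mk _ (C k), ?_⟩
  have h5 : n = (X - 1) * g + C (ℓ : ℤ) * C k := by
    rw [← hg, ← C_mul, ← hk]; ring
  have h6 : (ℓ : R0 ℓ) = AdjoinRoot.mk (cyclotomic ℓ ℤ) (C (ℓ : ℤ)) := by
    rw [show (C (ℓ : ℤ) : ℤ[X]) = ((ℓ : ℕ) : ℤ[X]) by simp, map_natCast]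
  rw [h5, map_add, map_mul, map_mul, ← h6]
  linear_combination (AdjoinRoot.mk (cyclotomic ℓ ℤ) (C k)) * hw

variable {M : Type} [AddCommGroup M] (σ : M →ₗ[ℤ] M)

lemma well (P : M) (hΦ : aeval σ (cyclotomic ℓ ℤ) P = 0) {n m : ℤ[X]}
    (h : AdjoinRoot.mk (cyclotomic ℓ ℤ) n = AdjoinRoot.mk (cyclotomic ℓ ℤ) m) :
    aeval σ n P = aeval σ m P := by
  rw [AdjoinRoot.mk_eq_mk] at h
  obtain ⟨g, hg⟩ := h
  have h1 : n = m + g * cyclotomic ℓ ℤ := by rw [mul_comm, ← hg]; ring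
  rw [h1, map_add, map_mul, LinearMap.add_apply, Module.End.mul_apply, hΦ, map_zero, add_zero]

/-- the map given by a point -/
noncomputable def psi (P : M) (hΦ : aeval σ (cyclotomic ℓ ℤ) P = 0) : R0 ℓ →+ M where
  toFun r := aeval σ (Function.surjInv mk_surj r) P
  map_zero' := by
    rw [well σ P hΦ (m := 0) (by rw [Function.surjInv_eq mk_surj, map_zero]), map_zero]; rfl
  map_add' r s := by
    rw [well σ P hΦ (n := Function.surjInv mk_surj (r + s))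
      (m := Function.surjInv mk_surj r + Function.surjInv mk_surj s)
      (by rw [map_add, Function.surjInv_eq mk_surj, Function.surjInv_eq mk_surj,
        Function.surjInv_eq mk_surj]), map_add]
    rfl

lemma psi_mk (P : M) (hΦ : aeval σ (cyclotomic ℓ ℤ) P = 0) (n : ℤ[X]) :
    psi σ P hΦ (AdjoinRoot.mk _ n) = aeval σ n P :=
  well σ P hΦ (Function.surjInv_eq mk_surj _)

variable {ι : Type} [Fintype ι] (P : ι → M) (hΦ : ∀ i, aeval σ (cyclotomic ℓ ℤ) (P i) = 0)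

/-- the map given by the family -/
noncomputable def Psi : (ι → R0 ℓ) →ₗ[ℤ] M :=
  AddMonoidHom.toIntLinearMap
    { toFun := fun v => ∑ i, psi σ (P i) (hΦ i) (v i)
      map_zero' := by simp
      map_add' := fun v w => by
        rw [← Finset.sum_add_distrib]
        exact Finset.sum_congr rfl fun i _ => by rw [Pi.add_apply, map_add] }

lemma Psi_apply (v : ι → R0 ℓ) : Psi σ P hΦ v = ∑ i, psi σ (P i) (hΦ i) (v i) := rfl

lemma Psi_mk (n : ι → ℤ[X]) : Psi σ P hΦ (fun i => AdjoinRoot.mk _ (n i)) =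
    ∑ i, aeval σ (n i) (P i) := by
  rw [Psi_apply]
  exact Finset.sum_congr rfl fun i _ => psi_mk σ _ _ _

lemma Psi_smul (n : ℤ[X]) (v : ι → R0 ℓ) :
    Psi σ P hΦ (AdjoinRoot.mk (cyclotomic ℓ ℤ) n • v) = aeval σ n (Psi σ P hΦ v) := by
  choose m hm using fun i => mk_surj (v i)
  have hv : v = fun i => AdjoinRoot.mk _ (m i) := funext fun i => (hm i).symm
  have hv2 : (AdjoinRoot.mk (cyclotomic ℓ ℤ) n • v) = fun i => AdjoinRoot.mk _ (n * m i) := by
    funext i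
    rw [Pi.smul_apply, smul_eq_mul, ← hm i, map_mul]
  rw [hv2, Psi_mk, hv, Psi_mk, map_sum]
  exact Finset.sum_congr rfl fun i _ => by rw [map_mul, Module.End.mul_apply]

/-- the elements mapped to fixed elements -/
noncomputable def NN : Submodule ℤ (ι → R0 ℓ) := LinearMap.ker ((σ - 1) ∘ₗ Psi σ P hΦ)

lemma mem_NN (v : ι → R0 ℓ) : v ∈ NN σ P hΦ ↔ σ (Psi σ P hΦ v) = Psi σ P hΦ v := by
  unfold NN
  rw [LinearMap.mem_ker, LinearMap.comp_apply, LinearMap.sub_apply, Module.End.one_apply, sub_eq_zero]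

lemma smul_mem (r : R0 ℓ) {v : ι → R0 ℓ} (hv : v ∈ NN σ P hΦ) : r • v ∈ NN σ P hΦ := by
  obtain ⟨n, rfl⟩ := mk_surj r
  rw [mem_NN] at hv ⊢
  rw [Psi_smul]
  have h1 : σ (aeval σ n (Psi σ P hΦ v)) = aeval σ n (σ (Psi σ P hΦ v)) := by
    have h2 : aeval σ (X * n) = aeval σ (n * X) := by rw [mul_comm]
    rw [map_mul, map_mul, aeval_X] at h2
    exact congrArg (fun g => g (Psi σ P hΦ v)) h2
  rw [h1, hv]

/-- multiplication by an element on `NN` -/
noncomputable def mulN (r : R0 ℓ) : NN σ P hΦ →+ NN σ P hΦ where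
  toFun v := ⟨r • v.1, smul_mem σ P hΦ r v.2⟩
  map_zero' := Subtype.ext (smul_zero r)
  map_add' v w := Subtype.ext (smul_add r v.1 w.1)

lemma mulN_val (r : R0 ℓ) (v : NN σ P hΦ) : (mulN σ P hΦ r v).1 = r • v.1 := rfl

lemma mulN_inj (hp : ℓ.Prime) {r : R0 ℓ} (hr : r ≠ 0) : Function.Injective (mulN σ P hΦ r) := by
  haveI := isDomain hp
  intro v w h
  apply Subtype.ext
  have h1 := congrArg Subtype.val h
  rw [mulN_val, mulN_val] at h1
  funext i
  have h2 := congrFun h1 i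
  rw [Pi.smul_apply, Pi.smul_apply, smul_eq_mul, smul_eq_mul] at h2
  exact mul_left_cancel₀ hr h2

section main

variable (hp : ℓ.Prime) (hodd : ℓ ≠ 2) (hfin : Finite {c : M // σ c = c})
    (hcard : Nat.card {c : M // σ c = c} ≤ ℓ ^ 2)
    (hrel : ∀ n : ι → ℤ[X], ∑ i, aeval σ (n i) (P i) = 0 → ∀ i, (ℓ : ℤ) ∣ (n i).eval 1)

include hp hfin hcard hrel in
lemma index_le :
    (mulN σ P hΦ (AdjoinRoot.mk (cyclotomic ℓ ℤ) (X - 1))).range.index ≠ 0 ∧
    (mulN σ P hΦ (AdjoinRoot.mk (cyclotomic ℓ ℤ) (X - 1))).range.index ≤ ℓ ^ 2 := by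
  set x := AdjoinRoot.mk (cyclotomic ℓ ℤ) (X - 1) with hx
  set g : NN σ P hΦ →+ M := (Psi σ P hΦ).toAddMonoidHom.comp (NN σ P hΦ).subtype.toAddMonoidHom with hg
  have hgv : ∀ v : NN σ P hΦ, g v = Psi σ P hΦ v.1 := fun v => rfl
  have hxs : ∀ v, Psi σ P hΦ (x • v) = σ (Psi σ P hΦ v) - Psi σ P hΦ v := by
    intro v
    rw [hx, Psi_smul, map_sub, aeval_X, map_one]; rfl
  have h1 : (mulN σ P hΦ x).range = g.ker := by
    ext v
    rw [AddMonoidHom.mem_ker, AddMonoidHom.mem_range, hgv]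
    constructor
    · rintro ⟨w, rfl⟩
      rw [mulN_val, hxs, sub_eq_zero]
      exact (mem_NN σ P hΦ _).1 w.2
    · intro h0
      choose m hm using fun i => mk_surj (v.1 i)
      have hv : v.1 = fun i => AdjoinRoot.mk _ (m i) := funext fun i => (hm i).symm
      have h2 := h0
      rw [hv, Psi_mk] at h2
      choose w hw using fun i => mem_lam hp (hrel m h2 i)
      have hvw : v.1 = x • w := by
        rw [hv]
        funext i
        rw [hw i]; rfl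
      have hwN : w ∈ NN σ P hΦ := by
        rw [mem_NN, ← sub_eq_zero, ← hxs, ← hvw, h0]
      exact ⟨⟨w, hwN⟩, Subtype.ext hvw.symm⟩
  rw [h1, AddSubgroup.index_ker]
  have hmem : ∀ z : g.range, σ z.1 = z.1 := by
    rintro ⟨z, v, rfl⟩
    exact (mem_NN σ P hΦ _).1 v.2
  have hinj : Function.Injective (fun z : g.range => (⟨z.1, hmem z⟩ : {c : M // σ c = c})) := by
    intro a b h
    exact Subtype.ext (Subtype.mk.inj h)
  have hf2 : Finite g.range := Finite.of_injective _ hinj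
  exact ⟨Nat.card_pos.ne', (Nat.card_le_card_of_injective _ hinj).trans hcard⟩

lemma mulN_pow (r : R0 ℓ) (k : ℕ) : (mulN σ P hΦ (r ^ (k + 1))).range =
    (mulN σ P hΦ (r ^ k)).range.map (mulN σ P hΦ r) := by
  ext v
  rw [AddMonoidHom.mem_range, AddSubgroup.mem_map]
  constructor
  · rintro ⟨w, rfl⟩
    refine ⟨mulN σ P hΦ (r ^ k) w, ⟨w, rfl⟩, Subtype.ext ?_⟩
    rw [mulN_val, mulN_val, mulN_val, smul_smul, pow_succ']
  · rintro ⟨_, ⟨w, rfl⟩, rfl⟩
    refine ⟨w, Subtype.ext ?_⟩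
    rw [mulN_val, mulN_val, mulN_val, smul_smul, pow_succ']

include hp in
lemma index_pow {r : R0 ℓ} (hr : r ≠ 0) (k : ℕ) : (mulN σ P hΦ (r ^ k)).range.index =
    (mulN σ P hΦ r).range.index ^ k := by
  induction k with
  | zero =>
    rw [pow_zero, pow_zero, AddSubgroup.index_eq_one, eq_top_iff]
    intro v _
    exact ⟨v, Subtype.ext (by rw [mulN_val, one_smul])⟩
  | succ k ih =>
    rw [mulN_pow, AddSubgroup.index_map, (AddMonoidHom.ker_eq_bot_iff _).2 (mulN_inj σ P hΦ hp hr),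
      sup_bot_eq, ih, pow_succ]

instance free_R0 : Module.Free ℤ (R0 ℓ) :=
  Module.Free.of_basis (AdjoinRoot.powerBasis' (cyclotomic.monic ℓ ℤ)).basis

instance finite_R0 : Module.Finite ℤ (R0 ℓ) :=
  Module.Finite.of_basis (AdjoinRoot.powerBasis' (cyclotomic.monic ℓ ℤ)).basis

lemma finrank_R0 (hp : ℓ.Prime) : Module.finrank ℤ (R0 ℓ) = ℓ - 1 := by
  have h := (AdjoinRoot.powerBasis' (cyclotomic.monic ℓ ℤ)).finrank
  rw [h, AdjoinRoot.powerBasis'_dim, natDegree_cyclotomic, Nat.totient_prime hp]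

include hp hodd hfin hcard hrel in
lemma finrank_NN : Module.finrank ℤ (NN σ P hΦ) ≤ 2 * (ℓ - 1) := by
  classical
  have : Fact ℓ.Prime := ⟨hp⟩
  set x := AdjoinRoot.mk (cyclotomic ℓ ℤ) (X - 1) with hx
  have hx0 : x ≠ 0 := lam_ne hp hodd
  obtain ⟨hi0, hi⟩ := index_le σ P hΦ hp hfin hcard hrel
  rw [← hx] at hi0 hi
  have hpow := index_pow σ P hΦ hp hx0 (ℓ - 1)
  set r := Module.finrank ℤ (NN σ P hΦ) with hr
  let b := Module.finBasis ℤ (NN σ P hΦ)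
  let q : NN σ P hΦ →+ (Fin r → ZMod ℓ) :=
    { toFun := fun v i => ((b.repr v i : ℤ) : ZMod ℓ)
      map_zero' := by funext i; simp
      map_add' := fun v w => by funext i; simp }
  have hqs : Function.Surjective q := by
    intro z
    choose m hm using fun i => ZMod.intCast_surjective (z i)
    refine ⟨∑ i, m i • b i, ?_⟩
    funext i
    show ((b.repr (∑ i, m i • b i) i : ℤ) : ZMod ℓ) = z i
    rw [b.repr_sum_self, hm]
  have hle : (mulN σ P hΦ (x ^ (ℓ - 1))).range ≤ q.ker := by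
    rintro _ ⟨v, rfl⟩
    obtain ⟨w, hw⟩ := lam_pow hp
    have h1 : mulN σ P hΦ (x ^ (ℓ - 1)) v = (ℓ : ℕ) • mulN σ P hΦ w v := by
      apply Subtype.ext
      rw [mulN_val, hx, hw]
      show ((ℓ : R0 ℓ) * w) • v.1 = (ℓ : ℕ) • (w • v.1)
      rw [mul_smul, Nat.cast_smul_eq_nsmul]
    rw [AddMonoidHom.mem_ker, h1, map_nsmul]
    funext i
    rw [Pi.smul_apply, nsmul_eq_mul, CharP.cast_eq_zero, zero_mul]; rfl
  have h2 := AddSubgroup.index_dvd_of_le hle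
  rw [AddSubgroup.index_ker, AddMonoidHom.range_eq_top.2 hqs, hpow] at h2
  have h3 : Nat.card (⊤ : AddSubgroup (Fin r → ZMod ℓ)) = ℓ ^ r := by
    rw [AddSubgroup.card_top, Nat.card_fun, Nat.card_zmod, Nat.card_fin]
  rw [h3] at h2
  have h4 := Nat.le_of_dvd (Nat.pos_of_ne_zero (pow_ne_zero _ hi0)) h2
  have h5 : ℓ ^ r ≤ ℓ ^ (2 * (ℓ - 1)) := by
    refine h4.trans ?_
    rw [pow_mul]
    exact Nat.pow_le_pow_left hi _
  exact (Nat.pow_le_pow_iff_right hp.one_lt).1 h5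

include hΦ hp hodd hfin hcard hrel in
theorem exists_independent : ∃ Q : Fin ((ℓ - 1) * (Fintype.card ι - 2)) → M,
    LinearIndependent ℤ Q := by
  classical
  have h1 := finrank_NN σ P hΦ hp hodd hfin hcard hrel
  have h2 : Module.finrank ℤ (LinearMap.ker (Psi σ P hΦ)) ≤ Module.finrank ℤ (NN σ P hΦ) := by
    apply Submodule.finrank_mono
    intro v hv
    rw [mem_NN, LinearMap.mem_ker.1 hv, map_zero]
  have h3 := Submodule.finrank_quotient_add_finrank (LinearMap.ker (Psi σ P hΦ))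
  rw [(Psi σ P hΦ).quotKerEquivRange.finrank_eq, Module.finrank_pi_fintype, Finset.sum_const, finrank_R0 hp, Finset.card_univ, smul_eq_mul] at h3
  have h4 : (ℓ - 1) * (Fintype.card ι - 2) ≤ Module.finrank ℤ (LinearMap.range (Psi σ P hΦ)) := by
    rw [Nat.mul_sub, mul_comm (ℓ - 1) (Fintype.card ι)]
    omega
  obtain ⟨s, hs, hli⟩ := exists_finset_linearIndependent_of_le_finrank h4
  have e : Fin ((ℓ - 1) * (Fintype.card ι - 2)) ≃ s := (finCongr hs.symm).trans s.equivFin.symm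
  refine ⟨fun i => ((e i).1 : M), ?_⟩
  have h5 := hli.comp e e.injective
  exact h5.map' (LinearMap.range (Psi σ P hΦ)).subtype (Submodule.ker_subtype _)

end main

end Pool.Agent.TH958.SJ.Lin
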