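import Pool.Agent.TH958.SJ.Eig

set_option autoImplicit false
set_option linter.all false
set_option maxHeartbeats 1000000

open Polynomial

namespace Pool.Agent.TH958.SJ

variable {K : Type} [Field K] {L F B : Type} [Field L] [Field F] [CommRing B]
    [Algebra K[X] L] [Algebra L F] [Algebra K[X] F] [Algebra K[X] B] [Algebra B F]
    {ℓ : ℕ} {f : K[X]} [IsFractionRing K[X] L] [IsScalarTower K[X] L F]
    [IsScalarTower K[X] B F] [IsIntegralClosure B K[X] F] [FiniteDimensional L F] [IsDomain B]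

lemma rm_pow {K : Type} [Field K] (p : K[X]) (α : K) (n : ℕ) :
    rootMultiplicity α (p ^ n) = n * rootMultiplicity α p := by
  classical
  rw [← count_roots, ← count_roots, roots_pow, Multiset.count_nsmul]

namespace Cov

variable (D : Cov K L F B ℓ f)

include D in
lemma inj_BF : Function.Injective (algebraMap B F) :=
  IsIntegralClosure.algebraMap_injective B K[X] F

omit [IsIntegralClosure B K[X] F] [FiniteDimensional L F] [IsDomain B] in
include D in
lemma inj_AB : Function.Injective (algebraMap K[X] B) := by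
  have h1 : Function.Injective (algebraMap K[X] F) := by
    rw [IsScalarTower.algebraMap_eq K[X] L F]
    exact (algebraMap L F).injective.comp (IsFractionRing.injective K[X] L)
  rw [IsScalarTower.algebraMap_eq K[X] B F] at h1
  exact Function.Injective.of_comp h1

lemma fixed {b : B} (h : D.s b = b) : ∃ a : K[X], algebraMap K[X] B a = b := by
  have h1 : D.σ (algebraMap B F b) = algebraMap B F b := by rw [← D.hs, h]
  obtain ⟨l, hl⟩ := D.hσ _ h1
  have h2 : IsIntegral K[X] (algebraMap B F b) :=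
    (IsIntegralClosure.isIntegral_iff (A := B)).2 ⟨b, rfl⟩
  rw [← hl] at h2
  have h3 : IsIntegral K[X] l :=
    (isIntegral_algebraMap_iff (algebraMap L F).injective).1 h2
  obtain ⟨a, ha⟩ := (IsIntegrallyClosed.isIntegral_iff (R := K[X]) (K := L)).1 h3
  refine ⟨a, D.inj_BF ?_⟩
  rw [← hl, ← ha, ← IsScalarTower.algebraMap_apply, ← IsScalarTower.algebraMap_apply]

lemma eig_zero {b : B} (h : D.Eig 0 b) : ∃ a : K[X], algebraMap K[X] B a = b := by
  apply D.fixed
  unfold Eig at h
  rw [h, pow_zero, C_1, one_smul]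

lemma eig_mod {j : ℕ} {b : B} (h : D.Eig j b) (hj : ℓ ∣ j) : D.Eig 0 b := by
  unfold Eig at *
  obtain ⟨k, rfl⟩ := hj
  rw [h, pow_mul, D.hζ.pow_eq_one, one_pow, pow_zero]

lemma eig_pow {j : ℕ} {b : B} (h : D.Eig j b) : ∃ a : K[X], algebraMap K[X] B a = b ^ ℓ :=
  D.eig_zero (D.eig_mod (h.pow ℓ) (dvd_mul_right _ _))

lemma y_ne : D.y ≠ 0 := by
  intro h
  have h1 := D.hy
  rw [h, zero_pow D.hp.ne_zero] at h1
  exact D.hf (D.inj_AB (by rw [← h1, map_zero]))

/-- an eigenvector is a multiple of a power of `y` -/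
lemma eig_frac {j : ℕ} {e : B} (h : D.Eig j e) :
    ∃ u w : K[X], w ≠ 0 ∧ algebraMap K[X] B w * e = algebraMap K[X] B u * D.y ^ j := by
  have hyF : algebraMap B F D.y ≠ 0 := by
    intro h0
    exact D.y_ne (D.inj_BF (by rw [h0, map_zero]))
  have hzF : algebraMap K[X] F (C (D.ζ ^ j)) ≠ 0 := by
    rw [IsScalarTower.algebraMap_apply K[X] B F]
    intro h0
    have h1 : algebraMap K[X] B (C (D.ζ ^ j)) = 0 := D.inj_BF (by rw [h0, map_zero])
    have h2 : (C (D.ζ ^ j) : K[X]) = 0 := D.inj_AB (by rw [h1, map_zero])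
    exact pow_ne_zero j D.zpow_ne (C_eq_zero.1 h2)
  have h1 : D.σ (algebraMap B F e / algebraMap B F D.y ^ j) =
      algebraMap B F e / algebraMap B F D.y ^ j := by
    have e1 : D.σ (algebraMap B F e) = algebraMap K[X] F (C (D.ζ ^ j)) * algebraMap B F e := by
      rw [← D.hs, h, Algebra.smul_def, map_mul, ← IsScalarTower.algebraMap_apply]
    have e2 : D.σ (algebraMap B F D.y ^ j) =
        algebraMap K[X] F (C (D.ζ ^ j)) * algebraMap B F D.y ^ j := by
      have := D.eig_y_pow j
      unfold Eig at this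
      rw [← map_pow, ← D.hs, this, Algebra.smul_def, map_mul, ← IsScalarTower.algebraMap_apply]
    rw [map_div₀, e1, e2, mul_div_mul_left _ _ hzF]
  obtain ⟨l, hl⟩ := D.hσ _ h1
  obtain ⟨u, w, hw, hl2⟩ := IsFractionRing.div_surjective (A := K[X]) l
  have hw0 : w ≠ 0 := nonZeroDivisors.ne_zero hw
  refine ⟨u, w, hw0, D.inj_BF ?_⟩
  rw [map_mul, map_mul, map_pow, ← IsScalarTower.algebraMap_apply, ← IsScalarTower.algebraMap_apply]
  have h3 : algebraMap K[X] F w ≠ 0 := by
    rw [IsScalarTower.algebraMap_apply K[X] L F]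
    exact (_root_.map_ne_zero _).2 (IsFractionRing.to_map_ne_zero_of_mem_nonZeroDivisors hw)
  have h4 : algebraMap L F l = algebraMap K[X] F u / algebraMap K[X] F w := by
    rw [← hl2, map_div₀, ← IsScalarTower.algebraMap_apply, ← IsScalarTower.algebraMap_apply]
  rw [h4] at hl
  have h5 := (div_eq_div_iff h3 (pow_ne_zero j hyF)).1 hl
  rw [h5]; ring

lemma eig_frac_pow {j : ℕ} {e : B} (h : D.Eig j e) {a : K[X]} (ha : algebraMap K[X] B a = e ^ ℓ) :
    ∃ u w : K[X], w ≠ 0 ∧ w ^ ℓ * a = u ^ ℓ * f ^ j := by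
  obtain ⟨u, w, hw, h1⟩ := D.eig_frac h
  refine ⟨u, w, hw, D.inj_AB ?_⟩
  have h2 := congrArg (· ^ ℓ) h1
  simp only [mul_pow] at h2
  rw [← ha, ← pow_mul, mul_comm j ℓ, pow_mul, D.hy] at h2
  simpa only [map_mul, map_pow] using h2

lemma root_dvd {j : ℕ} (hj : ¬ ℓ ∣ j) {e : B} (h : D.Eig j e) {a : K[X]}
    (ha : algebraMap K[X] B a = e ^ ℓ) {α : K} (hα : f.rootMultiplicity α = 1) : a.eval α = 0 := by
  by_cases ha0 : a = 0
  · rw [ha0, eval_zero]
  obtain ⟨u, w, hw, h1⟩ := D.eig_frac_pow h ha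
  have hu : u ≠ 0 := by
    rintro rfl
    rw [zero_pow D.hp.ne_zero, zero_mul] at h1
    exact mul_ne_zero (pow_ne_zero _ hw) ha0 h1
  have h2 := congrArg (rootMultiplicity α) h1
  rw [rootMultiplicity_mul (mul_ne_zero (pow_ne_zero _ hw) ha0),
    rootMultiplicity_mul (mul_ne_zero (pow_ne_zero _ hu) (pow_ne_zero _ D.hf)),
    rm_pow, rm_pow, rm_pow, hα, mul_one] at h2
  by_contra hne
  have h3 : rootMultiplicity α a = 0 := rootMultiplicity_eq_zero hne
  rw [h3, add_zero] at h2
  exact hj ((Nat.dvd_add_right (dvd_mul_right ℓ _)).1 (h2 ▸ dvd_mul_right ℓ _))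

/-- the norm -/
lemma norm_prod [IsGalois L F] [Module.Finite K[X] B] [Module.IsTorsionFree K[X] B]
    [IsIntegrallyClosed B] (b : B) :
    algebraMap K[X] B (Algebra.intNorm K[X] B b) = ∏ i ∈ Finset.range ℓ, D.s^[i] b := by
  classical
  have : IsLocalization (Algebra.algebraMapSubmonoid B (nonZeroDivisors K[X])) F :=
    IsIntegralClosure.isLocalization K[X] L F B
  apply D.inj_BF
  rw [← IsScalarTower.algebraMap_apply K[X] B F, IsScalarTower.algebraMap_apply K[X] L F,
    Algebra.algebraMap_intNorm (A := K[X]) (K := L) (L := F) (B := B),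
    Algebra.norm_eq_prod_automorphisms, map_prod]
  have h1 : ∀ i, algebraMap B F (D.s^[i] b) = (D.σ ^ i) (algebraMap B F b) := by
    intro i
    induction i with
    | zero => rfl
    | succ n ih =>
      rw [Function.iterate_succ_apply', D.hs, ih, pow_succ']
      rfl
  rw [Finset.prod_congr rfl fun i _ => h1 i]
  have h2 := IsCyclic.image_range_card D.hgen
  rw [D.hcard] at h2
  rw [← h2, Finset.prod_image]
  intro i hi j hj hij
  have hi' := Finset.mem_range.1 hi
  have hj' := Finset.mem_range.1 hj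
  have hord : orderOf D.σ = ℓ :=
    (orderOf_eq_card_of_forall_mem_zpowers D.hgen).trans D.hcard
  exact pow_injOn_Iio_orderOf (by rw [hord]; exact hi') (by rw [hord]; exact hj') hij

end Cov

end Pool.Agent.TH958.SJ
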