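import Pool.Agent.TH958.SJ.Amb

set_option autoImplicit false
set_option linter.all false
set_option maxHeartbeats 1000000

open Polynomial
open scoped nonZeroDivisors

namespace Pool.Agent.TH958.SJ

lemma prod_span_pair_le {B ι : Type} [CommRing B] (s : Finset ι) (a : B) (b : ι → B) :
    ∏ i ∈ s, Ideal.span {a, b i} ≤ Ideal.span {a, ∏ i ∈ s, b i} := by
  classical
  induction s using Finset.induction_on with
  | empty =>
    rw [Finset.prod_empty, Finset.prod_empty, Ideal.one_eq_top]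
    refine le_of_eq ?_
    symm
    rw [Ideal.eq_top_iff_one]
    exact Ideal.subset_span (by simp)
  | insert j s hj ih =>
    rw [Finset.prod_insert hj, Finset.prod_insert hj]
    refine (Ideal.mul_mono_right ih).trans ?_
    rw [Ideal.span_pair_mul_span_pair, Ideal.span_le]
    have ha : a ∈ Ideal.span {a, b j * ∏ i ∈ s, b i} := Ideal.subset_span (by simp)
    rintro z (rfl | rfl | rfl | rfl)
    · exact Ideal.mul_mem_left _ _ ha
    · exact Ideal.mul_mem_right _ _ ha
    · exact Ideal.mul_mem_left _ _ ha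
    · exact Ideal.subset_span (by simp)

variable {K : Type} [Field K] {L F B : Type} [Field L] [Field F] [CommRing B]
    [Algebra K[X] L] [Algebra L F] [Algebra K[X] F] [Algebra K[X] B] [Algebra B F]
    {ℓ : ℕ} {f : K[X]} [IsFractionRing K[X] L] [IsScalarTower K[X] L F]
    [IsScalarTower K[X] B F] [IsIntegralClosure B K[X] F] [FiniteDimensional L F]
    [IsDedekindDomain B]

namespace Cov

variable (D : Cov K L F B ℓ f)

/-- the ideal `(x - β, ζ ^ i y - η)` -/
noncomputable def QI (β η : K) (i : ℕ) : Ideal B :=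
  Ideal.span {algebraMap K[X] B (X - C β),
    algebraMap K[X] B (C (D.ζ ^ i)) * D.y - algebraMap K[X] B (C η)}

lemma QI_succ (β η : K) (i : ℕ) :
    (D.QI β η i).map ((D.s : B ≃+* B) : B →+* B) = D.QI β η (i + 1) := by
  unfold QI
  rw [Ideal.map_span, Set.image_pair]
  have e1 : ((D.s : B ≃+* B) : B →+* B) (algebraMap K[X] B (X - C β)) =
      algebraMap K[X] B (X - C β) := D.s.commutes _
  have e2 : ((D.s : B ≃+* B) : B →+* B) (algebraMap K[X] B (C (D.ζ ^ i)) * D.y -
      algebraMap K[X] B (C η)) =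
      algebraMap K[X] B (C (D.ζ ^ (i + 1))) * D.y - algebraMap K[X] B (C η) := by
    show D.s _ = _
    rw [map_sub, map_mul, D.s.commutes, D.s.commutes, D.hsy, Algebra.smul_def, ← mul_assoc,
      ← map_mul, ← C_mul, ← pow_succ]
  rw [e1, e2]

lemma y_mul_prod (η : B) :
    ∏ i ∈ Finset.range ℓ, (algebraMap K[X] B (C (D.ζ ^ i)) * D.y - η) = D.y ^ ℓ - η ^ ℓ := by
  classical
  have hpos := D.hp.pos
  have hodd := D.hp.odd_of_ne_two D.hodd
  set z : B := algebraMap K[X] B (C D.ζ) with hz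
  have hzp : ∀ i, algebraMap K[X] B (C (D.ζ ^ i)) = z ^ i := by
    intro i; rw [hz, ← map_pow, ← C_pow]
  have hprim : IsPrimitiveRoot z ℓ := by
    have h1 : Function.Injective ((algebraMap K[X] B).comp (C : K →+* K[X])) :=
      (D.inj_AB).comp C_injective
    exact D.hζ.map_of_injective h1
  have h1 := hprim.pow_sub_pow_eq_prod_sub_mul η D.y hpos
  have hinj : Set.InjOn (fun i => z ^ i) (Finset.range ℓ : Set ℕ) := by
    intro i hi j hj hij
    exact hprim.pow_inj (Finset.mem_range.1 (Finset.mem_coe.1 hi))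
        (Finset.mem_range.1 (Finset.mem_coe.1 hj)) hij
  have h2 : nthRootsFinset ℓ (1 : B) = (Finset.range ℓ).image (fun i => z ^ i) := by
    symm
    apply Finset.eq_of_subset_of_card_le
    · intro x hx
      obtain ⟨i, -, rfl⟩ := Finset.mem_image.1 hx
      rw [mem_nthRootsFinset hpos, ← pow_mul, mul_comm, pow_mul, hprim.pow_eq_one, one_pow]
    · rw [hprim.card_nthRootsFinset, Finset.card_image_of_injOn hinj, Finset.card_range]
  rw [h2, Finset.prod_image hinj] at h1
  have h3 : ∏ i ∈ Finset.range ℓ, (algebraMap K[X] B (C (D.ζ ^ i)) * D.y - η) =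
      ∏ i ∈ Finset.range ℓ, (-1) * (η - z ^ i * D.y) :=
    Finset.prod_congr rfl fun i _ => by rw [hzp]; ring
  rw [h3, Finset.prod_mul_distrib, Finset.prod_const, Finset.card_range, ← h1, hodd.neg_one_pow]
  ring

lemma QI_coprime {β η : K} (hη : η ≠ 0) {i j : ℕ} (hi : i < ℓ) (hj : j < ℓ) (hij : i ≠ j) :
    IsCoprime (D.QI β η i) (D.QI β η j) := by
  rw [Ideal.isCoprime_iff_sup_eq, Ideal.eq_top_iff_one]
  set A := algebraMap K[X] B with hA
  have hzne : D.ζ ^ i - D.ζ ^ j ≠ 0 := by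
    intro h0
    exact hij (D.hζ.pow_inj hi hj (sub_eq_zero.1 h0))
  have m1 : A (C (D.ζ ^ i)) * D.y - A (C η) ∈ D.QI β η i ⊔ D.QI β η j :=
    Ideal.mem_sup_left (Ideal.subset_span (Or.inr rfl))
  have m2 : A (C (D.ζ ^ j)) * D.y - A (C η) ∈ D.QI β η i ⊔ D.QI β η j :=
    Ideal.mem_sup_right (Ideal.subset_span (Or.inr rfl))
  have m3 := sub_mem m1 m2
  have e3 : A (C (D.ζ ^ i)) * D.y - A (C η) - (A (C (D.ζ ^ j)) * D.y - A (C η)) =
      A (C (D.ζ ^ i - D.ζ ^ j)) * D.y := by
    rw [C_sub, map_sub]; ring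
  rw [e3] at m3
  have m4 := Ideal.mul_mem_left _ (A (C ((D.ζ ^ i - D.ζ ^ j)⁻¹ * D.ζ ^ i))) m3
  have e4 : A (C ((D.ζ ^ i - D.ζ ^ j)⁻¹ * D.ζ ^ i)) * (A (C (D.ζ ^ i - D.ζ ^ j)) * D.y) =
      A (C (D.ζ ^ i)) * D.y := by
    rw [← mul_assoc, ← map_mul, ← C_mul]
    congr 3
    field_simp
  rw [e4] at m4
  have m5 := sub_mem m4 m1
  have e5 : A (C (D.ζ ^ i)) * D.y - (A (C (D.ζ ^ i)) * D.y - A (C η)) = A (C η) := by ring
  rw [e5] at m5
  have m6 := Ideal.mul_mem_left _ (A (C η⁻¹)) m5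
  rwa [← map_mul, ← C_mul, inv_mul_cancel₀ hη, C_1, map_one] at m6

lemma prod_QI {β η : K} (hη : η ≠ 0) (he : f.eval β = η ^ ℓ) :
    ∏ i ∈ Finset.range ℓ, D.QI β η i = Ideal.span {algebraMap K[X] B (X - C β)} := by
  apply le_antisymm
  · refine (prod_span_pair_le _ _ _).trans ?_
    rw [D.y_mul_prod, Ideal.span_le]
    have h0 : algebraMap K[X] B (X - C β) ∈ Ideal.span {algebraMap K[X] B (X - C β)} :=
      Ideal.mem_span_singleton_self _
    rintro z (rfl | rfl)
    · exact h0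
    · rw [D.hy, ← map_pow, ← C_pow, ← map_sub]
      obtain ⟨g, hg⟩ := dvd_iff_isRoot.2 (show IsRoot (f - C (η ^ ℓ)) β by
        rw [IsRoot.def, eval_sub, eval_C, he, sub_self])
      rw [hg, map_mul]
      exact Ideal.mul_mem_right _ _ h0
  · rw [Ideal.span_singleton_le_iff_mem]
    have h1 : ∏ i ∈ Finset.range ℓ, D.QI β η i = ⨅ i ∈ Finset.range ℓ, D.QI β η i := by
      apply Ideal.prod_eq_iInf_of_pairwise_isCoprime
      intro i hi j hj hij
      exact D.QI_coprime hη (Finset.mem_range.1 hi) (Finset.mem_range.1 hj) hij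
    rw [h1]
    simp only [Submodule.mem_iInf]
    intro i _
    exact Ideal.subset_span (Or.inl rfl)

lemma QI_ne (β η : K) (i : ℕ) : D.QI β η i ≠ ⊥ := by
  intro h
  have h1 : algebraMap K[X] B (X - C β) ∈ D.QI β η i := Ideal.subset_span (by simp)
  rw [h, Ideal.mem_bot] at h1
  exact X_sub_C_ne_zero β (D.inj_AB (by rw [h1, map_zero]))

section
variable [IsGalois L F] [Module.Finite K[X] B] [Module.IsTorsionFree K[X] B]

lemma relNorm_QI {β η : K} (hη : η ≠ 0) (he : f.eval β = η ^ ℓ) :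
    Ideal.relNorm K[X] (D.QI β η 0) = Ideal.span {X - C β} := by
  have h1 : ∀ i, Ideal.relNorm K[X] (D.QI β η i) = Ideal.relNorm K[X] (D.QI β η 0) := by
    intro i
    induction i with
    | zero => rfl
    | succ n ih =>
      rw [← ih, ← D.QI_succ]
      exact Ideal.relNorm_map_algEquiv D.s _
  have h2 := congrArg (Ideal.relNorm K[X]) (D.prod_QI hη he)
  rw [map_prod, Finset.prod_congr rfl fun i _ => h1 i, Finset.prod_const, Finset.card_range,
    Ideal.relNorm_singleton, D.norm_algebraMap, ← Ideal.span_singleton_pow] at h2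
  exact ideal_pow_inj D.hp.ne_zero h2

end

end Cov

end Pool.Agent.TH958.SJ
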