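import Pool.Agent.TH958.SJ.Gam
import Pool.Agent.TH958.SJ.Lin

set_option autoImplicit false
set_option linter.all false
set_option maxHeartbeats 1000000

open Polynomial IsDedekindDomain
open scoped nonZeroDivisors

namespace Pool.Agent.TH958.SJ

section val

variable {k : Type} [Field k]

/-- the prime given by an irreducible polynomial -/
noncomputable def hsp (π : k[X]) (hπ : Irreducible π) : HeightOneSpectrum k[X] where
  asIdeal := Ideal.span {π}
  isPrime := (Ideal.span_singleton_prime hπ.ne_zero).2 hπ.prime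
  ne_bot := by rw [Ne, Ideal.span_singleton_eq_bot]; exact hπ.ne_zero

/-- minus the order at an irreducible polynomial -/
noncomputable def ordAt (π : k[X]) (hπ : Irreducible π) (x : RatFunc k) : ℤ :=
  WithZero.log ((hsp π hπ).valuation (RatFunc k) x)

theorem ordAt_mul (π : k[X]) (hπ : Irreducible π) {f g : RatFunc k} (hf : f ≠ 0) (hg : g ≠ 0) :
    ordAt π hπ (f * g) = ordAt π hπ f + ordAt π hπ g := by
  unfold ordAt
  rw [map_mul, WithZero.log_mul ((Valuation.ne_zero_iff _).2 hf) ((Valuation.ne_zero_iff _).2 hg)]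

theorem ordAt_zpow (π : k[X]) (hπ : Irreducible π) (f : RatFunc k) (n : ℤ) :
    ordAt π hπ (f ^ n) = n * ordAt π hπ f := by
  unfold ordAt
  rw [map_zpow₀, WithZero.log_zpow, smul_eq_mul]

theorem ordAt_pow (π : k[X]) (hπ : Irreducible π) (f : RatFunc k) (n : ℕ) :
    ordAt π hπ (f ^ n) = n * ordAt π hπ f := by
  have := ordAt_zpow π hπ f n
  rwa [zpow_natCast] at this

theorem ordAt_prod (π : k[X]) (hπ : Irreducible π) {ι : Type} (s : Finset ι) (f : ι → RatFunc k)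
    (hf : ∀ i ∈ s, f i ≠ 0) : ordAt π hπ (∏ i ∈ s, f i) = ∑ i ∈ s, ordAt π hπ (f i) := by
  classical
  induction s using Finset.induction_on with
  | empty => unfold ordAt; simp
  | insert j s hj ih =>
    rw [Finset.prod_insert hj, Finset.sum_insert hj, ordAt_mul π hπ
      (hf j (Finset.mem_insert_self _ _))
      (Finset.prod_ne_zero_iff.2 fun i hi => hf i (Finset.mem_insert_of_mem hi)),
      ih fun i hi => hf i (Finset.mem_insert_of_mem hi)]

theorem ordAt_self (π : k[X]) (hπ : Irreducible π) :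
    ordAt π hπ (algebraMap k[X] (RatFunc k) π) = -1 := by
  unfold ordAt
  rw [HeightOneSpectrum.valuation_of_algebraMap,
    HeightOneSpectrum.intValuation_singleton (hsp π hπ) hπ.ne_zero rfl, WithZero.log_exp]

theorem ordAt_of_not_dvd (π : k[X]) (hπ : Irreducible π) {f : k[X]} (hf : ¬ π ∣ f) :
    ordAt π hπ (algebraMap k[X] (RatFunc k) f) = 0 := by
  unfold ordAt
  rw [HeightOneSpectrum.valuation_of_algebraMap]
  have : (hsp π hπ).intValuation f = 1 := by
    rw [HeightOneSpectrum.intValuation_eq_one_iff]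
    intro h
    exact hf (Ideal.mem_span_singleton.1 h)
  rw [this, WithZero.log_one]

end val

section pts

variable {k : Type} [Field k]

/-- the identity behind the points -/
theorem frob_id {p : ℕ} [Fact p.Prime] [CharP k p] {ν ℓ m : ℕ} (hℓ : 1 ≤ ℓ) {z : k}
    (hm : p ^ ν + 1 = ℓ * m) (hz : z ^ (p ^ ν + 1) = 1) (h : k[X]) :
    (C z * h) ^ (ℓ - 1) * (C z * h + 1) * (C z * h + h ^ (p ^ ν + 1)) =
      (C z * h * (C z * h + 1) ^ m) ^ ℓ := by
  have h1 : (C z * h + 1 : k[X]) ^ (p ^ ν) = (C z * h) ^ (p ^ ν) + 1 := by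
    rw [add_pow_char_pow, one_pow]
  have h4 : (C z * h) ^ (p ^ ν + 1) = h ^ (p ^ ν + 1) := by
    rw [mul_pow, ← C_pow, hz, C_1, one_mul]
  have h5 : ((C z * h + 1 : k[X]) ^ m) ^ ℓ = ((C z * h) ^ (p ^ ν) + 1) * (C z * h + 1) := by
    rw [← pow_mul, mul_comm m ℓ, ← hm, pow_succ, h1]
  obtain ⟨r, rfl⟩ : ∃ r, ℓ = r + 1 := ⟨ℓ - 1, by omega⟩
  have e : C z * h + h ^ (p ^ ν + 1) = C z * h * (1 + (C z * h) ^ (p ^ ν)) := by
    rw [← h4, pow_succ]; ring
  rw [mul_pow (C z * h) ((C z * h + 1) ^ m) (r + 1), h5, Nat.add_sub_cancel, e,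
    pow_succ (C z * h) r]
  ring

variable {L F B : Type} [Field L] [Field F] [CommRing B]
    [Algebra (RatFunc k)[X] L] [Algebra L F] [Algebra (RatFunc k)[X] F]
    [Algebra (RatFunc k)[X] B] [Algebra B F]
    [IsFractionRing (RatFunc k)[X] L] [IsScalarTower (RatFunc k)[X] L F]
    [IsScalarTower (RatFunc k)[X] B F] [IsIntegralClosure B (RatFunc k)[X] F]
    [FiniteDimensional L F] [IsDedekindDomain B]
    [IsGalois L F] [Module.Finite (RatFunc k)[X] B] [Module.IsTorsionFree (RatFunc k)[X] B]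

theorem rank_lower {p : ℕ} [hpp : Fact p.Prime] [CharP k p] {ν ℓ : ℕ} (hd : ℓ ∣ p ^ ν + 1)
    {ω : k} (hω : IsPrimitiveRoot ω (p ^ ν + 1)) (h : k[X]) (h0 : h ≠ 0)
    (hdeg : 0 < h.natDegree)
    (hirr : ∀ z : k, z ^ (p ^ ν + 1) = 1 → Irreducible (h - C z))
    (D : Cov (RatFunc k) L F B ℓ (fp ℓ (algebraMap k[X] (RatFunc k) (h ^ (p ^ ν + 1))))) :
    ∃ Q : Fin ((ℓ - 1) * (p ^ ν - 1)) → Additive (ClassGroup B), LinearIndependent ℤ Q := by
  classical
  set d := p ^ ν + 1 with hdd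
  obtain ⟨m, hm⟩ := hd
  have hℓ := D.hp
  have hℓ1 : 1 ≤ ℓ := hℓ.pos
  set am := algebraMap k[X] (RatFunc k) with ham
  have hinj : Function.Injective am := RatFunc.algebraMap_injective k
  have hdpos : 0 < d := by omega
  let ι := {z : k // z ∈ nthRootsFinset d (1 : k)}
  have hι : ∀ z : ι, z.1 ^ d = 1 := fun z => (mem_nthRootsFinset hdpos 1).1 z.2
  have hz0 : ∀ z : ι, z.1 ≠ 0 := by
    intro z hz
    have := hι z
    rw [hz, zero_pow hdpos.ne'] at this
    exact zero_ne_one this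
  have hcard : Fintype.card ι = d := by
    rw [Fintype.card_coe, hω.card_nthRootsFinset]
  have hneg : (-1 : k) ^ d = 1 := by
    rcases hpp.out.eq_two_or_odd' with h2 | h2
    · subst h2
      have : (-1 : k) = 1 := by
        have h3 : ((2 : ℕ) : k) = 0 := CharP.cast_eq_zero k 2
        push_cast at h3
        linear_combination (-1) * h3
      rw [this, one_pow]
    · exact ((h2.pow).add_one).neg_one_pow
  -- the linear factors
  have hfac : ∀ z : ι, (C z.1 * h + 1 : k[X]) = C z.1 * (h - C (-(z.1)⁻¹)) := fun z => by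
    rw [mul_sub, ← C_mul, mul_neg, mul_inv_cancel₀ (hz0 z), C_neg, C_1]; ring
  have hirr' : ∀ z : ι, Irreducible (C z.1 * h + 1 : k[X]) := fun z => by
    rw [hfac]
    have h1 : Irreducible (h - C (-(z.1)⁻¹)) := by
      apply hirr
      rw [neg_eq_neg_one_mul, mul_pow, hneg, one_mul, inv_pow, hι z, inv_one]
    exact (irreducible_isUnit_mul (isUnit_C.2 (isUnit_iff_ne_zero.2 (hz0 z)))).2 h1
  have hnd : ∀ z w : ι, w ≠ z → ¬ (C w.1 * h + 1 : k[X]) ∣ (C z.1 * h + 1) := by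
    intro z w hwz hdv
    have h1 : (C w.1 * h + 1 : k[X]) ∣ C (w.1 - z.1) := by
      have e : (C (w.1 - z.1) : k[X]) = C w.1 * (C z.1 * h + 1) - C z.1 * (C w.1 * h + 1) := by
        rw [C_sub]; ring
      rw [e]
      exact dvd_sub (hdv.mul_left _) (dvd_mul_left _ _)
    have h3 : IsUnit (C (w.1 - z.1) : k[X]) :=
      isUnit_C.2 (isUnit_iff_ne_zero.2 (sub_ne_zero.2 fun hc => hwz (Subtype.ext hc)))
    exact (hirr' w).not_isUnit (isUnit_of_dvd_unit h1 h3)
  have hndh : ∀ z w : ι, ¬ (C w.1 * h + 1 : k[X]) ∣ (C z.1 * h) := by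
    intro z w hdv
    have h1 : (C w.1 * h + 1 : k[X]) ∣ C (z.1) := by
      have e : (C (z.1) : k[X]) = C z.1 * (C w.1 * h + 1) - C w.1 * (C z.1 * h) := by ring
      rw [e]
      exact dvd_sub (dvd_mul_left _ _) (hdv.mul_left _)
    have h3 : IsUnit (C (z.1) : k[X]) := isUnit_C.2 (isUnit_iff_ne_zero.2 (hz0 z))
    exact (hirr' w).not_isUnit (isUnit_of_dvd_unit h1 h3)
  set t : RatFunc k := am (h ^ d) with ht
  have ht0 : t ≠ 0 := by
    rw [ht, Ne, map_eq_zero_iff _ hinj]; exact pow_ne_zero _ h0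
  have ht1 : t ≠ 1 := by
    intro h1
    rw [ht, ← map_one am] at h1
    have h2 := congrArg natDegree (hinj h1)
    rw [natDegree_pow, natDegree_one] at h2
    have : 0 < d * h.natDegree := Nat.mul_pos hdpos hdeg
    omega
  -- the points
  let β : ι → RatFunc k := fun z => am (C z.1 * h)
  let η : ι → RatFunc k := fun z => am (C z.1 * h * (C z.1 * h + 1) ^ m)
  have hη : ∀ z, η z ≠ 0 := fun z => by
    show am _ ≠ 0
    rw [Ne, map_eq_zero_iff _ hinj]
    exact mul_ne_zero (mul_ne_zero (C_ne_zero.2 (hz0 z)) h0) (pow_ne_zero _ (hirr' z).ne_zero)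
  have he : ∀ z, (fp ℓ t).eval (β z) = η z ^ ℓ := fun z => by
    have h1 := frob_id (p := p) (ν := ν) (ℓ := ℓ) (m := m) hℓ1 hm (hι z) h
    have h2 : (fp ℓ t).eval (β z) = β z ^ (ℓ - 1) * (β z + 1) * (β z + t) := by
      unfold fp; simp
    rw [h2]
    show am (C z.1 * h) ^ (ℓ - 1) * (am (C z.1 * h) + 1) * (am (C z.1 * h) + am (h ^ d)) =
      am (C z.1 * h * (C z.1 * h + 1) ^ m) ^ ℓ
    have h3 := congrArg am h1
    rw [map_pow am (C z.1 * h * (C z.1 * h + 1) ^ m) ℓ] at h3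
    rw [← h3]
    simp only [map_mul, map_add, map_pow, map_one]
    rfl
  have hI : ∀ z, D.QI (β z) (η z) 0 ∈ (Ideal B)⁰ := fun z => by
    rw [mem_nonZeroDivisors_iff_ne_zero, Ne, Ideal.zero_eq_bot]; exact D.QI_ne _ _ _
  let c : ι → ClassGroup B := fun z => ClassGroup.mk0 ⟨_, hI z⟩
  have hδ : ∀ z, Gm ℓ t (c z) ((1 + β z) / (t + β z)) := fun z =>
    Gm.point D ht0 (hη z) (he z) ⟨_, hI z⟩ rfl
  have hkill : ∀ z, aeval (sg D) (cyclotomic ℓ ℤ) (Additive.ofMul (c z)) = 0 := fun z =>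
    norm_kills D (hη z) (he z) ⟨_, hI z⟩ rfl
  obtain ⟨hf1, hf2⟩ := D.card_fixed ht1
  -- the order of the descent values
  have ht2 : ∀ z : ι, t + β z = am (C z.1 * h) * am (C z.1 * h + 1) ^ (p ^ ν) := by
    intro z
    have h1 : (C z.1 * h + 1 : k[X]) ^ (p ^ ν) = (C z.1 * h) ^ (p ^ ν) + 1 := by
      rw [add_pow_char_pow, one_pow]
    have h4 : (C z.1 * h) ^ (p ^ ν + 1) = h ^ (p ^ ν + 1) := by
      rw [mul_pow, ← C_pow, hι z, C_1, one_mul]
    show am (h ^ (p ^ ν + 1)) + am (C z.1 * h) = _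
    rw [← map_pow, h1, ← map_mul, ← map_add, ← h4, pow_succ]
    congr 1
    ring
  have hne1 : ∀ z : ι, am (C z.1 * h + 1) ≠ 0 := fun z => by
    rw [Ne, map_eq_zero_iff _ hinj]; exact (hirr' z).ne_zero
  have hne2 : ∀ z : ι, am (C z.1 * h) ≠ 0 := fun z => by
    rw [Ne, map_eq_zero_iff _ hinj]; exact mul_ne_zero (C_ne_zero.2 (hz0 z)) h0
  have hδ2 : ∀ z : ι, (1 + β z) / (t + β z) =
      am (C z.1 * h + 1) ^ (1 - (p ^ ν : ℤ)) * (am (C z.1 * h)) ^ (-1 : ℤ) := by
    intro z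
    rw [ht2 z, zpow_sub₀ (hne1 z), zpow_one, zpow_neg_one]
    have e1 : 1 + β z = am (C z.1 * h + 1) := by
      show 1 + am (C z.1 * h) = _
      rw [map_add, map_one, add_comm]
    have e2 : am (C z.1 * h + 1) ^ (p ^ ν : ℤ) = am (C z.1 * h + 1) ^ (p ^ ν) := by
      rw [← zpow_natCast]; push_cast; rfl
    rw [e1, e2]
    have := hne1 z
    have := hne2 z
    field_simp
  have hord : ∀ z w : ι, ordAt (C w.1 * h + 1) (hirr' w) ((1 + β z) / (t + β z)) =
      if w = z then (p ^ ν : ℤ) - 1 else 0 := by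
    intro z w
    rw [hδ2, ordAt_mul _ _ (zpow_ne_zero _ (hne1 z)) (zpow_ne_zero _ (hne2 z)), ordAt_zpow,
      ordAt_zpow, ordAt_of_not_dvd _ _ (hndh z w), mul_zero, add_zero]
    split_ifs with hwz
    · subst hwz
      rw [ordAt_self]; ring
    · rw [ordAt_of_not_dvd _ _ (hnd z w hwz), mul_zero]
  have hrel : ∀ n : ι → ℤ[X], ∑ i, aeval (sg D) (n i) (Additive.ofMul (c i)) = 0 →
      ∀ i, (ℓ : ℤ) ∣ (n i).eval 1 := by
    intro n hn w
    obtain ⟨κ, hκ, hprod⟩ := relation D ht0 ht1 c (fun z => (1 + β z) / (t + β z)) hδ n hn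
    have h1 := congrArg (ordAt (C w.1 * h + 1) (hirr' w)) hprod
    have hne3 : ∀ z : ι, (1 + β z) / (t + β z) ≠ 0 := fun z => by
      rw [hδ2]; exact mul_ne_zero (zpow_ne_zero _ (hne1 z)) (zpow_ne_zero _ (hne2 z))
    rw [ordAt_prod _ _ _ _ (fun i _ => zpow_ne_zero _ (hne3 i)), ordAt_pow] at h1
    simp only [ordAt_zpow, hord] at h1
    rw [Finset.sum_eq_single w (fun z _ hz => by rw [if_neg (Ne.symm hz), mul_zero])
      (fun hw => absurd (Finset.mem_univ _) hw), if_pos rfl] at h1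
    have h2 : (ℓ : ℤ) ∣ (n w).eval 1 * 2 := by
      have h3 : ((p ^ ν : ℕ) : ℤ) + 1 = ℓ * m := by exact_mod_cast hm
      push_cast at h3
      refine ⟨(n w).eval 1 * m - ordAt (C w.1 * h + 1) (hirr' w) κ, ?_⟩
      linear_combination (-1) * h1 + (n w).eval 1 * h3
    have hℓ' : Prime (ℓ : ℤ) := Nat.prime_iff_prime_int.1 hℓ
    rcases hℓ'.dvd_or_dvd h2 with h3 | h3
    · exact h3
    · exfalso
      have h4 : ℓ ∣ 2 := by exact_mod_cast h3
      have h5 := Nat.le_of_dvd (by norm_num) h4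
      have h6 := hℓ.two_le
      exact D.hodd (by omega)
  have hfin : Finite {x : Additive (ClassGroup B) // sg D x = x} := hf1
  have hcd : Nat.card {x : Additive (ClassGroup B) // sg D x = x} ≤ ℓ ^ 2 := hf2
  have key := Lin.exists_independent (sg D) (fun z : ι => Additive.ofMul (c z)) hkill hℓ D.hodd
    hfin hcd hrel
  rw [hcard] at key
  exact key

end pts

end Pool.Agent.TH958.SJ
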