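import Pool.Agent.TH958.SJ.Ev
import Pool.Agent.TH958.SJ.Cl

set_option autoImplicit false
set_option linter.all false
set_option maxHeartbeats 1000000

open Polynomial
open scoped nonZeroDivisors

namespace Pool.Agent.TH958.SJ

section gen
variable {K : Type} [Field K]

/-- all primes which do not divide `f` divide `a` to an order divisible by `ℓ` -/
def Div (ℓ : ℕ) (f a : K[X]) : Prop :=
  ∀ π : K[X], Prime π → ¬ π ∣ f → ∀ k : ℕ, π ^ k ∣ a → ¬ π ^ (k + 1) ∣ a → ℓ ∣ k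

lemma Div.of_mul {ℓ : ℕ} {f p a : K[X]} (hp : p ∣ f) (h : Div ℓ f (p * a)) : Div ℓ f a := by
  intro π hπ hπf k h1 h2
  have h3 : ¬ π ∣ p := fun h4 => hπf (h4.trans hp)
  exact h π hπ hπf k (h1.mul_left p) fun h4 => h2 (hπ.pow_dvd_of_dvd_mul_left _ h3 h4)

lemma Div.of_mul_pow {ℓ : ℕ} {f p a : K[X]} (hp : Prime p) (h : Div ℓ f (p ^ ℓ * a)) :
    Div ℓ f a := by
  intro π hπ hπf k h1 h2
  by_cases hd : π ∣ p
  · obtain ⟨u, hu⟩ := hπ.irreducible.associated_of_dvd hp.irreducible hd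
    have e1 : ∀ n, π ^ (ℓ + n) ∣ p ^ ℓ * a ↔ π ^ n ∣ a := by
      intro n
      rw [← hu, mul_pow, pow_add]
      constructor
      · rintro ⟨c, hc⟩
        have : π ^ ℓ * ((u : K[X]) ^ ℓ * a) = π ^ ℓ * (π ^ n * c) := by linear_combination hc
        have h5 := mul_left_cancel₀ (pow_ne_zero ℓ hπ.ne_zero) this
        have h6 : π ^ n ∣ (u : K[X]) ^ ℓ * a := ⟨c, h5⟩
        have h7 : IsUnit ((u : K[X]) ^ ℓ) := (u.isUnit).pow ℓ
        exact (h7.dvd_mul_left).1 h6
      · rintro ⟨c, hc⟩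
        exact ⟨(u : K[X]) ^ ℓ * c, by rw [hc]; ring⟩
    have h8 := h π hπ hπf (ℓ + k) ((e1 k).2 h1) (by
      have := (e1 (k + 1)).not.2 h2
      rwa [← add_assoc] at this)
    exact (Nat.dvd_add_right (dvd_refl ℓ)).1 h8
  · have h3 : ¬ π ∣ p ^ ℓ := fun h4 => hd (hπ.dvd_of_dvd_pow h4)
    exact h π hπ hπf k (h1.mul_left _) fun h4 => h2 (hπ.pow_dvd_of_dvd_mul_left _ h3 h4)

/-- the structure of the elements with `Div` -/
lemma Div.factor {ℓ : ℕ} (hℓ : 1 ≤ ℓ) {t : K} {N : ℕ} {a : K[X]} (ha : a ≠ 0)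
    (h : Div ℓ (X ^ N * (X + 1) * (X + C t)) a) (hN : 0 < N) :
    ∃ (u : K) (g : K[X]) (e₀ e₁ e₂ : ℕ), u ≠ 0 ∧ g ≠ 0 ∧
      a = C u * g ^ ℓ * X ^ e₀ * (X + 1) ^ e₁ * (X + C t) ^ e₂ := by
  induction hn : a.natDegree using Nat.strong_induction_on generalizing a with
  | _ n ih =>
    by_cases hu : IsUnit a
    · obtain ⟨u, hu0, rfl⟩ := Polynomial.isUnit_iff.1 hu
      exact ⟨u, 1, 0, 0, 0, hu0.ne_zero, one_ne_zero, by simp⟩
    obtain ⟨π, hπ, hπa⟩ := WfDvdMonoid.exists_irreducible_factor hu ha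
    have hπ' := hπ.prime
    have lin : ∀ α : K, π ∣ X + C α → (X + C α) ∣ a := by
      intro α hd
      have h1 : Irreducible (X + C α : K[X]) := by
        have := irreducible_X_sub_C (-α)
        rwa [C_neg, sub_neg_eq_add] at this
      exact ((hπ.associated_of_dvd h1 hd).symm.dvd).trans hπa
    have red : ∀ (p : K[X]) (b : K[X]), 0 < p.natDegree → a = p * b → b.natDegree < n ∧ b ≠ 0 := by
      intro p b hp hab
      have hb : b ≠ 0 := by rintro rfl; exact ha (by rw [hab, mul_zero])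
      have hp0 : p ≠ 0 := by rintro rfl; simp at hp
      refine ⟨?_, hb⟩
      rw [← hn, hab, natDegree_mul hp0 hb]
      omega
    by_cases hf : π ∣ X ^ N * (X + 1) * (X + C t)
    · rcases hπ'.dvd_or_dvd hf with hf | hf
      · rcases hπ'.dvd_or_dvd hf with hf | hf
        · have hf' : π ∣ X + C 0 := by rw [C_0, add_zero]; exact hπ'.dvd_of_dvd_pow hf
          obtain ⟨b, hb⟩ := lin 0 hf'
          rw [C_0, add_zero] at hb
          obtain ⟨h1, h2⟩ := red X b (by simp) hb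
          have hfac : (X : K[X]) ∣ X ^ N * (X + 1) * (X + C t) :=
            ((dvd_pow_self X hN.ne').mul_right _).mul_right _
          obtain ⟨u, g, e₀, e₁, e₂, hu0, hg0, e⟩ := ih _ h1 h2 (Div.of_mul hfac (hb ▸ h)) rfl
          exact ⟨u, g, e₀ + 1, e₁, e₂, hu0, hg0, by rw [hb, e]; ring⟩
        · obtain ⟨b, hb⟩ := lin 1 (by rwa [C_1])
          rw [C_1] at hb
          obtain ⟨h1, h2⟩ := red (X + 1) b (by
            rw [← C_1, natDegree_X_add_C]; exact one_pos) hb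
          have hfac : (X + 1 : K[X]) ∣ X ^ N * (X + 1) * (X + C t) :=
            (dvd_mul_left _ _).mul_right _
          obtain ⟨u, g, e₀, e₁, e₂, hu0, hg0, e⟩ := ih _ h1 h2 (Div.of_mul hfac (hb ▸ h)) rfl
          exact ⟨u, g, e₀, e₁ + 1, e₂, hu0, hg0, by rw [hb, e]; ring⟩
      · obtain ⟨b, hb⟩ := lin t hf
        obtain ⟨h1, h2⟩ := red (X + C t) b (by
          rw [natDegree_X_add_C]; exact one_pos) hb
        obtain ⟨u, g, e₀, e₁, e₂, hu0, hg0, e⟩ := ih _ h1 h2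
          (Div.of_mul (dvd_mul_left _ _) (hb ▸ h)) rfl
        exact ⟨u, g, e₀, e₁, e₂ + 1, hu0, hg0, by rw [hb, e]; ring⟩
    · have hfin : FiniteMultiplicity π a := FiniteMultiplicity.of_prime_left hπ' ha
      have hm1 : π ^ (multiplicity π a) ∣ a := pow_multiplicity_dvd π a
      have hm2 : ¬ π ^ (multiplicity π a + 1) ∣ a :=
        hfin.not_pow_dvd_of_multiplicity_lt (Nat.lt_succ_self _)
      have hm3 : ℓ ∣ multiplicity π a := h π hπ' hf _ hm1 hm2
      have hm4 : multiplicity π a ≠ 0 := by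
        intro h0
        rw [h0, zero_add, pow_one] at hm2
        exact hm2 hπa
      have hm5 : π ^ ℓ ∣ a :=
        (pow_dvd_pow π (Nat.le_of_dvd (Nat.pos_of_ne_zero hm4) hm3)).trans hm1
      obtain ⟨b, hb⟩ := hm5
      have hpd : 0 < (π ^ ℓ).natDegree := by
        rw [natDegree_pow]
        exact Nat.mul_pos (by omega) hπ.natDegree_pos
      obtain ⟨h1, h2⟩ := red (π ^ ℓ) b hpd hb
      obtain ⟨u, g, e₀, e₁, e₂, hu0, hg0, e⟩ := ih _ h1 h2 (Div.of_mul_pow hπ' (hb ▸ h)) rfl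
      exact ⟨u, π * g, e₀, e₁, e₂, hu0, mul_ne_zero hπ.ne_zero hg0, by rw [hb, e]; ring⟩

end gen

variable {K : Type} [Field K] {L F B : Type} [Field L] [Field F] [CommRing B]
    [Algebra K[X] L] [Algebra L F] [Algebra K[X] F] [Algebra K[X] B] [Algebra B F]
    {ℓ : ℕ} {f : K[X]} [IsFractionRing K[X] L] [IsScalarTower K[X] L F]
    [IsScalarTower K[X] B F] [IsIntegralClosure B K[X] F] [FiniteDimensional L F]
    [IsDedekindDomain B]

namespace Cov

variable (D : Cov K L F B ℓ f)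

lemma iter_mem {I : Ideal B} (hI : I.map ((D.s : B ≃+* B) : B →+* B) = I) {b : B} (hb : b ∈ I) (i : ℕ) :
    D.s^[i] b ∈ I := by
  induction i with
  | zero => exact hb
  | succ n ih =>
    rw [Function.iterate_succ_apply', ← hI]
    exact Ideal.mem_map_of_mem _ ih

lemma pr_mem {I : Ideal B} (hI : I.map ((D.s : B ≃+* B) : B →+* B) = I) {b : B} (hb : b ∈ I) (j : ℕ) :
    D.pr j b ∈ I := by
  unfold pr
  refine I.sum_mem fun i _ => ?_
  rw [Algebra.smul_def]
  exact I.mul_mem_left _ (D.iter_mem hI hb i)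

lemma stable_gen {I : Ideal B} (hI0 : I ≠ ⊥) (hI : I.map ((D.s : B ≃+* B) : B →+* B) = I) :
    ∃ a : K[X], a ≠ 0 ∧ I ^ ℓ = Ideal.span {algebraMap K[X] B a} ∧ Div ℓ f a := by
  classical
  have hpos := D.hp.pos
  set S : Set B := {e | e ∈ I ∧ ∃ j, D.Eig j e} with hS
  have hspan : Ideal.span S = I := by
    apply le_antisymm
    · rw [Ideal.span_le]; exact fun e he => he.1
    · intro b hb
      rw [← D.sum_pr b]
      exact Ideal.sum_mem _ fun j _ => Ideal.subset_span ⟨D.pr_mem hI hb j, j, D.eig_pr j b⟩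
  set T : Set K[X] := {a | ∃ e ∈ S, algebraMap K[X] B a = e ^ ℓ} with hT
  obtain ⟨a, ha⟩ := (IsPrincipalIdealRing.principal (Ideal.span T)).principal
  have ha' : Ideal.span T = Ideal.span {a} := ha
  have himg : (algebraMap K[X] B) '' T = (fun e : B => e ^ ℓ) '' S := by
    ext z
    constructor
    · rintro ⟨c, ⟨e, he, hc⟩, rfl⟩
      exact ⟨e, he, hc.symm⟩
    · rintro ⟨e, he, rfl⟩
      obtain ⟨j, hj⟩ := he.2
      obtain ⟨c, hc⟩ := D.eig_pow hj
      exact ⟨c, ⟨e, he, hc⟩, hc⟩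
  have hpow : I ^ ℓ = Ideal.span {algebraMap K[X] B a} := by
    rw [← hspan, ← span_pow_eq S hpos, ← himg, ← Ideal.map_span, ha', Ideal.map_span,
      Set.image_singleton]
  have ha0 : a ≠ 0 := by
    rintro rfl
    rw [map_zero, Ideal.span_singleton_eq_bot.2 rfl] at hpow
    exact pow_ne_zero ℓ hI0 hpow
  refine ⟨a, ha0, hpow, ?_⟩
  intro π hπ hπf k h1 h2
  obtain ⟨c, hcT, hc⟩ : ∃ c ∈ T, ¬ π ^ (k + 1) ∣ c := by
    by_contra hall
    push Not at hall
    apply h2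
    have h3 : Ideal.span T ≤ Ideal.span {π ^ (k + 1)} := by
      rw [Ideal.span_le]
      intro c hc
      exact Ideal.mem_span_singleton.2 (hall c hc)
    rw [ha'] at h3
    exact Ideal.mem_span_singleton.1 (h3 (Ideal.mem_span_singleton_self a))
  have hkc : π ^ k ∣ c := by
    refine h1.trans ?_
    rw [← Ideal.mem_span_singleton, ← ha']
    exact Ideal.subset_span hcT
  obtain ⟨e, ⟨heI, j, hj⟩, he⟩ := hcT
  obtain ⟨u, w, hw, huw⟩ := D.eig_frac_pow hj he
  have hc0 : c ≠ 0 := by rintro rfl; exact hc (dvd_zero _)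
  have hu : u ≠ 0 := by
    rintro rfl
    rw [zero_pow D.hp.ne_zero, zero_mul] at huw
    exact mul_ne_zero (pow_ne_zero _ hw) hc0 huw
  have m1 : emultiplicity π c = k := emultiplicity_eq_coe.2 ⟨hkc, hc⟩
  have m2 : emultiplicity π (f ^ j) = 0 :=
    emultiplicity_eq_zero.2 fun h => hπf (hπ.dvd_of_dvd_pow h)
  have m3 := congrArg (emultiplicity π) huw
  rw [emultiplicity_mul hπ, emultiplicity_mul hπ, emultiplicity_pow hπ, emultiplicity_pow hπ, m1,
    m2, add_zero, (FiniteMultiplicity.of_prime_left hπ hw).emultiplicity_eq_multiplicity,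
    (FiniteMultiplicity.of_prime_left hπ hu).emultiplicity_eq_multiplicity] at m3
  have m4 : ℓ * multiplicity π w + k = ℓ * multiplicity π u := by exact_mod_cast m3
  exact (Nat.dvd_add_right (dvd_mul_right ℓ _)).1 (m4 ▸ dvd_mul_right ℓ _)

end Cov

end Pool.Agent.TH958.SJ
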